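import Pool.Agent.H61.BPA.Stmt

/-!
Row AFF of board `bpa`: the affine normal form of an ovoid, `q` even.
-/

set_option autoImplicit false

namespace Pool.BPA

open Finset

/-- Points with proportional representatives are equal. -/
theorem proj_eq {F W : Type} [Field F] [AddCommGroup W] [Module F W]
    (p p' : Projectivization F W) (a b : F) (ha : a ≠ 0) (h : a • p.rep = b • p'.rep) :
    p = p' := by
  rw [← p.mk_rep, ← p'.mk_rep, Projectivization.mk_eq_mk_iff']
  refine ⟨a⁻¹ * b, ?_⟩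
  rw [mul_smul, ← h, smul_smul, inv_mul_cancel₀ ha, one_smul]

theorem inj3 {α : Type} {a b c : α} (h1 : a ≠ b) (h2 : a ≠ c) (h3 : b ≠ c) :
    Function.Injective ![a, b, c] := by
  intro i j hij
  fin_cases i <;> fin_cases j <;>
    first
    | rfl
    | exact absurd hij h1
    | exact absurd hij h2
    | exact absurd hij h3
    | exact absurd hij h1.symm
    | exact absurd hij h2.symm
    | exact absurd hij h3.symm

/-- A symplectic frame, with first and last vectors given. -/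
theorem frame_ex {F : Type} [Field F] [CharP F 2]
    (B : (Fin 4 → F) →ₗ[F] (Fin 4 → F) →ₗ[F] F) (halt : ∀ w, B w w = 0)
    (hsym : ∀ x y, B x y = B y x) (hnd : ∀ w, (∀ y, B w y = 0) → w = 0) (x z : Fin 4 → F)
    (hxz : B x z = 1) : ∃ s t : Fin 4 → F, B x s = 0 ∧ B z s = 0 ∧ B x t = 0 ∧ B z t = 0 ∧
      B s t = 1 := by
  have h2 : ∀ a : F, a + a = 0 := CharTwo.add_self_eq_zero
  have hzx : B z x = 1 := by rw [hsym, hxz]
  have hker : LinearMap.ker ((B x).prod (B z)) ≠ ⊥ :=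
    LinearMap.ker_ne_bot_of_finrank_lt (by simp)
  obtain ⟨s, hs, hs0⟩ := Submodule.exists_mem_ne_zero_of_ne_bot hker
  rw [LinearMap.mem_ker, LinearMap.prod_apply] at hs
  have hxs : B x s = 0 := (Prod.ext_iff.mp hs).1
  have hzs : B z s = 0 := (Prod.ext_iff.mp hs).2
  obtain ⟨y, hy⟩ : ∃ y, B s y ≠ 0 := by
    by_contra hc
    push Not at hc
    exact hs0 (hnd s hc)
  refine ⟨s, (B s y)⁻¹ • (y + B z y • x + B x y • z), hxs, hzs, ?_, ?_, ?_⟩
  · rw [map_smul, map_add, map_add, map_smul, map_smul, halt x, hxz, smul_zero, add_zero]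
    simp only [smul_eq_mul, mul_one, h2, mul_zero]
  · rw [map_smul, map_add, map_add, map_smul, map_smul, halt z, hzx, smul_zero, add_zero]
    simp only [smul_eq_mul, mul_one, h2, mul_zero]
  · rw [map_smul, map_add, map_add, map_smul, map_smul, hsym s x, hxs, hsym s z, hzs, smul_zero,
      smul_zero, add_zero, add_zero, smul_eq_mul, inv_mul_cancel₀ hy]

theorem t_aff (hpole : PoleStmt) : AffStmt := by
  intro F _ _ _ S hq hcard hcap
  classical
  have h2 : ∀ a : F, a + a = 0 := CharTwo.add_self_eq_zero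
  obtain ⟨B, halt, hnd, hne⟩ := hpole F S hq hcard hcap
  have hsym : ∀ x y, B x y = B y x := by
    intro x y
    have h1 := halt (x + y)
    simp only [map_add, LinearMap.add_apply, halt, zero_add, add_zero] at h1
    have h3 : B x y + B y x = B y x + B y x := by rw [h2]; rw [add_comm]; exact h1
    exact add_right_cancel h3
  have hfin : S.Finite := Set.finite_of_ncard_pos (by rw [hcard]; omega)
  -- two points
  obtain ⟨p0, hp0, p1, hp1, h01⟩ : ∃ p0 ∈ S, ∃ p1 ∈ S, p0 ≠ p1 := by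
    have h1 : 1 < S.ncard := by rw [hcard]; nlinarith
    obtain ⟨a, b, ha, hb, hab⟩ := (Set.one_lt_ncard_iff hfin).1 h1
    exact ⟨a, ha, b, hb, hab⟩
  obtain ⟨d, hd⟩ : ∃ d, d = B p0.rep p1.rep := ⟨_, rfl⟩
  have hd0 : d ≠ 0 := by rw [hd]; exact hne p0 hp0 p1 hp1 h01
  obtain ⟨x, hx⟩ : ∃ x, x = p0.rep := ⟨_, rfl⟩
  obtain ⟨z, hz⟩ : ∃ z, z = d⁻¹ • p1.rep := ⟨_, rfl⟩
  have hxz : B x z = 1 := by
    rw [hx, hz, map_smul, ← hd, smul_eq_mul, inv_mul_cancel₀ hd0]
  have hzx : B z x = 1 := by rw [hsym, hxz]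
  obtain ⟨s, t, hxs, hzs, hxt, hzt, hst⟩ := frame_ex B halt hsym hnd x z hxz
  have hts : B t s = 1 := by rw [hsym, hst]
  -- the frame
  obtain ⟨L, hL⟩ : ∃ L : (Fin 4 → F) →ₗ[F] (Fin 4 → F), ∀ c, L c = c 0 • x + c 1 • s + c 2 • t +
      c 3 • z := by
    refine ⟨{ toFun := fun c => c 0 • x + c 1 • s + c 2 • t + c 3 • z
              map_add' := fun c c' => by
                simp only [Pi.add_apply]
                module
              map_smul' := fun a c => by
                simp only [Pi.smul_apply, smul_eq_mul, RingHom.id_apply]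
                module }, fun c => rfl⟩
  have hBL : ∀ a b, B (L a) (L b) = a 0 * b 3 + a 3 * b 0 + (a 1 * b 2 + a 2 * b 1) := by
    intro a b
    rw [hL, hL]
    simp only [map_add, map_smul, LinearMap.add_apply, LinearMap.smul_apply, smul_eq_mul, halt,
      hxs, hzs, hxt, hzt, hst, hts, hxz, hzx, hsym s x, hsym s z, hsym t x, hsym t z, mul_zero,
      mul_one, add_zero, zero_add]
    ring
  have hinj : Function.Injective L := by
    rw [injective_iff_map_eq_zero]
    intro c hc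
    have e0 := hBL c ![0, 0, 0, 1]
    have e1 := hBL c ![0, 0, 1, 0]
    have e2 := hBL c ![0, 1, 0, 0]
    have e3 := hBL c ![1, 0, 0, 0]
    rw [hc, map_zero, LinearMap.zero_apply] at e0 e1 e2 e3
    simp at e0 e1 e2 e3
    funext i
    fin_cases i
    · exact e0.symm
    · exact e1.symm
    · exact e2.symm
    · exact e3.symm
  obtain ⟨A, hA⟩ : ∃ A : (Fin 4 → F) ≃ₗ[F] (Fin 4 → F), ∀ c, A c = L c :=
    ⟨LinearEquiv.ofInjectiveEndo L hinj, fun c => rfl⟩
  have hBA : ∀ a b, B (A a) (A b) = a 0 * b 3 + a 3 * b 0 + (a 1 * b 2 + a 2 * b 1) := by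
    intro a b
    rw [hA, hA, hBL]
  have hAz : A ![0, 0, 0, 1] = z := by
    rw [hA, hL]
    simp
  have hz1 : z = d⁻¹ • p1.rep := hz
  -- coordinates of the points
  obtain ⟨co, hco⟩ : ∃ co : Projectivization F (Fin 4 → F) → Fin 4 → F,
    ∀ p, A (co p) = p.rep := ⟨fun p => A.symm p.rep, fun p => A.apply_symm_apply _⟩
  have hc0 : ∀ p ∈ S, p ≠ p1 → co p 0 ≠ 0 := by
    intro p hp hpp
    have h3 := hBA (co p) ![0, 0, 0, 1]
    rw [hco, hAz, hz1, map_smul] at h3
    simp at h3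
    rw [← h3]
    exact mul_ne_zero (inv_ne_zero hd0) (hne p hp p1 hp1 hpp)
  -- the normal form of a point
  have hnf : ∀ p ∈ S, p ≠ p1 →
      A ![1, co p 1 / co p 0, co p 2 / co p 0, co p 3 / co p 0] = (co p 0)⁻¹ • p.rep := by
    intro p hp hpp
    have h3 := hc0 p hp hpp
    have h4 : ![1, co p 1 / co p 0, co p 2 / co p 0, co p 3 / co p 0] = (co p 0)⁻¹ • co p := by
      funext i
      fin_cases i
      · simp [h3]
      · simp [div_eq_inv_mul]
      · simp [div_eq_inv_mul]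
      · simp [div_eq_inv_mul]
    rw [h4, map_smul, hco]
  -- the bijection
  obtain ⟨S', hS'⟩ : ∃ S' : Set (Projectivization F (Fin 4 → F)), S' = S \ {p1} := ⟨_, rfl⟩
  have hmS0 : ∀ p ∈ S', p ∈ S ∧ p ≠ p1 := by
    intro p h3
    rw [hS'] at h3
    exact ⟨h3.1, fun h => h3.2 h⟩
  have hmS' : ∀ p : S', p.1 ∈ S ∧ p.1 ≠ p1 := fun p => hmS0 p.1 p.2
  have hfin' : S'.Finite := by
    rw [hS']
    exact hfin.subset fun _ h => h.1
  have : Fintype S' := hfin'.fintype
  obtain ⟨g, hg⟩ : ∃ g : S' → F × F, g = fun p => (co p.1 1 / co p.1 0, co p.1 2 / co p.1 0) :=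
    ⟨_, rfl⟩
  have hginj : Function.Injective g := by
    intro p p' hpp
    by_contra hne'
    have hne2 : p.1 ≠ p'.1 := fun h => hne' (Subtype.ext h)
    rw [hg] at hpp
    have e1 : co p.1 1 / co p.1 0 = co p'.1 1 / co p'.1 0 := (Prod.ext_iff.mp hpp).1
    have e2 : co p.1 2 / co p.1 0 = co p'.1 2 / co p'.1 0 := (Prod.ext_iff.mp hpp).2
    obtain ⟨m1, m2⟩ := hmS' p
    obtain ⟨m3, m4⟩ := hmS' p'
    have n1 := hnf p.1 m1 m2
    have n2 := hnf p'.1 m3 m4
    have k1 : (co p.1 0)⁻¹ • p.1.rep - (co p'.1 0)⁻¹ • p'.1.rep =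
        (co p.1 3 / co p.1 0 - co p'.1 3 / co p'.1 0) • z := by
      rw [← n1, ← n2, ← hAz, ← map_sub, ← map_smul]
      congr 1
      funext i
      fin_cases i
      · simp
      · simp [e1]
      · simp [e2]
      · simp
    have hli := hcap ![p.1, p'.1, p1] (inj3 hne2 m2 m4) (by
      intro i
      fin_cases i
      · exact m1
      · exact m3
      · exact hp1)
    rw [Fintype.linearIndependent_iff] at hli
    have h5 := hli ![(co p.1 0)⁻¹, -(co p'.1 0)⁻¹,
      -((co p.1 3 / co p.1 0 - co p'.1 3 / co p'.1 0) * d⁻¹)] (by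
        rw [Fin.sum_univ_three]
        simp only [Matrix.cons_val_zero, Matrix.cons_val_one, Matrix.cons_val]
        have k2 : (co p.1 0)⁻¹ • p.1.rep + -(co p'.1 0)⁻¹ • p'.1.rep +
            -((co p.1 3 / co p.1 0 - co p'.1 3 / co p'.1 0) * d⁻¹) • p1.rep =
            ((co p.1 0)⁻¹ • p.1.rep - (co p'.1 0)⁻¹ • p'.1.rep) -
              (co p.1 3 / co p.1 0 - co p'.1 3 / co p'.1 0) • (d⁻¹ • p1.rep) := by module
        rw [k2, k1, hz1, sub_self]) 0
    simp only [Matrix.cons_val_zero] at h5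
    exact inv_ne_zero (hc0 p.1 m1 m2) h5
  have hcard' : Fintype.card S' = Fintype.card (F × F) := by
    have h3 : S'.ncard = Fintype.card F ^ 2 := by
      rw [hS', Set.ncard_sdiff_singleton_of_mem hp1, hcard]
      simp
    rw [Fintype.card_prod, ← sq, ← h3, ← Nat.card_coe_set_eq, Nat.card_eq_fintype_card]
  have hbij : Function.Bijective g := (Fintype.bijective_iff_injective_and_card g).2
    ⟨hginj, hcard'⟩
  obtain ⟨π, hπ⟩ : ∃ π : F × F → S', ∀ u, g (π u) = u :=
    ⟨Function.surjInv hbij.2, Function.surjInv_eq hbij.2⟩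
  have hπg : ∀ p, π (g p) = p := fun p => hginj (hπ (g p))
  obtain ⟨f, hf⟩ : ∃ f : F → F → F, f = fun s t => co (π (s, t)).1 3 / co (π (s, t)).1 0 :=
    ⟨_, rfl⟩
  have key : ∀ s t : F, A ![1, s, t, f s t] = (co (π (s, t)).1 0)⁻¹ • (π (s, t)).1.rep := by
    intro s t
    obtain ⟨m1, m2⟩ := hmS' (π (s, t))
    rw [← hnf _ m1 m2]
    have h3 := hπ (s, t)
    rw [hg] at h3
    have e1 : co (π (s, t)).1 1 / co (π (s, t)).1 0 = s := (Prod.ext_iff.mp h3).1
    have e2 : co (π (s, t)).1 2 / co (π (s, t)).1 0 = t := (Prod.ext_iff.mp h3).2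
    rw [e1, e2, hf]
  refine ⟨A, f, fun p => ⟨fun hp => ?_, fun hp => ?_⟩, fun u w huw => ?_⟩
  · by_cases hpp : p = p1
    · right
      refine ⟨d⁻¹, ?_⟩
      rw [hAz, hpp, hz1]
    · left
      have hpS : p ∈ S' := by
        rw [hS']
        exact ⟨hp, hpp⟩
      refine ⟨(g ⟨p, hpS⟩).1, (g ⟨p, hpS⟩).2, (co p 0)⁻¹, ?_⟩
      rw [key, Prod.mk.eta, hπg]
  · rcases hp with ⟨s', t', c, hc⟩ | ⟨c, hc⟩
    · rw [key] at hc
      obtain ⟨m1, m2⟩ := hmS' (π (s', t'))
      have h3 := proj_eq _ p _ c (inv_ne_zero (hc0 _ m1 m2)) hc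
      rw [← h3]
      exact m1
    · rw [hAz, hz1] at hc
      have h3 := proj_eq p1 p _ c (inv_ne_zero hd0) hc
      rw [← h3]
      exact hp1
  · have h3 : B (A ![1, u.1, u.2, f u.1 u.2]) (A ![1, w.1, w.2, f w.1 w.2]) ≠ 0 := by
      rw [key, key]
      obtain ⟨m1, m2⟩ := hmS' (π (u.1, u.2))
      obtain ⟨m3, m4⟩ := hmS' (π (w.1, w.2))
      have hne3 : (π (u.1, u.2)).1 ≠ (π (w.1, w.2)).1 := by
        intro h
        have h4 : π (u.1, u.2) = π (w.1, w.2) := Subtype.ext h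
        have h5 := congrArg g h4
        rw [hπ, hπ] at h5
        exact huw h5
      rw [map_smul, map_smul, LinearMap.smul_apply, smul_eq_mul, smul_eq_mul]
      exact mul_ne_zero (inv_ne_zero (hc0 _ m3 m4)) (mul_ne_zero (inv_ne_zero (hc0 _ m1 m2))
        (hne _ m1 _ m3 hne3))
    rw [hBA] at h3
    simp only [Matrix.cons_val_zero, Matrix.cons_val_one, Matrix.cons_val, one_mul,
      mul_one] at h3
    intro h4
    apply h3
    have h5 : f w.1 w.2 + f u.1 u.2 + (u.1 * w.2 + u.2 * w.1) =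
        (f u.1 u.2 + f w.1 w.2) + (u.1 * w.2 + u.2 * w.1) := by ring
    rw [h5, h4]
    exact h2 _

end Pool.BPA
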