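import Mathlib

/-!
Statements (as Props) of the rows of board `bpa`: ovoids of `PG(3,q)`, the part which does not use
digits.  Tangent planes for every `q ≠ 2`, Segre's lemma of tangents, the symmetric form; `q` odd:
quadrics; `q` even: the symplectic polarity and the affine normal form; `q = 4`; `q = 2`.
-/

set_option autoImplicit false
set_option linter.unusedSectionVars false

namespace Pool.BPA

open Finset

section general
variable {F : Type} [Field F] {ι W : Type} [AddCommGroup W] [Module F W]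

/-- A cap as an indexed family of vectors: no three of them are collinear points. -/
structure Cap (F : Type) [Field F] {ι W : Type} [AddCommGroup W] [Module F W]
    (v : ι → W) : Prop where
  one : ∀ i, v i ≠ 0
  two : ∀ i j, i ≠ j → ∀ a b : F, a • v i + b • v j = 0 → a = 0 ∧ b = 0
  three : ∀ i j k, i ≠ j → i ≠ k → j ≠ k → ∀ a b c : F,
    a • v i + b • v j + c • v k = 0 → a = 0 ∧ b = 0 ∧ c = 0

/-- `T i = 0` is the tangent hyperplane at `v i`: a line through `v i` outside it has a second point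
of the cap. -/
structure Tan (v : ι → W) (T : ι → W →ₗ[F] F) : Prop where
  self : ∀ i, T i (v i) = 0
  off : ∀ i j, i ≠ j → T i (v j) ≠ 0
  hit : ∀ i w, T i w ≠ 0 → ∃ j, j ≠ i ∧ ∃ a b : F, v j = a • v i + b • w

end general

/-! ## Any finite-dimensional space -/

/-- PROD: one third of the lemma of tangents.  `P` is the set of the other points of the plane section,
`β`, `γ` are coordinates.  Proof: `l ↦ γ l / β l` is a bijection from `P` to the nonzero elements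
different from `- T i (v j) / T i (v k)`; the product of all nonzero elements is `-1`. -/
def ProdStmt : Prop := ∀ (F : Type) [Field F] [Fintype F] (ι : Type) (W : Type)
  [AddCommGroup W] [Module F W] (v : ι → W) (T : ι → W →ₗ[F] F), Cap F v → Tan v T →
  ∀ (i j k : ι), i ≠ j → i ≠ k → j ≠ k → ∀ (P : Finset ι) (α β γ : ι → F),
    (∀ l, l ∈ P ↔ (l ≠ i ∧ l ≠ j ∧ l ≠ k ∧ ∃ a b c : F, v l = a • v i + b • v j + c • v k)) →
    (∀ l ∈ P, v l = α l • v i + β l • v j + γ l • v k) →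
    (∏ l ∈ P, γ l / β l) * T i (v j) = T i (v k)

/-- LEMT: Segre's lemma of tangents (from PROD three times). -/
def LemTStmt : Prop := ∀ (F : Type) [Field F] [Fintype F] (ι : Type) [Fintype ι] (W : Type)
  [AddCommGroup W] [Module F W] (v : ι → W) (T : ι → W →ₗ[F] F), Cap F v → Tan v T →
  ∀ (i j k : ι), i ≠ j → i ≠ k → j ≠ k →
    T i (v j) * T j (v k) * T k (v i) = T i (v k) * T j (v i) * T k (v j)

/-- SPAN. -/
def SpanStmt : Prop := ∀ (F : Type) [Field F] (ι : Type) (W : Type)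
  [AddCommGroup W] [Module F W] (v : ι → W) (T : ι → W →ₗ[F] F), Cap F v → Tan v T →
  (∃ i j : ι, i ≠ j) → Submodule.span F (Set.range v) = ⊤

/-- GLUE: the symmetric form. -/
def GlueStmt : Prop := ∀ (F : Type) [Field F] (ι : Type) (W : Type)
  [AddCommGroup W] [Module F W] (v : ι → W) (T : ι → W →ₗ[F] F), Cap F v → Tan v T →
  Submodule.span F (Set.range v) = ⊤ →
  (∀ (i j k : ι), i ≠ j → i ≠ k → j ≠ k →
    T i (v j) * T j (v k) * T k (v i) = T i (v k) * T j (v i) * T k (v j)) →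
  ∃ B : W →ₗ[F] W →ₗ[F] F, (∀ x y, B x y = B y x) ∧ ∀ i, ∃ c : F, c ≠ 0 ∧ B (v i) = c • T i

/-- TANG: a hyperplane which meets the cap in one point only has the property `hit`, by counting
(`|W| = q^d`, `|ι| = q^(d-2) + 1`). -/
def TangStmt : Prop := ∀ (F : Type) [Field F] [Fintype F] (ι : Type) [Fintype ι] (W : Type)
  [AddCommGroup W] [Module F W] [Fintype W] (v : ι → W), Cap F v →
  (Fintype.card ι - 1) * Fintype.card F ^ 2 = Fintype.card W →
  ∀ (i : ι) (τ : W →ₗ[F] F), τ (v i) = 0 → (∀ j, j ≠ i → τ (v j) ≠ 0) →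
    ∀ w, τ w ≠ 0 → ∃ j, j ≠ i ∧ ∃ a b : F, v j = a • v i + b • w

/-- OVT: tangents of an oval (`q + 1` points of a plane). -/
def OvtStmt : Prop := ∀ (F : Type) [Field F] [Fintype F] (ι : Type) [Fintype ι] (W : Type)
  [AddCommGroup W] [Module F W] [Fintype W] (v : ι → W), Cap F v →
  Fintype.card ι = Fintype.card F + 1 → Fintype.card W = Fintype.card F ^ 3 →
  ∀ i : ι, ∃ τ : W →ₗ[F] F, τ (v i) = 0 ∧ ∀ j, j ≠ i → τ (v j) ≠ 0

/-- NUC: the nucleus of an oval, `q` even. -/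
def NucStmt : Prop := ∀ (F : Type) [Field F] [Fintype F] [CharP F 2] (ι : Type) [Fintype ι]
  (W : Type) [AddCommGroup W] [Module F W] [Fintype W] (v : ι → W), Cap F v →
  Fintype.card ι = Fintype.card F + 1 → Fintype.card W = Fintype.card F ^ 3 →
  ∃ N : W, N ≠ 0 ∧ (∀ i j, ∀ a b : F, N ≠ a • v i + b • v j) ∧
    ∀ w, (∀ a : F, w ≠ a • N) → ∃ i, ∃ a b : F, v i = a • N + b • w

/-! ## Planes of `F⁴` -/

section planes
variable {F : Type} [Field F] [Fintype F] {ι : Type} [Fintype ι]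

open Classical in
/-- nonzero linear forms vanishing at `x`. -/
noncomputable def P1 (x : Fin 4 → F) : Finset (Fin 4 → F) :=
  univ.filter fun c => c ≠ 0 ∧ c ⬝ᵥ x = 0

open Classical in
/-- nonzero linear forms vanishing at `x` and `y`. -/
noncomputable def P2 (x y : Fin 4 → F) : Finset (Fin 4 → F) :=
  univ.filter fun c => c ≠ 0 ∧ c ⬝ᵥ x = 0 ∧ c ⬝ᵥ y = 0

open Classical in
/-- points of the cap in the plane `c`. -/
noncomputable def A (v : ι → Fin 4 → F) (c : Fin 4 → F) : Finset ι :=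
  univ.filter fun i => c ⬝ᵥ v i = 0

end planes

/-- CN1. -/
def CN1Stmt : Prop := ∀ (F : Type) [Field F] [Fintype F] (x : Fin 4 → F), x ≠ 0 →
  (P1 x).card = Fintype.card F ^ 3 - 1

/-- CN2. -/
def CN2Stmt : Prop := ∀ (F : Type) [Field F] [Fintype F] (x y : Fin 4 → F),
  (∀ a b : F, a • x + b • y = 0 → a = 0 ∧ b = 0) → (P2 x y).card = Fintype.card F ^ 2 - 1

open Classical in
/-- CN3. -/
def CN3Stmt : Prop := ∀ (F : Type) [Field F] [Fintype F] (x y z : Fin 4 → F),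
  (∀ a b c : F, a • x + b • y + c • z = 0 → a = 0 ∧ b = 0 ∧ c = 0) →
  ((P2 x y).filter fun c => c ⬝ᵥ z = 0).card = Fintype.card F - 1

open Classical in
/-- PEN1: double counting (uses CN2). -/
def Pen1Stmt : Prop := ∀ (F : Type) [Field F] [Fintype F] (ι : Type) [Fintype ι]
  (v : ι → Fin 4 → F) (x : Fin 4 → F) (K : Finset ι),
  (∀ k ∈ K, ∀ a b : F, a • x + b • v k = 0 → a = 0 ∧ b = 0) →
  ∑ c ∈ P1 x, (A v c ∩ K).card = K.card * (Fintype.card F ^ 2 - 1)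

open Classical in
/-- PEN2: double counting (uses CN3). -/
def Pen2Stmt : Prop := ∀ (F : Type) [Field F] [Fintype F] (ι : Type) [Fintype ι]
  (v : ι → Fin 4 → F) (x y : Fin 4 → F) (K : Finset ι),
  (∀ k ∈ K, ∀ a b c : F, a • x + b • y + c • v k = 0 → a = 0 ∧ b = 0 ∧ c = 0) →
  ∑ c ∈ P2 x y, (A v c ∩ K).card = K.card * (Fintype.card F - 1)

/-- TPL: a plane through a tangent line has at most `q + 1` points of the cap. -/
def TplStmt : Prop := ∀ (F : Type) [Field F] [Fintype F] (ι : Type) [Fintype ι]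
  (v : ι → Fin 4 → F), Cap F v → ∀ (i : ι) (w : Fin 4 → F), (∀ a : F, w ≠ a • v i) →
  (∀ j, j ≠ i → ∀ a b : F, v j ≠ a • v i + b • w) →
  ∀ c : Fin 4 → F, c ≠ 0 → c ⬝ᵥ v i = 0 → c ⬝ᵥ w = 0 → (A v c).card ≤ Fintype.card F + 1

/-- NUC4: the nucleus of an oval section (uses NUC). -/
def Nuc4Stmt : Prop := ∀ (F : Type) [Field F] [Fintype F] [CharP F 2] (ι : Type) [Fintype ι]
  (v : ι → Fin 4 → F), Cap F v → ∀ c : Fin 4 → F, c ≠ 0 → (A v c).card = Fintype.card F + 1 →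
  ∃ N : Fin 4 → F, N ≠ 0 ∧ c ⬝ᵥ N = 0 ∧ (∀ i ∈ A v c, ∀ j, ∀ a b : F, N ≠ a • v i + b • v j) ∧
    ∀ w, c ⬝ᵥ w = 0 → (∀ a : F, w ≠ a • N) → ∃ i ∈ A v c, ∃ a b : F, v i = a • N + b • w

/-- SEC: all the planes through the nucleus have at most `q + 1` points (uses NUC4, TPL). -/
def SecStmt : Prop := ∀ (F : Type) [Field F] [Fintype F] (ι : Type) [Fintype ι]
  (v : ι → Fin 4 → F), Cap F v → ∀ (c N : Fin 4 → F), c ≠ 0 → N ≠ 0 → c ⬝ᵥ N = 0 →
  (A v c).card = Fintype.card F + 1 →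
  (∀ i ∈ A v c, ∀ j, ∀ a b : F, N ≠ a • v i + b • v j) →
  (∀ w, c ⬝ᵥ w = 0 → (∀ a : F, w ≠ a • N) → ∃ i ∈ A v c, ∃ a b : F, v i = a • N + b • w) →
  ∀ c' : Fin 4 → F, c' ≠ 0 → c' ⬝ᵥ N = 0 → (A v c').card ≤ Fintype.card F + 1

/-- NOTG: a cap of `F⁴` without tangent lines, `q` even, `q ≥ 4`, does not exist. -/
def NotgStmt : Prop := ∀ (F : Type) [Field F] [Fintype F] [CharP F 2] (ι : Type) [Fintype ι]
  (v : ι → Fin 4 → F), 4 ≤ Fintype.card F → Cap F v → Nonempty ι →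
  ∃ (i : ι) (w : Fin 4 → F), (∀ a : F, w ≠ a • v i) ∧ ∀ j, j ≠ i → ∀ a b : F, v j ≠ a • v i + b • w

/-- CAPB: Bose's bound for `q` even, `q ≥ 4` (uses NOTG, PEN2, TPL, NUC4, SEC). -/
def CapbStmt : Prop := ∀ (F : Type) [Field F] [Fintype F] [CharP F 2] (ι : Type) [Fintype ι]
  (v : ι → Fin 4 → F), 4 ≤ Fintype.card F → Cap F v → Fintype.card ι ≤ Fintype.card F ^ 2 + 1

/-- TPE: a plane with one point, `q` even (uses everything above). -/
def TpeStmt : Prop := ∀ (F : Type) [Field F] [Fintype F] [CharP F 2] (ι : Type) [Fintype ι]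
  (v : ι → Fin 4 → F), 4 ≤ Fintype.card F → Cap F v → Fintype.card ι = Fintype.card F ^ 2 + 1 →
  ∀ i, ∃ c : Fin 4 → F, c ⬝ᵥ v i = 0 ∧ ∀ j, j ≠ i → c ⬝ᵥ v j ≠ 0

/-- ARC: a plane section has at most `q + 1` points, `q` odd. -/
def ArcStmt : Prop := ∀ (F : Type) [Field F] [Fintype F] (ι : Type) [Fintype ι]
  (v : ι → Fin 4 → F), (2 : F) ≠ 0 → Cap F v → ∀ c : Fin 4 → F, c ≠ 0 →
  (A v c).card ≤ Fintype.card F + 1

/-- TPO: a plane with one point, `q` odd (uses ARC, PEN1, PEN2, CN1, CN2). -/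
def TpoStmt : Prop := ∀ (F : Type) [Field F] [Fintype F] (ι : Type) [Fintype ι]
  (v : ι → Fin 4 → F), (2 : F) ≠ 0 → Cap F v → Fintype.card ι = Fintype.card F ^ 2 + 1 →
  ∀ i, ∃ c : Fin 4 → F, c ⬝ᵥ v i = 0 ∧ ∀ j, j ≠ i → c ⬝ᵥ v j ≠ 0

/-- POL: the form, all `q ≠ 2` (uses TPE, TPO, TANG, LEMT, SPAN, GLUE). -/
def PolStmt : Prop := ∀ (F : Type) [Field F] [Fintype F] (ι : Type) [Fintype ι]
  (v : ι → Fin 4 → F), Fintype.card F ≠ 2 → Cap F v → Fintype.card ι = Fintype.card F ^ 2 + 1 →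
  Submodule.span F (Set.range v) = ⊤ ∧
  ∃ B : (Fin 4 → F) →ₗ[F] (Fin 4 → F) →ₗ[F] F, (∀ x y, B x y = B y x) ∧
    (∀ i, B (v i) (v i) = 0) ∧ (∀ i j, i ≠ j → B (v i) (v j) ≠ 0) ∧
    ∀ i w, B (v i) w ≠ 0 → ∃ j, j ≠ i ∧ ∃ a b : F, v j = a • v i + b • w

/-- ODD (family form): the zeros of `B w w` are the points of the cap. -/
def OddStmt : Prop := ∀ (F : Type) [Field F] [Fintype F] (ι : Type) [Fintype ι]
  (v : ι → Fin 4 → F), (2 : F) ≠ 0 → Cap F v → (∃ i j : ι, i ≠ j) →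
  Submodule.span F (Set.range v) = ⊤ →
  ∀ B : (Fin 4 → F) →ₗ[F] (Fin 4 → F) →ₗ[F] F, (∀ x y, B x y = B y x) →
    (∀ i, B (v i) (v i) = 0) → (∀ i j, i ≠ j → B (v i) (v j) ≠ 0) →
    (∀ i w, B (v i) w ≠ 0 → ∃ j, j ≠ i ∧ ∃ a b : F, v j = a • v i + b • w) →
    ∀ w, w ≠ 0 → B w w = 0 → ∃ i, ∃ a : F, w = a • v i

/-- EVN: in characteristic 2 the form is alternating and nondegenerate. -/
def EvnStmt : Prop := ∀ (F : Type) [Field F] [Fintype F] [CharP F 2] (ι : Type) [Fintype ι]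
  (v : ι → Fin 4 → F), Cap F v → Fintype.card ι = Fintype.card F ^ 2 + 1 →
  Submodule.span F (Set.range v) = ⊤ →
  ∀ B : (Fin 4 → F) →ₗ[F] (Fin 4 → F) →ₗ[F] F, (∀ x y, B x y = B y x) →
    (∀ i, B (v i) (v i) = 0) → (∀ i j, i ≠ j → B (v i) (v j) ≠ 0) →
    (∀ w, B w w = 0) ∧ ∀ w, (∀ y, B w y = 0) → w = 0

/-! ## Sets of points -/

/-- no three collinear, as in `S11343`. -/
def CapSet (F : Type) [Field F] (S : Set (Projectivization F (Fin 4 → F))) : Prop :=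
  ∀ f : Fin 3 → Projectivization F (Fin 4 → F), Function.Injective f →
    (∀ i, f i ∈ S) → LinearIndependent F (fun i => (f i).rep)

/-- the conclusion of `S11343`. -/
def Concl (F : Type) [Field F] [Fintype F] (S : Set (Projectivization F (Fin 4 → F))) : Prop :=
  (∃ Q : QuadraticForm F (Fin 4 → F), ∀ p, p ∈ S ↔ Q p.rep = 0) ∨
  (∃ e : ℕ, 1 ≤ e ∧ Fintype.card F = 2 ^ (2 * e + 1) ∧
    ∃ A : (Fin 4 → F) ≃ₗ[F] (Fin 4 → F), ∀ p, p ∈ S ↔
      ((∃ s t c : F, A ![1, s, t, s ^ (2 ^ (e + 1)) + s * t + t ^ (2 ^ (e + 1) + 2)] = c • p.rep) ∨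
       ∃ c : F, A ![0, 0, 0, 1] = c • p.rep))

/-- FAM: from the set to the family. -/
def FamStmt : Prop := ∀ (F : Type) [Field F] (S : Set (Projectivization F (Fin 4 → F))),
  CapSet F S → (∃ p ∈ S, ∃ p' ∈ S, ∃ p'' ∈ S, p ≠ p' ∧ p ≠ p'' ∧ p' ≠ p'') →
  Cap F (fun p : S => p.1.rep)

/-- QODD: `q` odd (Barlotti, Panella). -/
def QoddStmt : Prop := ∀ (F : Type) [Field F] [Fintype F]
  (S : Set (Projectivization F (Fin 4 → F))), (2 : F) ≠ 0 → S.ncard = Fintype.card F ^ 2 + 1 →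
  CapSet F S → ∃ Q : QuadraticForm F (Fin 4 → F), ∀ p, p ∈ S ↔ Q p.rep = 0

/-- POLE: the symplectic polarity, `q` even, `q ≥ 4`. -/
def PoleStmt : Prop := ∀ (F : Type) [Field F] [Fintype F] [CharP F 2]
  (S : Set (Projectivization F (Fin 4 → F))), 4 ≤ Fintype.card F →
  S.ncard = Fintype.card F ^ 2 + 1 → CapSet F S →
  ∃ B : (Fin 4 → F) →ₗ[F] (Fin 4 → F) →ₗ[F] F, (∀ w, B w w = 0) ∧
    (∀ w, (∀ y, B w y = 0) → w = 0) ∧ ∀ p ∈ S, ∀ p' ∈ S, p ≠ p' → B p.rep p'.rep ≠ 0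

/-- AFF: the affine normal form, `q` even, `q ≥ 4` (uses POLE). -/
def AffStmt : Prop := ∀ (F : Type) [Field F] [Fintype F] [CharP F 2]
  (S : Set (Projectivization F (Fin 4 → F))), 4 ≤ Fintype.card F →
  S.ncard = Fintype.card F ^ 2 + 1 → CapSet F S →
  ∃ A : (Fin 4 → F) ≃ₗ[F] (Fin 4 → F), ∃ f : F → F → F,
    (∀ p, p ∈ S ↔ ((∃ s t c : F, A ![1, s, t, f s t] = c • p.rep) ∨
      ∃ c : F, A ![0, 0, 0, 1] = c • p.rep)) ∧
    ∀ u w : F × F, u ≠ w → f u.1 u.2 + f w.1 w.2 ≠ u.1 * w.2 + u.2 * w.1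

/-- FOURF: the function of an ovoid over `GF(4)`. -/
def FourFStmt : Prop := ∀ (F : Type) [Field F] [Fintype F] [CharP F 2], Fintype.card F = 4 →
  ∀ f : F → F → F, (∀ u w : F × F, u ≠ w → f u.1 u.2 + f w.1 w.2 ≠ u.1 * w.2 + u.2 * w.1) →
  (∀ u w : F × F, w ≠ 0 → ∀ x y : F, x ≠ 0 → y ≠ 0 →
    x⁻¹ * (f (u.1 + x * w.1) (u.2 + x * w.2) + f u.1 u.2) =
      y⁻¹ * (f (u.1 + y * w.1) (u.2 + y * w.2) + f u.1 u.2) → x = y) →
  ∀ s t : F, f s t + f 0 0 = (f 1 0 + f 0 0) * s ^ 2 + s * t + (f 0 1 + f 0 0) * t ^ 2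

/-- FOUR. -/
def FourStmt : Prop := ∀ (F : Type) [Field F] [Fintype F]
  (S : Set (Projectivization F (Fin 4 → F))), Fintype.card F = 4 → S.ncard = 17 →
  CapSet F S → ∃ Q : QuadraticForm F (Fin 4 → F), ∀ p, p ∈ S ↔ Q p.rep = 0

/-- TWO. -/
def TwoStmt : Prop := ∀ (F : Type) [Field F] [Fintype F]
  (S : Set (Projectivization F (Fin 4 → F))), Fintype.card F = 2 → S.ncard = 5 →
  (∀ f : Fin 4 → Projectivization F (Fin 4 → F), Function.Injective f →
    (∀ i, f i ∈ S) → LinearIndependent F (fun i => (f i).rep)) →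
  ∃ Q : QuadraticForm F (Fin 4 → F), ∀ p, p ∈ S ↔ Q p.rep = 0

/-- The main theorem of the digit part: `q = 2^h ≥ 8`. -/
def EvenStmt : Prop := ∀ (F : Type) [Field F] [Fintype F]
  (S : Set (Projectivization F (Fin 4 → F))) (h : ℕ), 3 ≤ h → Fintype.card F = 2 ^ h →
  S.ncard = Fintype.card F ^ 2 + 1 → CapSet F S → Concl F S

/-- The statement of `S11343`. -/
def FrozenStmt : Prop := ∀ (F : Type) [Field F] [Fintype F]
  (S : Set (Projectivization F (Fin 4 → F))), S.ncard = Fintype.card F ^ 2 + 1 →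
  (Fintype.card F ≠ 2 → CapSet F S) →
  (Fintype.card F = 2 →
    ∀ f : Fin 4 → Projectivization F (Fin 4 → F), Function.Injective f →
      (∀ i, f i ∈ S) → LinearIndependent F (fun i => (f i).rep)) →
  Concl F S

/-- ASM: assembly. -/
def AsmStmt : Prop := EvenStmt → QoddStmt → FourStmt → TwoStmt → FrozenStmt

end Pool.BPA
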