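import Mathlib
import Pool.Agent.H61.BPA.Stmt

/-!
Row CN of board `bpa`: numbers of linear forms vanishing at one, two, three independent vectors
(helper4).
-/

set_option autoImplicit false

namespace Pool.BPA

open Finset

open Classical in
theorem cn_gen (F : Type) [Field F] [Fintype F] {k : ℕ} (M : Matrix (Fin k) (Fin 4) F)
    (hM : LinearIndependent F M.row) :
    (univ.filter fun c : Fin 4 → F => c ≠ 0 ∧ M.mulVec c = 0).card =
      Fintype.card F ^ (4 - k) - 1 := by
  have hr : M.rank = k := by
    rw [hM.rank_matrix, Fintype.card_fin]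
  have hk : Module.finrank F (LinearMap.ker M.mulVecLin) = 4 - k := by
    have h1 := LinearMap.finrank_range_add_finrank_ker M.mulVecLin
    rw [Module.finrank_fin_fun] at h1
    have h2 : Module.finrank F (LinearMap.range M.mulVecLin) = k := hr
    omega
  have hc : Fintype.card (LinearMap.ker M.mulVecLin) = Fintype.card F ^ (4 - k) := by
    rw [Module.card_eq_pow_finrank (K := F), hk]
  have h3 : (univ.filter fun c : Fin 4 → F => M.mulVec c = 0).card =
      Fintype.card F ^ (4 - k) := by
    rw [← hc, ← Fintype.card_subtype]
    refine Fintype.card_congr (Equiv.subtypeEquivRight fun c => ?_)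
    rw [LinearMap.mem_ker, Matrix.mulVecLin_apply]
  have h4 : (univ.filter fun c : Fin 4 → F => c ≠ 0 ∧ M.mulVec c = 0) =
      (univ.filter fun c : Fin 4 → F => M.mulVec c = 0).erase 0 := by
    ext c
    simp only [mem_filter, mem_univ, true_and, mem_erase]
  rw [h4, card_erase_of_mem, h3]
  simp only [mem_filter, mem_univ, true_and, Matrix.mulVec_zero]

theorem t_cn1 : CN1Stmt := by
  classical
  intro F _ _ x hx
  have h := cn_gen F (k := 1) ![x] (by
    refine LinearIndependent.of_subsingleton (0 : Fin 1) ?_
    simpa [Matrix.row] using hx)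
  rw [P1, ← h]
  refine congrArg Finset.card (Finset.filter_congr fun c _ => ?_)
  refine and_congr_right fun _ => ?_
  constructor
  · intro h0
    funext i
    fin_cases i
    simpa [Matrix.mulVec, dotProduct_comm] using h0
  · intro h0
    have := congrFun h0 0
    simpa [Matrix.mulVec, dotProduct_comm] using this

theorem t_cn2 : CN2Stmt := by
  classical
  intro F _ _ x y hxy
  have h := cn_gen F (k := 2) ![x, y] (by
    rw [Fintype.linearIndependent_iff]
    intro g hg
    have h1 : g 0 • x + g 1 • y = 0 := by
      simpa [Fin.sum_univ_two, Matrix.row] using hg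
    obtain ⟨h2, h3⟩ := hxy _ _ h1
    intro i
    fin_cases i
    · exact h2
    · exact h3)
  rw [P2, ← h]
  refine congrArg Finset.card (Finset.filter_congr fun c _ => ?_)
  refine and_congr_right fun _ => ?_
  constructor
  · rintro ⟨h0, h1⟩
    funext i
    fin_cases i
    · simpa [Matrix.mulVec, dotProduct_comm] using h0
    · simpa [Matrix.mulVec, dotProduct_comm] using h1
  · intro h0
    have e0 := congrFun h0 0
    have e1 := congrFun h0 1
    constructor
    · simpa [Matrix.mulVec, dotProduct_comm] using e0
    · simpa [Matrix.mulVec, dotProduct_comm] using e1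

theorem t_cn3 : CN3Stmt := by
  classical
  intro F _ _ x y z hxyz
  have h := cn_gen F (k := 3) ![x, y, z] (by
    rw [Fintype.linearIndependent_iff]
    intro g hg
    have h1 : g 0 • x + g 1 • y + g 2 • z = 0 := by
      simpa [Fin.sum_univ_three, Matrix.row] using hg
    obtain ⟨h2, h3, h4⟩ := hxyz _ _ _ h1
    intro i
    fin_cases i
    · exact h2
    · exact h3
    · exact h4)
  have h5 : Fintype.card F ^ (4 - 3) = Fintype.card F := by norm_num
  rw [h5] at h
  rw [← h, P2, Finset.filter_filter]
  refine congrArg Finset.card (Finset.filter_congr fun c _ => ?_)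
  rw [and_assoc]
  refine and_congr_right fun _ => ?_
  constructor
  · rintro ⟨⟨h0, h1⟩, h2⟩
    funext i
    fin_cases i
    · simpa [Matrix.mulVec, dotProduct_comm] using h0
    · simpa [Matrix.mulVec, dotProduct_comm] using h1
    · simpa [Matrix.mulVec, dotProduct_comm] using h2
  · intro h0
    have e0 := congrFun h0 0
    have e1 := congrFun h0 1
    have e2 := congrFun h0 2
    refine ⟨⟨?_, ?_⟩, ?_⟩
    · simpa [Matrix.mulVec, dotProduct_comm] using e0
    · simpa [Matrix.mulVec, dotProduct_comm] using e1
    · simpa [Matrix.mulVec, dotProduct_comm] using e2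

end Pool.BPA
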