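import Mathlib
import Pool.Agent.H61.BPA.Stmt
import Pool.Agent.H61.BPA.CN

/-!
Row TPL of board `bpa`: a plane through a tangent line has at most `q + 1` points (helper4).
-/

set_option autoImplicit false

namespace Pool.BPA

open Finset

/-- `q ^ 3` vectors are orthogonal to a nonzero vector. -/
theorem card_perp1 (F : Type) [Field F] [Fintype F] [DecidableEq F] (c : Fin 4 → F) (hc : c ≠ 0) :
    (univ.filter fun u : Fin 4 → F => c ⬝ᵥ u = 0).card = Fintype.card F ^ 3 := by
  classical
  have h := t_cn1 F c hc
  have h1 : (univ.filter fun u : Fin 4 → F => c ⬝ᵥ u = 0) = insert 0 (P1 c) := by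
    ext u
    simp only [P1, mem_filter, mem_univ, true_and, mem_insert]
    by_cases hu : u = 0
    · subst hu
      simp
    · simp only [hu, ne_eq, not_false_eq_true, true_and, false_or]
      rw [dotProduct_comm]
  have h2 : (0 : Fin 4 → F) ∉ P1 c := by
    simp [P1]
  rw [h1, card_insert_of_notMem h2, h]
  have h3 : 0 < Fintype.card F ^ 3 := pow_pos Fintype.card_pos 3
  omega

theorem t_tpl : TplStmt := by
  classical
  intro F _ _ ι _ v hv i w hw hwt c hc hci hcw
  set q := Fintype.card F with hq
  have hq1 : 1 < q := Fintype.one_lt_card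
  set W : Finset (Fin 4 → F) := univ.filter fun u => c ⬝ᵥ u = 0 with hW
  have hWc : W.card = q ^ 3 := card_perp1 F c hc
  set L : Finset (Fin 4 → F) := (univ : Finset (F × F)).image fun p => p.1 • v i + p.2 • w with hL
  have hLc : L.card = q ^ 2 := by
    rw [hL, card_image_of_injective]
    · rw [card_univ, Fintype.card_prod, ← hq, sq]
    · rintro ⟨a, b⟩ ⟨a', b'⟩ h
      simp only at h
      have h1 : (b - b') • w = (a' - a) • v i := by
        rw [sub_smul, sub_smul, sub_eq_sub_iff_add_eq_add]
        calc b • w + a • v i = a • v i + b • w := add_comm _ _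
          _ = a' • v i + b' • w := h
      by_cases hb : b = b'
      · subst hb
        rw [sub_self, zero_smul] at h1
        have h2 : a' - a = 0 := by
          rcases smul_eq_zero.1 h1.symm with h3 | h3
          · exact h3
          · exact absurd h3 (hv.one i)
        rw [sub_eq_zero] at h2
        rw [h2]
      · exfalso
        have hb' : b - b' ≠ 0 := sub_ne_zero.2 hb
        apply hw ((b - b')⁻¹ * (a' - a))
        rw [mul_smul, ← h1, smul_smul, inv_mul_cancel₀ hb', one_smul]
  have hLW : L ⊆ W := by
    intro u hu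
    rw [hL, mem_image] at hu
    obtain ⟨p, _, rfl⟩ := hu
    rw [hW, mem_filter]
    refine ⟨mem_univ _, ?_⟩
    rw [dotProduct_add, dotProduct_smul, dotProduct_smul, hci, hcw, smul_zero, smul_zero, add_zero]
  have hi : i ∈ A v c := by
    rw [A, mem_filter]
    exact ⟨mem_univ _, hci⟩
  have key : (((A v c).erase i) ×ˢ (((univ : Finset F).erase 0) ×ˢ (univ : Finset F))).card ≤
      (W \ L).card := by
    refine card_le_card_of_injOn (fun t => t.2.1 • v t.1 + t.2.2 • v i) ?_ ?_
    · rintro ⟨j, l, a⟩ ht
      simp only [coe_product, Set.mem_prod, mem_coe, mem_erase, mem_univ, and_true, A, mem_filter,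
        true_and] at ht
      obtain ⟨⟨hj, hcj⟩, hl⟩ := ht
      simp only [mem_coe, mem_sdiff]
      constructor
      · rw [hW, mem_filter]
        refine ⟨mem_univ _, ?_⟩
        rw [dotProduct_add, dotProduct_smul, dotProduct_smul, hci, hcj, smul_zero, smul_zero,
          add_zero]
      · intro hmem
        rw [hL, mem_image] at hmem
        obtain ⟨⟨a', b'⟩, _, h⟩ := hmem
        simp only at h
        apply hwt j hj (l⁻¹ * (a' - a)) (l⁻¹ * b')
        have h1 : l • v j = (a' - a) • v i + b' • w := by
          rw [sub_smul]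
          have h2 : l • v j = (a' • v i + b' • w) - a • v i := by
            rw [h]; abel
          rw [h2]; abel
        rw [mul_smul, mul_smul, ← smul_add, ← h1, smul_smul, inv_mul_cancel₀ hl, one_smul]
    · rintro ⟨j, l, a⟩ ht ⟨j', l', a'⟩ ht' h
      simp only [coe_product, Set.mem_prod, mem_coe, mem_erase, mem_univ, and_true, A, mem_filter,
        true_and] at ht ht'
      obtain ⟨⟨hj, hcj⟩, hl⟩ := ht
      obtain ⟨⟨hj', hcj'⟩, hl'⟩ := ht'
      simp only at h
      by_cases hjj : j = j'
      · subst hjj
        have h1 : (l - l') • v j + (a - a') • v i = 0 := by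
          rw [sub_smul, sub_smul]
          have h2 : l • v j + a • v i - (l' • v j + a' • v i) = 0 := sub_eq_zero.2 h
          rw [← h2]; abel
        obtain ⟨h3, h4⟩ := hv.two j i hj _ _ h1
        rw [sub_eq_zero] at h3 h4
        rw [h3, h4]
      · exfalso
        have h1 : l • v j + (-l') • v j' + (a - a') • v i = 0 := by
          rw [sub_smul, neg_smul]
          have h2 : l • v j + a • v i - (l' • v j' + a' • v i) = 0 := sub_eq_zero.2 h
          rw [← h2]; abel
        exact hl (hv.three j j' i hjj hj hj' _ _ _ h1).1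
  rw [card_product, card_product, card_erase_of_mem hi, card_erase_of_mem (mem_univ _), card_univ,
    card_sdiff_of_subset hLW, hWc, hLc, ← hq] at key
  obtain ⟨r, hr⟩ : ∃ r, q = r + 1 := ⟨q - 1, by omega⟩
  have hr0 : 0 < r := by omega
  have hpos : 0 < r * (r + 1) := by positivity
  rw [hr] at key ⊢
  have e1 : r + 1 - 1 = r := by omega
  rw [e1] at key
  have e2 : (r + 1) ^ 3 - (r + 1) ^ 2 = (r + 1) * (r * (r + 1)) := by
    have : (r + 1) ^ 3 = (r + 1) * (r * (r + 1)) + (r + 1) ^ 2 := by ring
    rw [this, Nat.add_sub_cancel]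
  rw [e2] at key
  have h5 := Nat.le_of_mul_le_mul_right key hpos
  omega

end Pool.BPA
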