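import Mathlib
import Pool.Agent.H61.BPA.Stmt
import Pool.Agent.H61.BPA.Tpl

/-!
Row ARC of board `bpa`: for `q` odd a plane section of a cap has at most `q + 1` points (helper4).
-/

set_option autoImplicit false

namespace Pool.BPA

open Finset

/-- the number of elements is odd. -/
theorem odd_card_of_two (F : Type) [Field F] [Fintype F] (h2 : (2 : F) ≠ 0) :
    Fintype.card F % 2 = 1 := by
  apply FiniteField.odd_card_of_char_ne_two
  intro h
  apply h2
  have h3 : ((ringChar F : ℕ) : F) = 0 := ringChar.Nat.cast_ringChar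
  rw [h] at h3
  exact_mod_cast h3

/-- Lines through a point of the cap in the plane `c`: the counting map. -/
theorem arc_count (F : Type) [Field F] [Fintype F] (ι : Type) [Fintype ι]
    (v : ι → Fin 4 → F) (hv : Cap F v) (c : Fin 4 → F) (hc : c ≠ 0)
    (hcard : Fintype.card F + 2 ≤ (A v c).card) (i : ι) (hci : c ⬝ᵥ v i = 0) :
    (A v c).card = Fintype.card F + 2 ∧ ∀ w, c ⬝ᵥ w = 0 → (∀ a : F, w ≠ a • v i) →
      ∃ j, j ≠ i ∧ c ⬝ᵥ v j = 0 ∧ ∃ l a : F, l ≠ 0 ∧ w = l • v j + a • v i := by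
  classical
  set q := Fintype.card F with hq
  have hq1 : 1 < q := Fintype.one_lt_card
  set W : Finset (Fin 4 → F) := univ.filter fun u => c ⬝ᵥ u = 0 with hW
  have hWc : W.card = q ^ 3 := card_perp1 F c hc
  set L : Finset (Fin 4 → F) := (univ : Finset F).image fun a => a • v i with hL
  have hLc : L.card = q := by
    rw [hL, card_image_of_injective]
    · rw [card_univ]
    · intro a a' h
      simp only at h
      have h1 : (a - a') • v i = 0 := by
        rw [sub_smul, h, sub_self]
      rcases smul_eq_zero.1 h1 with h2 | h2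
      · exact sub_eq_zero.1 h2
      · exact absurd h2 (hv.one i)
  have hLW : L ⊆ W := by
    intro u hu
    rw [hL, mem_image] at hu
    obtain ⟨a, _, rfl⟩ := hu
    rw [hW, mem_filter]
    refine ⟨mem_univ _, ?_⟩
    rw [dotProduct_smul, hci, smul_zero]
  have hi : i ∈ A v c := by
    rw [A, mem_filter]
    exact ⟨mem_univ _, hci⟩
  set D := (((A v c).erase i) ×ˢ (((univ : Finset F).erase 0) ×ˢ (univ : Finset F))) with hD
  set φ : ι × (F × F) → (Fin 4 → F) := fun t => t.2.1 • v t.1 + t.2.2 • v i with hφ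
  have hmaps : ∀ t ∈ D, φ t ∈ W \ L := by
    rintro ⟨j, l, a⟩ ht
    simp only [hD, mem_product, mem_erase, mem_univ, and_true, A, mem_filter,
      true_and] at ht
    obtain ⟨⟨hj, hcj⟩, hl⟩ := ht
    simp only [mem_sdiff, hφ]
    constructor
    · rw [hW, mem_filter]
      refine ⟨mem_univ _, ?_⟩
      rw [dotProduct_add, dotProduct_smul, dotProduct_smul, hci, hcj, smul_zero, smul_zero,
        add_zero]
    · intro hmem
      rw [hL, mem_image] at hmem
      obtain ⟨a', _, h⟩ := hmem
      have h1 : l • v j + (a - a') • v i = 0 := by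
        rw [sub_smul]
        have h2 : l • v j + a • v i - a' • v i = 0 := by
          rw [h, sub_self]
        rw [← h2]; abel
      exact hl (hv.two j i hj _ _ h1).1
  have hinj : Set.InjOn φ (D : Set (ι × (F × F))) := by
    rintro ⟨j, l, a⟩ ht ⟨j', l', a'⟩ ht' h
    simp only [hD, coe_product, Set.mem_prod, mem_coe, mem_erase, mem_univ, and_true, A, mem_filter,
      true_and] at ht ht'
    obtain ⟨⟨hj, hcj⟩, hl⟩ := ht
    obtain ⟨⟨hj', hcj'⟩, hl'⟩ := ht'
    simp only [hφ] at h
    by_cases hjj : j = j'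
    · subst hjj
      have h1 : (l - l') • v j + (a - a') • v i = 0 := by
        rw [sub_smul, sub_smul]
        have h2 : l • v j + a • v i - (l' • v j + a' • v i) = 0 := sub_eq_zero.2 h
        rw [← h2]; abel
      obtain ⟨h3, h4⟩ := hv.two j i hj _ _ h1
      rw [sub_eq_zero] at h3 h4
      rw [h3, h4]
    · exfalso
      have h1 : l • v j + (-l') • v j' + (a - a') • v i = 0 := by
        rw [sub_smul, neg_smul]
        have h2 : l • v j + a • v i - (l' • v j' + a' • v i) = 0 := sub_eq_zero.2 h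
        rw [← h2]; abel
      exact hl (hv.three j j' i hjj hj hj' _ _ _ h1).1
  have hDc : D.card = ((A v c).card - 1) * ((q - 1) * q) := by
    rw [hD, card_product, card_product, card_erase_of_mem hi, card_erase_of_mem (mem_univ _),
      card_univ, ← hq]
  have hWL : (W \ L).card = (q + 1) * ((q - 1) * q) := by
    rw [card_sdiff_of_subset hLW, hWc, hLc]
    obtain ⟨r, hr⟩ : ∃ r, q = r + 1 := ⟨q - 1, by omega⟩
    rw [hr]
    have e1 : r + 1 - 1 = r := by omega
    rw [e1]
    have : (r + 1) ^ 3 = (r + 1 + 1) * (r * (r + 1)) + (r + 1) := by ring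
    rw [this, Nat.add_sub_cancel]
  have key : D.card ≤ (W \ L).card := card_le_card_of_injOn φ hmaps hinj
  have hpos : 0 < (q - 1) * q := Nat.mul_pos (by omega) (by omega)
  have hle : (A v c).card - 1 ≤ q + 1 := by
    rw [hDc, hWL] at key
    exact Nat.le_of_mul_le_mul_right key hpos
  have hAq : (A v c).card = q + 2 := by omega
  refine ⟨hAq, ?_⟩
  have himg : D.image φ = W \ L := by
    apply eq_of_subset_of_card_le
    · intro u hu
      rw [mem_image] at hu
      obtain ⟨t, ht, rfl⟩ := hu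
      exact hmaps t ht
    · rw [card_image_of_injOn hinj, hDc, hWL, hAq]
      have : q + 2 - 1 = q + 1 := by omega
      rw [this]
  intro w hw hwi
  have hmem : w ∈ W \ L := by
    rw [mem_sdiff]
    constructor
    · rw [hW, mem_filter]
      exact ⟨mem_univ _, hw⟩
    · intro hm
      rw [hL, mem_image] at hm
      obtain ⟨a, _, ha⟩ := hm
      exact hwi a ha.symm
  rw [← himg, mem_image] at hmem
  obtain ⟨⟨j, l, a⟩, ht, hjw⟩ := hmem
  simp only [hD, mem_product, mem_erase, mem_univ, and_true, A, mem_filter,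
    true_and] at ht
  obtain ⟨⟨hj, hcj⟩, hl⟩ := ht
  exact ⟨j, hj, hcj, l, a, hl, hjw.symm⟩

theorem t_arc : ArcStmt := by
  classical
  intro F _ _ ι _ v h2 hv c hc
  by_contra hlt
  rw [not_le] at hlt
  have hcard : Fintype.card F + 2 ≤ (A v c).card := hlt
  set q := Fintype.card F with hq
  have hq1 : 1 < q := Fintype.one_lt_card
  obtain ⟨i, hi, j, hj, hij⟩ := one_lt_card.1 (show 1 < (A v c).card by omega)
  have hci : c ⬝ᵥ v i = 0 := (mem_filter.1 hi).2
  have hcj : c ⬝ᵥ v j = 0 := (mem_filter.1 hj).2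
  set r : Fin 4 → F := v i + v j with hr
  have hcr : c ⬝ᵥ r = 0 := by
    rw [hr, dotProduct_add, hci, hcj, add_zero]
  have hrz : ∀ z : ι, ∀ a : F, r ≠ a • v z := by
    intro z a h
    have h0 : v i + v j - a • v z = 0 := by
      rw [← hr, h, sub_self]
    by_cases hz : z = i
    · subst hz
      have h1 : (1 - a) • v z + (1 : F) • v j = 0 := by
        rw [sub_smul, one_smul, one_smul, ← h0]; abel
      exact one_ne_zero (hv.two z j hij _ _ h1).2
    · by_cases hz' : z = j
      · subst hz'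
        have h1 : (1 : F) • v i + (1 - a) • v z = 0 := by
          rw [sub_smul, one_smul, one_smul, ← h0]; abel
        exact one_ne_zero (hv.two i z hij _ _ h1).1
      · have h1 : (1 : F) • v i + (1 : F) • v j + (-a) • v z = 0 := by
          rw [neg_smul, one_smul, one_smul, ← h0]; abel
        exact one_ne_zero (hv.three i j z hij (Ne.symm hz) (Ne.symm hz') _ _ _ h1).1
  have hex : ∀ z ∈ A v c, ∃ z', z' ≠ z ∧ z' ∈ A v c ∧ ∃ l a : F, l ≠ 0 ∧ a ≠ 0 ∧
      r = l • v z' + a • v z := by
    intro z hz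
    have hcz : c ⬝ᵥ v z = 0 := (mem_filter.1 hz).2
    obtain ⟨z', hz', hcz', l, a, hl, hra⟩ :=
      (arc_count F ι v hv c hc hcard z hcz).2 r hcr (hrz z)
    refine ⟨z', hz', mem_filter.2 ⟨mem_univ _, hcz'⟩, l, a, hl, ?_, hra⟩
    rintro rfl
    rw [zero_smul, add_zero] at hra
    exact hrz z' l hra
  choose g hg1 hg2 hg3 using hex
  have huniq : ∀ z z₁ z₂ : ι, z₁ ≠ z → z₂ ≠ z → ∀ l₁ a₁ l₂ a₂ : F, l₁ ≠ 0 →
      r = l₁ • v z₁ + a₁ • v z → r = l₂ • v z₂ + a₂ • v z → z₁ = z₂ := by
    intro z z₁ z₂ h1 h2 l₁ a₁ l₂ a₂ hl hr1 hr2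
    by_contra hne
    have h3 : l₁ • v z₁ + (-l₂) • v z₂ + (a₁ - a₂) • v z = 0 := by
      rw [sub_smul, neg_smul]
      have h4 : l₁ • v z₁ + a₁ • v z - (l₂ • v z₂ + a₂ • v z) = 0 := by
        rw [← hr1, ← hr2, sub_self]
      rw [← h4]; abel
    exact hl (hv.three z₁ z₂ z hne h1 h2 _ _ _ h3).1
  have hsum : ∑ _z ∈ A v c, (1 : ZMod 2) = 0 := by
    refine Finset.sum_involution (fun z hz => g z hz) ?_ ?_ ?_ ?_
    · intro z hz
      decide
    · intro z hz _
      exact hg1 z hz
    · intro z hz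
      exact hg2 z hz
    · intro z hz
      obtain ⟨l, a, hl, ha, hra⟩ := hg3 z hz
      obtain ⟨l', a', hl', ha', hra'⟩ := hg3 (g z hz) (hg2 z hz)
      have hra2 : r = a • v z + l • v (g z hz) := by
        rw [hra, add_comm]
      exact huniq (g z hz) _ z (hg1 _ (hg2 z hz)) (hg1 z hz).symm l' a' a l hl' hra' hra2
  rw [sum_const, nsmul_one, ZMod.natCast_eq_zero_iff] at hsum
  have hAq := (arc_count F ι v hv c hc hcard i hci).1
  have hodd := odd_card_of_two F h2
  rw [hAq] at hsum
  omega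

end Pool.BPA
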