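import Pool.Agent.H61.BPA.Stmt

/-!
Row EVN of board `bpa`: in characteristic 2 the form is alternating and nondegenerate.
-/

set_option autoImplicit false

namespace Pool.BPA

open Finset

/-- A symmetric form in characteristic 2 which is zero on a spanning set is alternating. -/
theorem alt_of_span {F : Type} [Field F] [CharP F 2] {ι W : Type} [AddCommGroup W] [Module F W]
    (v : ι → W) (B : W →ₗ[F] W →ₗ[F] F) (hsym : ∀ x y, B x y = B y x)
    (hself : ∀ i, B (v i) (v i) = 0) (hspan : Submodule.span F (Set.range v) = ⊤) (w : W) :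
    B w w = 0 := by
  have h : w ∈ Submodule.span F (Set.range v) := by rw [hspan]; trivial
  induction h using Submodule.span_induction with
  | mem x hx =>
    obtain ⟨i, rfl⟩ := hx
    exact hself i
  | zero => simp
  | add x y _ _ hx hy =>
    have h1 : B (x + y) (x + y) = B x x + B y y + (B x y + B x y) := by
      simp only [map_add, LinearMap.add_apply]
      rw [hsym y x]
      ring
    rw [h1, hx, hy, CharTwo.add_self_eq_zero (B x y)]
    simp
  | smul a x _ hx =>
    simp only [map_smul, LinearMap.smul_apply, hx, smul_zero]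

theorem t_evn : EvnStmt := by
  intro F _ _ _ ι _ v hc hcard hspan B hsym hself hne
  classical
  have halt : ∀ w, B w w = 0 := alt_of_span v B hsym hself hspan
  refine ⟨halt, fun w hw => ?_⟩
  by_contra hw0
  have h2 : ∀ a : F, a + a = 0 := CharTwo.add_self_eq_zero
  -- two points
  have hq : 2 ≤ Fintype.card F := Fintype.one_lt_card
  have h1 : 1 < Fintype.card ι := by rw [hcard]; nlinarith
  obtain ⟨i, j, hij⟩ := Fintype.exists_pair_of_one_lt_card h1
  obtain ⟨x, hx⟩ : ∃ x, x = v i := ⟨_, rfl⟩
  obtain ⟨y, hy⟩ : ∃ y, y = v j := ⟨_, rfl⟩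
  obtain ⟨d, hd⟩ : ∃ d, d = B x y := ⟨_, rfl⟩
  have hd0 : d ≠ 0 := by rw [hd, hx, hy]; exact hne i j hij
  have hyx : B y x = d := by rw [hsym, hd]
  have hxx := halt x
  have hyy := halt y
  -- the orthogonal complement of the two points is totally isotropic
  have hU : ∀ u u' : Fin 4 → F, B x u = 0 → B y u = 0 → B x u' = 0 → B y u' = 0 → B u u' = 0 := by
    intro u u' a1 a2 a3 a4
    by_contra hne'
    have hli : LinearIndependent F ![x, y, u, u'] := by
      rw [Fintype.linearIndependent_iff]
      intro g hg
      rw [Fin.sum_univ_four] at hg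
      simp only [Matrix.cons_val_zero, Matrix.cons_val_one, Matrix.cons_val] at hg
      have k1 := congrArg (B x) hg
      have k2 := congrArg (B y) hg
      have k3 := congrArg (B u) hg
      have k4 := congrArg (B u') hg
      simp only [map_add, map_smul, smul_eq_mul, map_zero, hxx, hyy, a1, a2, a3, a4, hyx, ← hd,
        hsym u x, hsym u y, hsym u' x, hsym u' y, halt, hsym u' u, mul_zero, add_zero,
        zero_add] at k1 k2 k3 k4
      intro i
      fin_cases i
      · exact (mul_eq_zero.1 k2).resolve_right hd0
      · exact (mul_eq_zero.1 k1).resolve_right hd0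
      · exact (mul_eq_zero.1 k4).resolve_right hne'
      · exact (mul_eq_zero.1 k3).resolve_right hne'
    have hsp : ⊤ ≤ Submodule.span F (Set.range ![x, y, u, u']) := by
      refine (hli.span_eq_top_of_card_eq_finrank' ?_).ge
      simp
    have hwm : w ∈ Submodule.span F (Set.range ![x, y, u, u']) := hsp trivial
    rw [Submodule.mem_span_range_iff_exists_fun] at hwm
    obtain ⟨g, hg⟩ := hwm
    rw [Fin.sum_univ_four] at hg
    simp only [Matrix.cons_val_zero, Matrix.cons_val_one, Matrix.cons_val] at hg
    have k1 := hw x
    have k2 := hw y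
    have k3 := hw u
    have k4 := hw u'
    rw [← hg] at k1 k2 k3 k4
    simp only [map_add, map_smul, LinearMap.add_apply, LinearMap.smul_apply, smul_eq_mul, hxx,
      hyy, a1, a2, a3, a4, hyx, ← hd, hsym u x, hsym u y, hsym u' x, hsym u' y, halt, hsym u' u,
      mul_zero, add_zero, zero_add] at k1 k2 k3 k4
    have g0 := (mul_eq_zero.1 k2).resolve_right hd0
    have g1 := (mul_eq_zero.1 k1).resolve_right hd0
    have g2 := (mul_eq_zero.1 k4).resolve_right hne'
    have g3 := (mul_eq_zero.1 k3).resolve_right hne'
    apply hw0
    rw [← hg, g0, g1, g2, g3]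
    simp
  -- the formula
  have hform : ∀ k l, B (v k) (v l) * d = B (v k) y * B x (v l) + B x (v k) * B (v l) y := by
    intro k l
    have hp : ∀ z, B x (d • z + B z y • x + B x z • y) = 0 ∧
        B y (d • z + B z y • x + B x z • y) = 0 := by
      intro z
      constructor
      · simp only [map_add, map_smul, smul_eq_mul, hxx, ← hd, mul_zero, add_zero]
        rw [mul_comm (B x z) d]
        exact h2 _
      · simp only [map_add, map_smul, smul_eq_mul, hyy, hyx, mul_zero, add_zero]
        rw [hsym y z, mul_comm (B z y) d]
        exact h2 _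
    have h3 := hU _ _ (hp (v k)).1 (hp (v k)).2 (hp (v l)).1 (hp (v l)).2
    have h4 : B (d • v k + B (v k) y • x + B x (v k) • y)
        (d • v l + B (v l) y • x + B x (v l) • y) =
        d * (B (v k) (v l) * d + (B (v k) y * B x (v l) + B x (v k) * B (v l) y)) := by
      have h5 : B (d • v k + B (v k) y • x + B x (v k) • y) x = 0 := by
        rw [hsym]; exact (hp (v k)).1
      have h6 : B (d • v k + B (v k) y • x + B x (v k) • y) y = 0 := by
        rw [hsym]; exact (hp (v k)).2
      rw [map_add, map_add, map_smul, map_smul, map_smul, h5, h6]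
      simp only [map_add, map_smul, LinearMap.add_apply, LinearMap.smul_apply, smul_eq_mul,
        mul_zero, add_zero]
      rw [hsym y (v l)]
      ring
    rw [h4] at h3
    have h7 := (mul_eq_zero.1 h3).resolve_left hd0
    have h8 := h2 (B (v k) y * B x (v l) + B x (v k) * B (v l) y)
    exact add_right_cancel (h7.trans h8.symm)
  -- the injection
  obtain ⟨φ, hφ⟩ : ∃ φ : ι → Option F, φ = fun k => if B (v k) y = 0 then none else
    some (B x (v k) / B (v k) y) := ⟨_, rfl⟩
  have hinj : Function.Injective φ := by
    intro k l hkl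
    by_contra hne'
    have h3 := hform k l
    have h4 : B (v k) (v l) * d ≠ 0 := mul_ne_zero (hne k l hne') hd0
    rw [hφ] at hkl
    simp only at hkl
    by_cases hk : B (v k) y = 0
    · by_cases hl : B (v l) y = 0
      · rw [hk, hl] at h3
        exact h4 (by rw [h3]; ring)
      · rw [if_pos hk, if_neg hl] at hkl
        cases hkl
    · by_cases hl : B (v l) y = 0
      · rw [if_neg hk, if_pos hl] at hkl
        cases hkl
      · rw [if_neg hk, if_neg hl] at hkl
        have h5 := Option.some_injective _ hkl
        rw [div_eq_div_iff hk hl] at h5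
        apply h4
        rw [h3, h5, mul_comm (B x (v l)) (B (v k) y)]
        exact h2 _
  have h9 := Fintype.card_le_of_injective φ hinj
  rw [Fintype.card_option, hcard] at h9
  nlinarith

end Pool.BPA
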