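import Pool.Agent.H61.BPA.FourF
import Pool.Agent.H51.QOV.TOP

/-!
Row FOUR of board `bpa`: ovoids over `GF(4)`.
-/

set_option autoImplicit false

namespace Pool.BPA

open Finset
open Pool.Agent.H51.QOV (om top_slope top_ell topQ)

/-- FOUR. -/
theorem t_four (hA : AffStmt) : FourStmt := by
  intro F _ _ S hF hS hcap
  have : CharP F 2 := charP_of_card_eq_prime_pow (f := 2) (by rw [hF]; norm_num)
  obtain ⟨A, f, hmem, hov⟩ := hA F S hF.ge (by rw [hS, hF]; norm_num) hcap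
  have hsl := top_slope S hcap A f hmem
  have hform := t_fourf F hF f hov (fun u w hw x y hx hy h => hsl u w hw x y hx hy (by
    simpa only [Prod.fst_add, Prod.snd_add, Prod.smul_fst, Prod.smul_snd, smul_eq_mul] using h))
  obtain ⟨a, -, ha0, ha1, -⟩ := four_elts hF
  obtain ⟨α, hα⟩ : ∃ α, α = f 1 0 + f 0 0 := ⟨_, rfl⟩
  obtain ⟨γ, hγ⟩ : ∃ γ, γ = f 0 1 + f 0 0 := ⟨_, rfl⟩
  rw [← hα, ← hγ] at hform
  have hα0 : α ≠ 0 := by
    have h1 := hov (1, 0) (0, 0) (fun h => one_ne_zero (congrArg Prod.fst h))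
    simp only [mul_zero, add_zero] at h1
    rwa [← hα] at h1
  have hform' : ∀ u : F × F, α * (f u.1 u.2 + f 0 0 + 0 * u.1 + 0 * u.2) =
      α * γ * (om u (1, 0)) ^ 2 + om u (1, 0) * om (0, α) u + (om (0, α) u) ^ 2 := by
    intro u
    have h1 := hform u.1 u.2
    simp only [om]
    linear_combination α * h1
  refine ⟨(topQ α 0 0 (f 0 0) (α * γ) (0, α) (1, 0)).comp
    (A.symm : (Fin 4 → F) →ₗ[F] (Fin 4 → F)), fun p => ?_⟩
  rw [hmem]
  have hp : A.symm p.rep ≠ 0 := by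
    intro h0
    exact p.rep_nonzero (A.symm.injective (by rw [h0, map_zero]))
  have h1 := top_ell ⟨a, ha0, ha1⟩ f hsl α 0 0 (α * γ) hα0 (0, α) (1, 0) hform' (A.symm p.rep) hp
  rw [QuadraticMap.comp_apply]
  change _ ↔ topQ α 0 0 (f 0 0) (α * γ) (0, α) (1, 0) (A.symm p.rep) = 0
  rw [h1]
  have key : ∀ (v : Fin 4 → F) (c : F), A v = c • p.rep ↔ v = c • A.symm p.rep := by
    intro v c
    rw [← map_smul, LinearEquiv.eq_symm_apply]
  simp only [key]

end Pool.BPA
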