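import Pool.Agent.H61.BPA.Stmt

/-!
Row FOURF of board `bpa`: the function of an ovoid over `GF(4)`.
-/

set_option autoImplicit false

namespace Pool.BPA

open Finset

section four

variable {F : Type} [Field F] [Fintype F] [CharP F 2]

omit [Fintype F] in
theorem four_two : (2 : F) = 0 := by
  have := CharP.cast_eq_zero F 2
  exact_mod_cast this

/-- The four elements. -/
theorem four_elts (hF : Fintype.card F = 4) : ∃ a : F, a ^ 2 + a + 1 = 0 ∧ a ≠ 0 ∧ a ≠ 1 ∧
    ∀ x : F, x = 0 ∨ x = 1 ∨ x = a ∨ x = a + 1 := by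
  classical
  have h2 : (2 : F) = 0 := four_two
  obtain ⟨a, ha0, ha1⟩ : ∃ a : F, a ≠ 0 ∧ a ≠ 1 := by
    by_contra hcon
    push Not at hcon
    have h1 : (univ : Finset F) ⊆ {0, 1} := by
      intro x _
      by_cases hx : x = 0
      · simp [hx]
      · simp [hcon x hx]
    have h3 := card_le_card h1
    rw [card_univ, hF] at h3
    have h4 : (({0, 1} : Finset F)).card ≤ 2 := card_le_two
    omega
  have h4 : a ^ 4 = a := by
    have := FiniteField.pow_card a
    rwa [hF] at this
  have h5 : a ^ 2 + a + 1 = 0 := by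
    have h6 : a * ((a - 1) * (a ^ 2 + a + 1)) = 0 := by linear_combination h4
    rcases mul_eq_zero.1 h6 with h | h
    · exact absurd h ha0
    · rcases mul_eq_zero.1 h with h | h
      · exact absurd (sub_eq_zero.1 h) ha1
      · exact h
  refine ⟨a, h5, ha0, ha1, fun x => ?_⟩
  have h6 : ({0, 1, a, a + 1} : Finset F) = univ := by
    refine eq_univ_of_card _ ?_
    rw [hF]
    have n1 : (0 : F) ∉ ({1, a, a + 1} : Finset F) := by
      simp only [mem_insert, mem_singleton, not_or]
      refine ⟨zero_ne_one, ha0.symm, fun h => ha1 ?_⟩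
      linear_combination -h - h2
    have n2 : (1 : F) ∉ ({a, a + 1} : Finset F) := by
      simp only [mem_insert, mem_singleton, not_or]
      refine ⟨ha1.symm, fun h => ha0 ?_⟩
      linear_combination -h
    have n3 : a ∉ ({a + 1} : Finset F) := by
      simp only [mem_singleton]
      intro h
      exact one_ne_zero (α := F) (by linear_combination -h)
    rw [card_insert_of_notMem n1, card_insert_of_notMem n2, card_insert_of_notMem n3,
      card_singleton]
  have h7 : x ∈ ({0, 1, a, a + 1} : Finset F) := by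
    rw [h6]
    exact mem_univ x
  simpa only [mem_insert, mem_singleton] using h7

/-- The sum of the values of a permutation. -/
theorem four_sum {a : F} (ha0 : a ≠ 0) (ha1 : a ≠ 1)
    (hel : ∀ x : F, x = 0 ∨ x = 1 ∨ x = a ∨ x = a + 1) {Φ : F → F} (hinj : Function.Injective Φ)
    (h0 : Φ 0 = 0) : Φ 1 + Φ a + Φ (a + 1) = 0 := by
  classical
  have h2 : (2 : F) = 0 := four_two
  have h6 : (univ : Finset F) = {0, 1, a, a + 1} := by
    ext x
    simp only [mem_univ, mem_insert, mem_singleton, true_iff]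
    exact hel x
  have n1 : (0 : F) ∉ ({1, a, a + 1} : Finset F) := by
    simp only [mem_insert, mem_singleton, not_or]
    refine ⟨zero_ne_one, ha0.symm, fun h => ha1 ?_⟩
    linear_combination -h - h2
  have n2 : (1 : F) ∉ ({a, a + 1} : Finset F) := by
    simp only [mem_insert, mem_singleton, not_or]
    refine ⟨ha1.symm, fun h => ha0 ?_⟩
    linear_combination -h
  have n3 : a ∉ ({a + 1} : Finset F) := by
    simp only [mem_singleton]
    intro h
    exact one_ne_zero (α := F) (by linear_combination -h)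
  have key : ∀ g : F → F, ∑ x, g x = g 0 + (g 1 + (g a + g (a + 1))) := by
    intro g
    rw [h6, sum_insert n1, sum_insert n2, sum_insert n3, sum_singleton]
  have hb : Function.Bijective Φ := Finite.injective_iff_bijective.1 hinj
  have e1 : ∑ x, Φ x = ∑ x, x := hb.sum_comp (fun x => x)
  rw [key, key (fun x => x), h0] at e1
  linear_combination e1 + (a + 1) * h2

/-- **The function of one line.** -/
theorem four_line (hF : Fintype.card F = 4) {Φ : F → F} (hinj : Function.Injective Φ)
    (h0 : Φ 0 = 0)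
    (hsl : ∀ x y : F, x ≠ 0 → y ≠ 0 → x⁻¹ * Φ x = y⁻¹ * Φ y → x = y) (x : F) :
    Φ x = x ^ 2 * Φ 1 := by
  have h2 : (2 : F) = 0 := four_two
  obtain ⟨a, h5, ha0, ha1, hel⟩ := four_elts hF
  have e1 := four_sum ha0 ha1 hel hinj h0
  have hnz : ∀ x, x ≠ 0 → Φ x ≠ 0 := fun x hx h => hx (hinj (h.trans h0.symm))
  have hψ : Function.Injective (fun x : F => x⁻¹ * Φ x) := by
    intro x y hxy
    simp only at hxy
    by_cases hx : x = 0
    · by_cases hy : y = 0
      · rw [hx, hy]
      · rw [hx, inv_zero, zero_mul] at hxy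
        exact absurd hxy.symm (mul_ne_zero (inv_ne_zero hy) (hnz y hy))
    · by_cases hy : y = 0
      · rw [hy, inv_zero, zero_mul] at hxy
        exact absurd hxy (mul_ne_zero (inv_ne_zero hx) (hnz x hx))
      · exact hsl x y hx hy hxy
  have e2 := four_sum ha0 ha1 hel hψ (by simp)
  have i1 : a⁻¹ = a + 1 := by
    refine inv_eq_of_mul_eq_one_right ?_
    linear_combination h5 - h2
  have i2 : (a + 1)⁻¹ = a := by
    refine inv_eq_of_mul_eq_one_right ?_
    linear_combination h5 - h2
  simp only [i1, i2, inv_one, one_mul] at e2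
  -- the values
  have v1 : Φ a = a ^ 2 * Φ 1 := by
    linear_combination e2 - a * e1 - Φ 1 * h5 + Φ 1 * a * h2
  have v2 : Φ (a + 1) = (a + 1) ^ 2 * Φ 1 := by
    linear_combination e1 - v1 - Φ 1 * (a ^ 2 + a + 1) * h2
  rcases hel x with h | h | h | h
  · rw [h, h0]
    ring
  · rw [h]
    ring
  · rw [h]
    exact v1
  · rw [h]
    exact v2

end four

/-- FOURF. -/
theorem t_fourf : FourFStmt := by
  intro F _ _ _ hF f hf hsl
  have h2 : (2 : F) = 0 := four_two
  obtain ⟨a, h5, ha0, ha1, -⟩ := four_elts hF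
  have key : ∀ u w : F × F, w ≠ 0 → ∀ x : F, f (u.1 + x * w.1) (u.2 + x * w.2) = f u.1 u.2 +
      x * (w.1 * u.2 + w.2 * u.1) + x ^ 2 * (f (u.1 + w.1) (u.2 + w.2) + f u.1 u.2 +
        (w.1 * u.2 + w.2 * u.1)) := by
    intro u w hw x
    obtain ⟨Φ, hΦ⟩ : ∃ Φ : F → F, Φ = fun x => f (u.1 + x * w.1) (u.2 + x * w.2) + f u.1 u.2 +
      x * (w.1 * u.2 + w.2 * u.1) := ⟨_, rfl⟩
    have hΦx : ∀ x, Φ x = f (u.1 + x * w.1) (u.2 + x * w.2) + f u.1 u.2 +
      x * (w.1 * u.2 + w.2 * u.1) := fun x => by rw [hΦ]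
    have h0 : Φ 0 = 0 := by
      rw [hΦx, zero_mul, zero_mul, zero_mul, add_zero, add_zero, add_zero]
      linear_combination f u.1 u.2 * h2
    have hinj : Function.Injective Φ := by
      intro x y hxy
      by_contra hne
      have hne' : (u.1 + x * w.1, u.2 + x * w.2) ≠ (u.1 + y * w.1, u.2 + y * w.2) := by
        intro h
        obtain ⟨h1, h3⟩ := Prod.mk.inj h
        have h4 : (x - y) * w.1 = 0 := by linear_combination h1
        have h6 : (x - y) * w.2 = 0 := by linear_combination h3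
        have hxy' : x - y ≠ 0 := sub_ne_zero.2 hne
        refine hw (Prod.ext ?_ ?_)
        · exact (mul_eq_zero.1 h4).resolve_left hxy'
        · exact (mul_eq_zero.1 h6).resolve_left hxy'
      refine hf _ _ hne' ?_
      rw [hΦx, hΦx] at hxy
      simp only
      linear_combination hxy + (f (u.1 + y * w.1) (u.2 + y * w.2) - x * (w.1 * u.2 + w.2 * u.1) -
        u.1 * u.2 - x * y * w.1 * w.2) * h2
    have hs : ∀ x y : F, x ≠ 0 → y ≠ 0 → x⁻¹ * Φ x = y⁻¹ * Φ y → x = y := by
      intro x y hx hy hxy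
      refine hsl u w hw x y hx hy ?_
      rw [hΦx, hΦx, mul_add, mul_add y⁻¹, ← mul_assoc x⁻¹ x, ← mul_assoc y⁻¹ y,
        inv_mul_cancel₀ hx, inv_mul_cancel₀ hy] at hxy
      exact add_right_cancel hxy
    have k := four_line hF hinj h0 hs x
    rw [hΦx, hΦx, one_mul, one_mul, one_mul] at k
    linear_combination k - (f u.1 u.2 + x * (w.1 * u.2 + w.2 * u.1)) * h2
  intro s t
  have k1 := key (0, t) (1, 0) (fun h => one_ne_zero (congrArg Prod.fst h)) s
  have k2 := key (0, 0) (0, 1) (fun h => one_ne_zero (congrArg Prod.snd h)) t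
  have k3 := key (1, 0) (0, 1) (fun h => one_ne_zero (congrArg Prod.snd h)) t
  have k4 := key (0, 0) (1, 1) (fun h => one_ne_zero (congrArg Prod.fst h)) a
  have k5 := key (0, a) (1, 0) (fun h => one_ne_zero (congrArg Prod.fst h)) a
  have k6 := key (0, 0) (0, 1) (fun h => one_ne_zero (congrArg Prod.snd h)) a
  have k7 := key (1, 0) (0, 1) (fun h => one_ne_zero (congrArg Prod.snd h)) a
  simp only [zero_add, add_zero, mul_one, mul_zero, one_mul] at k1 k2 k3 k4 k5 k6 k7
  -- the coefficient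
  have hκ : f 1 1 + f 1 0 + 1 + f 0 1 + f 0 0 = 0 := by
    have h6 : a ^ 2 * (1 + a) ^ 2 * (f 1 1 + f 1 0 + 1 + f 0 1 + f 0 0) = 0 := by
      linear_combination k4 - k5 - (1 + a ^ 2) * k6 - a ^ 2 * k7 + (a ^ 2 * f 1 1 +
        a ^ 3 * (f 1 1 + f 1 0 + 1 + f 0 1 + f 0 0) - a ^ 3) * h2
    have h7 : a ^ 2 * (1 + a) ^ 2 ≠ 0 := by
      refine mul_ne_zero (pow_ne_zero 2 ha0) (pow_ne_zero 2 fun h => ha1 ?_)
      linear_combination h - h2
    exact (mul_eq_zero.1 h6).resolve_left h7
  linear_combination k1 + (1 + s ^ 2) * k2 + s ^ 2 * k3 + s ^ 2 * t ^ 2 * hκ +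
    (f 0 0 + s ^ 2 * t) * h2

end Pool.BPA
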