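import Pool.Agent.H61.BPA.Stmt

set_option autoImplicit false
set_option linter.unusedSectionVars false

namespace Pool.BPA

open Finset

theorem t_glue : GlueStmt := by
  intro F _ ι W _ _ v T hC hT hspan hL
  classical
  by_cases hι : Nonempty ι
  swap
  · -- no points: the space is zero
    have : ∀ w : W, w = 0 := by
      intro w
      have hw : w ∈ Submodule.span F (Set.range v) := by rw [hspan]; trivial
      have : IsEmpty ι := not_nonempty_iff.1 hι
      rw [Set.range_eq_empty, Submodule.span_empty] at hw
      simpa using hw
    refine ⟨0, fun x y => rfl, fun i => absurd ⟨i⟩ hι⟩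
  obtain ⟨e⟩ := hι
  -- normalised tangent forms
  let c : ι → F := fun i => if i = e then 1 else T e (v i) / T i (v e)
  have hce : c e = 1 := by simp [c]
  have hc : ∀ i, i ≠ e → c i = T e (v i) / T i (v e) := by
    intro i hi; simp [c, hi]
  have hc0 : ∀ i, c i ≠ 0 := by
    intro i
    by_cases hi : i = e
    · rw [hi, hce]; exact one_ne_zero
    · rw [hc i hi]
      exact div_ne_zero (hT.off e i (fun h => hi h.symm)) (hT.off i e hi)
  let T' : ι → W →ₗ[F] F := fun i => c i • T i
  have hT' : ∀ i w, T' i w = c i * T i w := fun i w => rfl
  have hsym : ∀ i j, T' i (v j) = T' j (v i) := by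
    intro i j
    by_cases hij : i = j
    · rw [hij]
    rw [hT', hT']
    by_cases hi : i = e
    · have hj : j ≠ e := fun h => hij (hi.trans h.symm)
      rw [hi, hce, hc j hj, one_mul]
      have := hT.off j e hj
      field_simp
    by_cases hj : j = e
    · rw [hj, hce, hc i hi, one_mul]
      have := hT.off i e hi
      field_simp
    rw [hc i hi, hc j hj]
    have h1 := hL i j e hij hi hj
    have h2 := hT.off i e hi
    have h3 := hT.off j e hj
    field_simp
    -- T e (v i) * T i (v j) * T j (v e) = T e (v j) * T j (v i) * T i (v e)
    linear_combination h1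
  -- basis
  obtain ⟨κ, a, ha, hspan', hli⟩ := exists_linearIndependent' F v
  have hsp : ⊤ ≤ Submodule.span F (Set.range (v ∘ a)) := by rw [hspan', hspan]
  let b : Module.Basis κ F W := Module.Basis.mk hli hsp
  have hb : ∀ k, b k = v (a k) := by
    intro k
    simp [b, Module.Basis.mk_apply]
  let B : W →ₗ[F] W →ₗ[F] F := b.constr F (fun k => T' (a k))
  have hBb : ∀ k, B (b k) = T' (a k) := by
    intro k
    exact b.constr_basis F _ k
  have h1 : ∀ j, ∀ w, B w (v j) = T' j w := by
    intro j w
    have : B.flip (v j) = T' j := by
      apply b.ext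
      intro k
      rw [LinearMap.flip_apply, hBb, hb]
      exact hsym _ _
    rw [← LinearMap.flip_apply, this]
  have h2 : ∀ i, B (v i) = T' i := by
    intro i
    have : ∀ w ∈ Submodule.span F (Set.range v), B (v i) w = T' i w := by
      intro w hw
      induction hw using Submodule.span_induction with
      | mem x hx =>
        obtain ⟨j, rfl⟩ := hx
        rw [h1, hsym]
      | zero => simp
      | add x y _ _ hx hy => rw [map_add, map_add, hx, hy]
      | smul r x _ hx => rw [map_smul, map_smul, hx]
    ext w
    exact this w (by rw [hspan]; trivial)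
  refine ⟨B, ?_, fun i => ⟨c i, hc0 i, h2 i⟩⟩
  intro x y
  have : ∀ x ∈ Submodule.span F (Set.range v), B x y = B y x := by
    intro x hx
    induction hx using Submodule.span_induction with
    | mem x hx =>
      obtain ⟨j, rfl⟩ := hx
      rw [h1, h2]
    | zero => simp
    | add x x' _ _ hx hx' => rw [map_add, map_add, LinearMap.add_apply, hx, hx']
    | smul r x _ hx => rw [map_smul, map_smul, LinearMap.smul_apply, hx]
  exact this x (by rw [hspan]; trivial)

end Pool.BPA
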