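import Pool.Agent.H61.BPA.Stmt

set_option autoImplicit false
set_option linter.unusedSectionVars false

namespace Pool.BPA

open Finset

theorem t_lemt (hProd : ProdStmt) : LemTStmt := by
  intro F _ _ ι _ W _ _ v T hC hT i j k hij hik hjk
  classical
  -- the other points of the plane section
  let P : Finset ι := univ.filter fun l =>
    l ≠ i ∧ l ≠ j ∧ l ≠ k ∧ ∃ a b c : F, v l = a • v i + b • v j + c • v k
  have hP : ∀ l, l ∈ P ↔ (l ≠ i ∧ l ≠ j ∧ l ≠ k ∧
      ∃ a b c : F, v l = a • v i + b • v j + c • v k) := by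
    intro l; simp [P]
  have hex : ∀ l, ∃ a b c : F, l ∈ P → v l = a • v i + b • v j + c • v k := by
    intro l
    by_cases hl : l ∈ P
    · obtain ⟨-, -, -, a, b, c, h⟩ := (hP l).1 hl
      exact ⟨a, b, c, fun _ => h⟩
    · exact ⟨0, 0, 0, fun h => absurd h hl⟩
  choose α β γ hco using hex
  have hne : ∀ l ∈ P, α l ≠ 0 ∧ β l ≠ 0 ∧ γ l ≠ 0 := by
    intro l hl
    obtain ⟨hli, hlj, hlk, -⟩ := (hP l).1 hl
    have h1 := hco l hl
    refine ⟨?_, ?_, ?_⟩
    · intro h0
      rw [h0, zero_smul, zero_add] at h1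
      have h2 := hC.three j k l hjk hlj.symm hlk.symm (β l) (γ l) (-1) (by
        rw [h1, neg_smul, one_smul]; abel)
      exact one_ne_zero (neg_eq_zero.1 h2.2.2)
    · intro h0
      rw [h0, zero_smul, add_zero] at h1
      have h2 := hC.three i k l hik hli.symm hlk.symm (α l) (γ l) (-1) (by
        rw [h1, neg_smul, one_smul]; abel)
      exact one_ne_zero (neg_eq_zero.1 h2.2.2)
    · intro h0
      rw [h0, zero_smul, add_zero] at h1
      have h2 := hC.three i j l hij hli.symm hlj.symm (α l) (β l) (-1) (by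
        rw [h1, neg_smul, one_smul]; abel)
      exact one_ne_zero (neg_eq_zero.1 h2.2.2)
  have e1 := hProd F ι W v T hC hT i j k hij hik hjk P α β γ hP (fun l hl => hco l hl)
  have e2 := hProd F ι W v T hC hT j k i hjk hij.symm hik.symm P β γ α (by
    intro l
    rw [hP l]
    constructor
    · rintro ⟨h1, h2, h3, a, b, c, h4⟩
      exact ⟨h2, h3, h1, b, c, a, by rw [h4]; abel⟩
    · rintro ⟨h1, h2, h3, a, b, c, h4⟩
      exact ⟨h3, h1, h2, c, a, b, by rw [h4]; abel⟩) (by
    intro l hl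
    rw [hco l hl]; abel)
  have e3 := hProd F ι W v T hC hT k i j hik.symm hjk.symm hij P γ α β (by
    intro l
    rw [hP l]
    constructor
    · rintro ⟨h1, h2, h3, a, b, c, h4⟩
      exact ⟨h3, h1, h2, c, a, b, by rw [h4]; abel⟩
    · rintro ⟨h1, h2, h3, a, b, c, h4⟩
      exact ⟨h2, h3, h1, b, c, a, by rw [h4]; abel⟩) (by
    intro l hl
    rw [hco l hl]; abel)
  have e4 : (∏ l ∈ P, γ l / β l) * (∏ l ∈ P, α l / γ l) * (∏ l ∈ P, β l / α l) = 1 := by
    rw [← Finset.prod_mul_distrib, ← Finset.prod_mul_distrib]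
    apply Finset.prod_eq_one
    intro l hl
    obtain ⟨h1, h2, h3⟩ := hne l hl
    field_simp
  -- e1 : p * Ti vj = Ti vk, e2 : q * Tj vk = Tj vi, e3 : r * Tk vi = Tk vj
  rw [← e1, ← e2, ← e3]
  linear_combination (-(T i (v j) * T j (v k) * T k (v i))) * e4

end Pool.BPA
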