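import Pool.Agent.H61.BPA.Cnt

/-! NOTG: a cap of `F⁴`, `q` even, `q ≥ 4`, has a tangent line. -/

set_option autoImplicit false
set_option linter.unusedSectionVars false

namespace Pool.BPA

open Finset

section
variable {F : Type} [Field F] [Fintype F] {ι : Type} [Fintype ι]

open Classical in
/-- number of lines through a point of the cap in a set of vectors `G`, exact if all are secants. -/
theorem cnt_eq {v : ι → Fin 4 → F} (hv : Cap F v) (i : ι) (G : Finset (Fin 4 → F))
    (_hG : ∀ w ∈ G, ∀ a : F, w ≠ a • v i)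
    (J : Finset ι) (hJ : ∀ j ∈ J, j ≠ i) (hJG : ∀ j ∈ J, ∀ l : F, l ≠ 0 → ∀ a : F,
      l • v j + a • v i ∈ G)
    (hs : ∀ w ∈ G, ∃ j ∈ J, ∃ a b : F, v j = a • v i + b • w) :
    J.card * ((Fintype.card F - 1) * Fintype.card F) = G.card := by
  apply le_antisymm (cnt_le hv i J hJ G hJG)
  apply cnt_ge (v := v) i J G
  intro w hw
  obtain ⟨j, hj, a, b, h⟩ := hs w hw
  have hb : b ≠ 0 := by
    rintro rfl
    rw [zero_smul, add_zero] at h
    have h2 : (1 : F) • v j + (-a) • v i = 0 := by rw [h, one_smul, neg_smul]; simp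
    exact one_ne_zero (hv.two j i (hJ j hj) _ _ h2).1
  refine ⟨j, hj, b⁻¹, inv_ne_zero hb, -(b⁻¹ * a), ?_⟩
  rw [h, smul_add, smul_smul, smul_smul, inv_mul_cancel₀ hb, one_smul, neg_smul]
  abel

theorem not_mul_of_two {v : ι → Fin 4 → F} (hv : Cap F v) {i j : ι} (hij : j ≠ i) {l : F}
    (hl : l ≠ 0) (a a' : F) : l • v j + a • v i ≠ a' • v i := by
  intro h
  have h2 : l • v j + (a - a') • v i = 0 := by
    rw [sub_smul]
    have : l • v j + a • v i - a' • v i = 0 := sub_eq_zero.2 h
    rw [← this]; abel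
  exact hl (hv.two j i hij _ _ h2).1

end

open Classical in
theorem t_notg (hcn1 : CN1Stmt) (hpen1 : Pen1Stmt) : NotgStmt := by
  intro F _ _ _ ι _ v hq hv hne
  obtain ⟨i0⟩ := hne
  by_contra hno
  push Not at hno
  obtain ⟨p, hp⟩ : ∃ p, Fintype.card F = p + 1 := ⟨Fintype.card F - 1, by omega⟩
  have hp3 : 3 ≤ p := by omega
  -- number of points
  have hn : Fintype.card ι = (p + 1) ^ 2 + (p + 1) + 2 := by
    have h1 := cnt_eq hv i0 (univ \ mul1 (v i0)) (by
        intro w hw a ha
        simp only [mul1, mem_sdiff, mem_univ, mem_filter, true_and] at hw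
        exact hw ⟨a, ha⟩) (univ.erase i0) (fun j hj => (mem_erase.1 hj).1) (by
        intro j hj l hl a
        simp only [mul1, mem_sdiff, mem_univ, mem_filter, true_and]
        rintro ⟨a', ha'⟩
        exact not_mul_of_two hv (mem_erase.1 hj).1 hl a a' ha') (by
        intro w hw
        simp only [mul1, mem_sdiff, mem_univ, mem_filter, true_and, not_exists] at hw
        obtain ⟨j, hj, a, b, h⟩ := hno i0 w hw
        exact ⟨j, mem_erase.2 ⟨hj, mem_univ _⟩, a, b, h⟩)
    rw [card_sdiff_of_subset (subset_univ _), card_univ, card4, card_mul1 (hv.one i0),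
      card_erase_of_mem (mem_univ _), card_univ, hp] at h1
    have h2 : (p + 1) ^ 4 = ((p + 1) ^ 2 + (p + 1) + 1) * (p * (p + 1)) + (p + 1) := by ring
    rw [h2] at h1
    simp only [add_tsub_cancel_right] at h1
    have h3 := Nat.eq_of_mul_eq_mul_right (Nat.mul_pos (by omega) (by omega)) h1
    have h4 : 0 < Fintype.card ι := Fintype.card_pos_iff.2 ⟨i0⟩
    omega
  -- plane sections
  have hA : ∀ c : Fin 4 → F, c ≠ 0 → (A v c).Nonempty → (A v c).card = p + 3 := by
    intro c hc ⟨i, hi⟩
    have hi' : c ⬝ᵥ v i = 0 := by simpa [A] using hi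
    have h1 := cnt_eq hv i (perp c \ mul1 (v i)) (by
        intro w hw a ha
        simp only [mul1, perp, mem_sdiff, mem_univ, mem_filter, true_and] at hw
        exact hw.2 ⟨a, ha⟩) ((A v c).erase i) (fun j hj => (mem_erase.1 hj).1) (by
        intro j hj l hl a
        have hj' : c ⬝ᵥ v j = 0 := by
          have := (mem_erase.1 hj).2
          simpa [A] using this
        simp only [mul1, perp, mem_sdiff, mem_univ, mem_filter, true_and]
        refine ⟨?_, ?_⟩
        · rw [dotProduct_add, dotProduct_smul, dotProduct_smul, hj', hi']; simp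
        · rintro ⟨a', ha'⟩
          exact not_mul_of_two hv (mem_erase.1 hj).1 hl a a' ha') (by
        intro w hw
        simp only [mul1, perp, mem_sdiff, mem_univ, mem_filter, true_and, not_exists] at hw
        obtain ⟨j, hj, a, b, h⟩ := hno i w hw.2
        refine ⟨j, mem_erase.2 ⟨hj, ?_⟩, a, b, h⟩
        simp only [A, mem_filter, mem_univ, true_and]
        rw [h, dotProduct_add, dotProduct_smul, dotProduct_smul, hi', hw.1]; simp)
    have hsub : mul1 (v i) ⊆ perp c := by
      intro w hw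
      simp only [mul1, mem_filter, mem_univ, true_and] at hw
      obtain ⟨a, rfl⟩ := hw
      simp [perp, hi']
    rw [card_sdiff_of_subset hsub, card_perp hcn1 hc, card_mul1 (hv.one i),
      card_erase_of_mem hi, hp] at h1
    have h2 : (p + 1) ^ 3 = (p + 2) * (p * (p + 1)) + (p + 1) := by ring
    rw [h2] at h1
    simp only [add_tsub_cancel_right] at h1
    have h3 := Nat.eq_of_mul_eq_mul_right (Nat.mul_pos (by omega) (by omega)) h1
    have h4 : 0 < (A v c).card := card_pos.2 ⟨i, hi⟩
    omega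
  -- a second point
  obtain ⟨j0, hj0⟩ : ∃ j, j ≠ i0 := by
    have : 1 < Fintype.card ι := by rw [hn]; nlinarith
    exact Fintype.exists_ne_of_one_lt_card this i0
  set r : Fin 4 → F := v i0 + v j0 with hr
  have hrk : ∀ k : ι, ∀ a b : F, a • r + b • v k = 0 → a = 0 ∧ b = 0 := by
    intro k a b h
    rw [hr] at h
    by_cases h1 : k = i0
    · subst h1
      have h2 : a • v j0 + (a + b) • v k = 0 := by rw [← h]; module
      obtain ⟨h3, h4⟩ := hv.two j0 k hj0 _ _ h2
      subst h3
      exact ⟨rfl, by simpa using h4⟩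
    by_cases h2 : k = j0
    · subst h2
      have h3 : a • v i0 + (a + b) • v k = 0 := by rw [← h]; module
      obtain ⟨h3, h4⟩ := hv.two i0 k (Ne.symm hj0) _ _ h3
      subst h3
      exact ⟨rfl, by simpa using h4⟩
    have h3 : a • v i0 + a • v j0 + b • v k = 0 := by rw [← h]; module
    obtain ⟨h4, -, h6⟩ := hv.three i0 j0 k (Ne.symm hj0) (Ne.symm h1) (Ne.symm h2) _ _ _ h3
    exact ⟨h4, h6⟩
  have hsum := hpen1 F ι v r univ (fun k _ => hrk k)
  simp only [inter_univ, card_univ] at hsum
  set X := (P1 r).filter fun c => (A v c).Nonempty with hX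
  have h1 : ∑ c ∈ P1 r, (A v c).card = X.card * (p + 3) := by
    rw [hX, card_filter, sum_mul]
    apply sum_congr rfl
    intro c hc
    have hc0 : c ≠ 0 := (mem_filter.1 hc).2.1
    by_cases hne : (A v c).Nonempty
    · rw [hA c hc0 hne, if_pos hne, one_mul]
    · rw [if_neg hne, zero_mul, card_eq_zero, ← not_nonempty_iff_eq_empty]
      exact hne
  have h2 : p ∣ X.card := by
    have := dvd_card_of_stable X (by simp [hX, P1]) (by
      intro c hc a ha
      simp only [hX, P1, mem_filter, mem_univ, true_and] at hc ⊢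
      refine ⟨⟨smul_ne_zero ha hc.1.1, by rw [smul_dotProduct, hc.1.2, smul_zero]⟩, ?_⟩
      obtain ⟨i, hi⟩ := hc.2
      refine ⟨i, ?_⟩
      simp only [A, mem_filter, mem_univ, true_and] at hi ⊢
      rw [smul_dotProduct, hi, smul_zero])
    rwa [hp, add_tsub_cancel_right] at this
  obtain ⟨m, hm⟩ := h2
  rw [h1, hm, hn, hp] at hsum
  have h3 : (p + 1) ^ 2 - 1 = p * (p + 2) := by
    have : (p + 1) ^ 2 = p * (p + 2) + 1 := by ring
    omega
  rw [h3] at hsum
  have h4 : m * (p + 3) = ((p + 1) ^ 2 + (p + 1) + 2) * (p + 2) := by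
    apply Nat.eq_of_mul_eq_mul_left (show 0 < p by omega)
    linarith [hsum, mul_comm p (m * (p + 3))]
  have h5 : (p + 3) ∣ 4 := by
    have h6 : ((p + 1) ^ 2 + (p + 1) + 2) * (p + 2) + 4 = (p + 3) * ((p + 1) ^ 2 + 3) := by ring
    have h7 : (p + 3) ∣ ((p + 1) ^ 2 + (p + 1) + 2) * (p + 2) + 4 := ⟨_, h6⟩
    have h8 : (p + 3) ∣ ((p + 1) ^ 2 + (p + 1) + 2) * (p + 2) := ⟨m, by rw [← h4]; ring⟩
    exact (Nat.dvd_add_right h8).1 h7
  have := Nat.le_of_dvd (by norm_num) h5
  omega

end Pool.BPA
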