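import Pool.Agent.H61.BPA.Stmt

/-!
Row ODD of board `bpa`: the zeros of `B w w` are the points of the cap.
-/

set_option autoImplicit false

namespace Pool.BPA

theorem t_odd : OddStmt := by
  intro F _ _ ι _ v h2 hc hij hspan B hsym hself hne hhit w hw hBw
  classical
  have hb0 : ∀ (i j : ι) (a b : F) (z : Fin 4 → F), j ≠ i → v j = a • v i + b • z → b ≠ 0 := by
    rintro i j a b z hji hv rfl
    rw [zero_smul, add_zero] at hv
    have := hc.two j i hji 1 (-a) (by rw [hv]; module)
    exact one_ne_zero this.1
  by_cases h : ∃ i, B (v i) w ≠ 0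
  · obtain ⟨i, hi⟩ := h
    obtain ⟨j, hji, a, b, hv⟩ := hhit i w hi
    have hb := hb0 i j a b w hji hv
    have h1 : B (v j) (v j) = 2 * (a * b * B (v i) w) := by
      rw [hv]
      simp only [map_add, map_smul, LinearMap.add_apply, LinearMap.smul_apply, smul_eq_mul, hself,
        hBw, hsym w (v i)]
      ring
    rw [hself] at h1
    have ha : a = 0 := by
      by_contra ha
      exact mul_ne_zero h2 (mul_ne_zero (mul_ne_zero ha hb) hi) h1.symm
    refine ⟨j, b⁻¹, ?_⟩
    rw [hv, ha, zero_smul, zero_add, smul_smul, inv_mul_cancel₀ hb, one_smul]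
  · push Not at h
    exfalso
    obtain ⟨i, j, hij⟩ := hij
    have hd := hne i j hij
    have key : ∀ c : F, ∃ l, ∃ b : F, b ≠ 0 ∧ v l = b • (v j + c • w) := by
      intro c
      have h1 : B (v i) (v j + c • w) ≠ 0 := by
        rw [map_add, map_smul, h i, smul_zero, add_zero]
        exact hd
      obtain ⟨l, hl, a, b, hv⟩ := hhit i _ h1
      have hb := hb0 i l a b _ hl hv
      have h3 : B (v l) (v l) = 2 * (a * b * B (v i) (v j)) := by
        rw [hv]
        simp only [map_add, map_smul, LinearMap.add_apply, LinearMap.smul_apply, smul_eq_mul,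
          hself, hBw, hsym w (v i), hsym w (v j), h, hsym (v j) (v i)]
        ring
      rw [hself] at h3
      have ha : a = 0 := by
        by_contra ha
        exact mul_ne_zero h2 (mul_ne_zero (mul_ne_zero ha hb) hd) h3.symm
      exact ⟨l, b, hb, by rw [hv, ha, zero_smul, zero_add]⟩
    obtain ⟨l1, b1, hb1, e1⟩ := key 1
    obtain ⟨l2, b2, hb2, e2⟩ := key (-1)
    -- the coordinates along `v j`
    have t1 : B (v i) (v l1) = b1 * B (v i) (v j) := by
      rw [e1, map_smul, map_add, map_smul, h i, smul_zero, add_zero, smul_eq_mul]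
    have t2 : B (v i) (v l2) = b2 * B (v i) (v j) := by
      rw [e2, map_smul, map_add, map_smul, h i, smul_zero, add_zero, smul_eq_mul]
    have n1 : l1 ≠ j := by
      rintro rfl
      have h4 : b1 = 1 := by
        have := mul_right_cancel₀ hd (t1.symm.trans (one_mul _).symm)
        exact this
      rw [h4, one_smul, one_smul] at e1
      exact hw (by simpa using e1)
    have n2 : l2 ≠ j := by
      rintro rfl
      have h4 : b2 = 1 := by
        have := mul_right_cancel₀ hd (t2.symm.trans (one_mul _).symm)
        exact this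
      rw [h4, one_smul] at e2
      have h5 : (-1 : F) • w = 0 := by simpa using e2
      rw [neg_one_smul, neg_eq_zero] at h5
      exact hw h5
    have n3 : l1 ≠ l2 := by
      rintro rfl
      have h4 : b1 = b2 := mul_right_cancel₀ hd (t1.symm.trans t2)
      subst h4
      have h5 : b1 • (v j + (1 : F) • w) = b1 • (v j + (-1 : F) • w) := e1.symm.trans e2
      have h6 := smul_right_injective _ hb1 h5
      have h7 : (2 : F) • w = 0 := by
        have h8 : (1 : F) • w = (-1 : F) • w := add_left_cancel h6
        have h9 : (2 : F) • w = (1 : F) • w - (-1 : F) • w := by module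
        rw [h9, h8, sub_self]
      rcases smul_eq_zero.1 h7 with h8 | h8
      · exact h2 h8
      · exact hw h8
    have h10 := hc.three l1 l2 j n3 n1 n2 b1⁻¹ b2⁻¹ (-2) (by
      rw [e1, e2, smul_smul, smul_smul, inv_mul_cancel₀ hb1, inv_mul_cancel₀ hb2]
      module)
    exact inv_ne_zero hb1 h10.1

end Pool.BPA
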