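import Mathlib
import Pool.Agent.H61.BPA.Stmt

/-!
# OVT: tangents of an oval.
-/

set_option autoImplicit false

namespace Pool.BPA

open Finset

/-- A vector outside the lines through `v i` and another point. -/
theorem ovt_out {F : Type} [Field F] [Fintype F] {ι : Type} [Fintype ι] {W : Type}
    [AddCommGroup W] [Module F W] [Fintype W] (v : ι → W)
    (h1 : Fintype.card ι = Fintype.card F + 1) (h2 : Fintype.card W = Fintype.card F ^ 3) (i : ι) :
    ∃ w : W, ∀ (j : ι) (a b : F), w ≠ a • v i + b • v j := by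
  classical
  by_contra hcon
  push Not at hcon
  have hq : 2 ≤ Fintype.card F := Fintype.one_lt_card
  let φ : F ⊕ ({j : ι // j ≠ i} × {b : F // b ≠ 0} × F) → W := fun p => match p with
    | Sum.inl a => a • v i
    | Sum.inr (j, b, a) => a • v i + b.1 • v j.1
  have hφ : Function.Surjective φ := by
    intro w
    obtain ⟨j, a, b, h⟩ := hcon w
    by_cases hj : j = i
    · subst hj
      refine ⟨Sum.inl (a + b), ?_⟩
      show (a + b) • v j = w
      rw [h, add_smul]
    · by_cases hb : b = 0
      · refine ⟨Sum.inl a, ?_⟩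
        show a • v i = w
        rw [h, hb, zero_smul, add_zero]
      · exact ⟨Sum.inr (⟨j, hj⟩, ⟨b, hb⟩, a), h.symm⟩
  have h3 := Fintype.card_le_of_surjective φ hφ
  rw [Fintype.card_sum, Fintype.card_prod, Fintype.card_prod, Fintype.card_subtype_compl,
    Fintype.card_subtype_compl, Fintype.card_subtype_eq, Fintype.card_subtype_eq, h1, h2,
    Nat.add_sub_cancel] at h3
  obtain ⟨m, hm⟩ : ∃ m, Fintype.card F = m + 2 := ⟨Fintype.card F - 2, by omega⟩
  rw [hm] at h3
  have h4 : m + 2 - 1 = m + 1 := by omega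
  rw [h4] at h3
  nlinarith [Nat.zero_le m]

theorem t_ovt : OvtStmt := by
  classical
  intro F _ _ ι _ W _ _ _ v hv h1 h2 i
  have hq : 2 ≤ Fintype.card F := Fintype.one_lt_card
  obtain ⟨w, hw⟩ := ovt_out v h1 h2 i
  have hne : Submodule.span F {v i, w} ≠ ⊤ := by
    intro htop
    have hs : Function.Surjective (fun p : F × F => p.1 • v i + p.2 • w) := by
      intro u
      have hu : u ∈ Submodule.span F {v i, w} := by rw [htop]; trivial
      obtain ⟨a, b, h⟩ := Submodule.mem_span_pair.1 hu
      exact ⟨(a, b), h⟩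
    have h3 := Fintype.card_le_of_surjective _ hs
    rw [Fintype.card_prod, h2] at h3
    nlinarith [Nat.mul_le_mul hq (Nat.mul_le_mul hq hq)]
  obtain ⟨τ, hτ, hk⟩ := Submodule.exists_le_ker_of_lt_top _ (lt_top_iff_ne_top.2 hne)
  have hi : τ (v i) = 0 := LinearMap.mem_ker.1 (hk (Submodule.subset_span (by simp)))
  have hw0 : τ w = 0 := LinearMap.mem_ker.1 (hk (Submodule.subset_span (by simp)))
  refine ⟨τ, hi, fun j hj hτj => hτ ?_⟩
  have hinj : Function.Injective
      (fun p : F × F × F => p.1 • v i + p.2.1 • w + p.2.2 • v j) := by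
    rintro ⟨a, b, c⟩ ⟨a', b', c'⟩ h
    have h3 : a • v i + b • w + c • v j = a' • v i + b' • w + c' • v j := h
    have h4 : (a - a') • v i + (b - b') • w + (c - c') • v j = 0 := by
      rw [sub_smul, sub_smul, sub_smul]
      have h5 : a • v i - a' • v i + (b • w - b' • w) + (c • v j - c' • v j) =
        (a • v i + b • w + c • v j) - (a' • v i + b' • w + c' • v j) := by abel
      rw [h5, h3, sub_self]
    have h5 : b - b' = 0 := by
      by_contra hb
      refine hw j (-((b - b')⁻¹ * (a - a'))) (-((b - b')⁻¹ * (c - c'))) ?_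
      have h6 := congrArg (fun x => (b - b')⁻¹ • x) h4
      simp only [smul_add, smul_smul, inv_mul_cancel₀ hb, one_smul, smul_zero] at h6
      rw [neg_smul, neg_smul]
      have h7 : w = (((b - b')⁻¹ * (a - a')) • v i + w + ((b - b')⁻¹ * (c - c')) • v j) +
        (-(((b - b')⁻¹ * (a - a')) • v i) + -(((b - b')⁻¹ * (c - c')) • v j)) := by abel
      rw [h6, zero_add] at h7
      exact h7
    rw [h5, zero_smul, add_zero] at h4
    obtain ⟨h6, h7⟩ := hv.two i j (Ne.symm hj) _ _ h4
    rw [sub_eq_zero.1 h5, sub_eq_zero.1 h6, sub_eq_zero.1 h7]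
  have hsur := ((Fintype.bijective_iff_injective_and_card _).2 ⟨hinj, by
    rw [Fintype.card_prod, Fintype.card_prod, h2]; ring⟩).2
  refine LinearMap.ext fun u => ?_
  obtain ⟨⟨a, b, c⟩, h⟩ := hsur u
  have h3 : a • v i + b • w + c • v j = u := h
  rw [← h3, map_add, map_add, map_smul, map_smul, map_smul, hi, hw0, hτj]
  simp

end Pool.BPA
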