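import Mathlib
import Pool.Agent.H61.BPA.Stmt

/-!
Rows PEN1, PEN2 of board `bpa`: double counting of points in planes (helper4).
-/

set_option autoImplicit false

namespace Pool.BPA

open Finset

open Classical in
theorem pen_gen {α ι : Type} [Fintype ι] (P : Finset α) (R : α → ι → Prop) (K : Finset ι)
    (N : ℕ) (h : ∀ k ∈ K, (P.filter fun c => R c k).card = N) :
    ∑ c ∈ P, ((univ.filter fun i => R c i) ∩ K).card = K.card * N := by
  have h1 : ∀ c ∈ P, ((univ.filter fun i => R c i) ∩ K).card =
      ∑ k ∈ K, if R c k then 1 else 0 := by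
    intro c _
    rw [Finset.sum_boole, Nat.cast_id]
    refine congrArg Finset.card ?_
    ext i
    simp only [mem_inter, mem_filter, mem_univ, true_and]
    tauto
  rw [Finset.sum_congr rfl h1, Finset.sum_comm]
  have h2 : ∀ k ∈ K, (∑ c ∈ P, if R c k then 1 else 0) = N := by
    intro k hk
    rw [Finset.sum_boole, Nat.cast_id]
    exact h k hk
  rw [Finset.sum_congr rfl h2, Finset.sum_const, smul_eq_mul]

open Classical in
theorem t_pen1 (h2 : CN2Stmt) : Pen1Stmt := by
  intro F _ _ ι _ v x K hK
  refine pen_gen (P1 x) (fun c i => c ⬝ᵥ v i = 0) K _ fun k hk => ?_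
  rw [← h2 F x (v k) (hK k hk), P1, P2, Finset.filter_filter]
  refine congrArg Finset.card (Finset.filter_congr fun c _ => ?_)
  rw [and_assoc]

open Classical in
theorem t_pen2 (h3 : CN3Stmt) : Pen2Stmt := by
  intro F _ _ ι _ v x y K hK
  refine pen_gen (P2 x y) (fun c i => c ⬝ᵥ v i = 0) K _ fun k hk => ?_
  exact h3 F x y (v k) (hK k hk)

end Pool.BPA
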