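import Pool.Agent.H61.BPA.Stmt

set_option autoImplicit false
set_option linter.unusedSectionVars false

namespace Pool.BPA

open Finset

/-- the product of all nonzero elements. -/
theorem prod_nz (F : Type) [Field F] [Fintype F] [DecidableEq F] :
    ∏ x ∈ (univ : Finset F).erase 0, x = -1 := by
  have h1 := FiniteField.prod_univ_units_id_eq_neg_one (K := F)
  have h2 : ∏ x ∈ (univ : Finset F).erase 0, x = ∏ x : Fˣ, (x : F) := by
    rw [Finset.prod_subtype (p := fun x : F => x ≠ 0) ((univ : Finset F).erase 0) (by simp)
      (fun x => x)]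
    refine (Fintype.prod_equiv unitsEquivNeZero _ _ ?_).symm
    intro x
    rfl
  rw [h2]
  have h3 := congrArg (fun u : Fˣ => (u : F)) h1
  simpa [Units.coe_prod] using h3

theorem t_prod : ProdStmt := by
  intro F _ _ ι W _ _ v T hC hT i j k hij hik hjk P α β γ hP hco
  classical
  have hTj : T i (v j) ≠ 0 := hT.off i j hij
  have hTk : T i (v k) ≠ 0 := hT.off i k hik
  set m0 : F := -(T i (v j) / T i (v k)) with hm0
  have hm0' : m0 ≠ 0 := neg_ne_zero.2 (div_ne_zero hTj hTk)
  have hm0k : m0 * T i (v k) = - T i (v j) := by
    rw [hm0]; field_simp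
  have hβ : ∀ l ∈ P, β l ≠ 0 := by
    intro l hl h0
    obtain ⟨hli, hlj, hlk, -⟩ := (hP l).1 hl
    have h1 := hco l hl
    rw [h0, zero_smul, add_zero] at h1
    have h2 := hC.three i k l hik hli.symm hlk.symm (α l) (γ l) (-1) (by
      rw [h1, neg_smul, one_smul]; abel)
    exact one_ne_zero (neg_eq_zero.1 h2.2.2)
  have hγ : ∀ l ∈ P, γ l ≠ 0 := by
    intro l hl h0
    obtain ⟨hli, hlj, hlk, -⟩ := (hP l).1 hl
    have h1 := hco l hl
    rw [h0, zero_smul, add_zero] at h1
    have h2 := hC.three i j l hij hli.symm hlj.symm (α l) (β l) (-1) (by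
      rw [h1, neg_smul, one_smul]; abel)
    exact one_ne_zero (neg_eq_zero.1 h2.2.2)
  have hbij : ∏ l ∈ P, γ l / β l = ∏ m ∈ ((univ : Finset F).erase 0).erase m0, m := by
    refine Finset.prod_bij (fun l _ => γ l / β l) ?_ ?_ ?_ (fun _ _ => rfl)
    · intro l hl
      obtain ⟨hli, -, -, -⟩ := (hP l).1 hl
      rw [Finset.mem_erase, Finset.mem_erase]
      refine ⟨?_, div_ne_zero (hγ l hl) (hβ l hl), mem_univ _⟩
      intro hr
      rw [div_eq_iff (hβ l hl)] at hr
      apply hT.off i l hli.symm
      rw [hco l hl, map_add, map_add, map_smul, map_smul, map_smul, hT.self, hr]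
      simp only [smul_eq_mul]
      linear_combination (β l) * hm0k
    · intro l hl l' hl' hr
      by_contra hne
      obtain ⟨hli, -, -, -⟩ := (hP l).1 hl
      obtain ⟨hli', -, -, -⟩ := (hP l').1 hl'
      have hr' : γ l * β l' = γ l' * β l := by
        have := hr
        rwa [div_eq_div_iff (hβ l hl) (hβ l' hl')] at this
      have h2 := hC.three i l l' hli.symm hli'.symm hne (β l * α l' - β l' * α l) (β l') (-β l) (by
        rw [hco l hl, hco l' hl']
        have e1 : β l' • (α l • v i + β l • v j + γ l • v k) =
            (β l' * α l) • v i + (β l' * β l) • v j + (γ l * β l') • v k := by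
          rw [smul_add, smul_add, smul_smul, smul_smul, smul_smul, mul_comm (β l') (γ l)]
        have e2 : (-β l) • (α l' • v i + β l' • v j + γ l' • v k) =
            -((β l * α l') • v i + (β l' * β l) • v j + (γ l' * β l) • v k) := by
          rw [neg_smul, smul_add, smul_add, smul_smul, smul_smul, smul_smul, mul_comm (β l) (γ l'),
            mul_comm (β l) (β l')]
        rw [e1, e2, hr', sub_smul]
        abel)
      exact hβ l' hl' h2.2.1
    · intro m hm
      rw [Finset.mem_erase, Finset.mem_erase] at hm
      obtain ⟨hmm0, hm00, -⟩ := hm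
      have hTw : T i (v j + m • v k) ≠ 0 := by
        intro h0
        apply hmm0
        rw [map_add, map_smul, smul_eq_mul] at h0
        have : (m - m0) * T i (v k) = 0 := by linear_combination h0 - hm0k
        rcases mul_eq_zero.1 this with h | h
        · exact sub_eq_zero.1 h
        · exact absurd h hTk
      obtain ⟨l, hli, a, b, hl⟩ := hT.hit i (v j + m • v k) hTw
      have hl2 : v l = a • v i + b • v j + (b * m) • v k := by
        rw [hl, smul_add, smul_smul]; abel
      have hlj : l ≠ j := by
        intro h
        rw [h] at hl2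
        have h2 := hC.three i j k hij hik hjk a (b - 1) (b * m) (by
          have : a • v i + (b - 1) • v j + (b * m) • v k =
              (a • v i + b • v j + (b * m) • v k) - v j := by
            rw [sub_smul, one_smul]; abel
          rw [this, ← hl2, sub_self])
        have hb : b = 1 := sub_eq_zero.1 h2.2.1
        have := h2.2.2
        rw [hb, one_mul] at this
        exact hm00 this
      have hlk : l ≠ k := by
        intro h
        rw [h] at hl2
        have h2 := hC.three i j k hij hik hjk a b (b * m - 1) (by
          have : a • v i + b • v j + (b * m - 1) • v k =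
              (a • v i + b • v j + (b * m) • v k) - v k := by
            rw [sub_smul, one_smul]; abel
          rw [this, ← hl2, sub_self])
        have hb : b = 0 := h2.2.1
        have := h2.2.2
        rw [hb, zero_mul, zero_sub] at this
        exact one_ne_zero (neg_eq_zero.1 this)
      have hlP : l ∈ P := (hP l).2 ⟨hli, hlj, hlk, a, b, b * m, hl2⟩
      refine ⟨l, hlP, ?_⟩
      have h3 := hco l hlP
      have h4 := hC.three i j k hij hik hjk (α l - a) (β l - b) (γ l - b * m) (by
        have : (α l - a) • v i + (β l - b) • v j + (γ l - b * m) • v k =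
            (α l • v i + β l • v j + γ l • v k) - (a • v i + b • v j + (b * m) • v k) := by
          rw [sub_smul, sub_smul, sub_smul]; abel
        rw [this, ← h3, ← hl2, sub_self])
      have hb : β l = b := sub_eq_zero.1 h4.2.1
      have hg : γ l = b * m := sub_eq_zero.1 h4.2.2
      have hb0 : b ≠ 0 := hb ▸ hβ l hlP
      change γ l / β l = m
      rw [hb, hg]
      field_simp
  have hprod : m0 * ∏ m ∈ ((univ : Finset F).erase 0).erase m0, m = -1 := by
    rw [Finset.mul_prod_erase ((univ : Finset F).erase 0) (fun x => x)
      (Finset.mem_erase.2 ⟨hm0', mem_univ _⟩)]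
    exact prod_nz F
  rw [hbij]
  set R := ∏ m ∈ ((univ : Finset F).erase 0).erase m0, m with hR
  linear_combination R * hm0k - T i (v k) * hprod

end Pool.BPA
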