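import Mathlib
import Pool.Agent.H61.BPA.Stmt
import Pool.Agent.H61.BPA.Arc

/-!
Row QODD of board `bpa`: ovoids of `PG(3,q)`, `q` odd, are quadrics (helper4).
-/

set_option autoImplicit false

namespace Pool.BPA

open Finset

theorem t_qodd (hfam : FamStmt) (hpol : PolStmt) (hodd : OddStmt) : QoddStmt := by
  classical
  intro F _ _ S h2 hcard hcap
  set q := Fintype.card F with hq
  have hq1 : 1 < q := Fintype.one_lt_card
  have hq2 : Fintype.card F ≠ 2 := by
    intro h
    have := odd_card_of_two F h2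
    rw [h] at this
    omega
  have hq4 : 4 ≤ q ^ 2 := by
    calc 4 = 2 ^ 2 := by norm_num
      _ ≤ q ^ 2 := Nat.pow_le_pow_left hq1 2
  have hfin : S.Finite := Set.finite_of_ncard_pos (by omega)
  have h3 : 2 < S.ncard := by omega
  obtain ⟨p, p', p'', hp, hp', hp'', h12, h13, h23⟩ := (Set.two_lt_ncard_iff hfin).1 h3
  have hv : Cap F (fun p : S => p.1.rep) :=
    hfam F S hcap ⟨p, hp, p', hp', p'', hp'', h12, h13, h23⟩
  have : Fintype S := hfin.fintype
  have hSc : Fintype.card S = Fintype.card F ^ 2 + 1 := by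
    rw [← hcard, ← Set.toFinset_card, Set.ncard_eq_toFinset_card']
  obtain ⟨hspan, B, hsym, hself, hne, hhit⟩ := hpol F S (fun p : S => p.1.rep) hq2 hv hSc
  refine ⟨LinearMap.BilinMap.toQuadraticMap B, fun x => ?_⟩
  rw [LinearMap.BilinMap.toQuadraticMap_apply]
  constructor
  · intro hx
    exact hself ⟨x, hx⟩
  · intro hx
    have hi : ∃ i j : S, i ≠ j :=
      ⟨⟨p, hp⟩, ⟨p', hp'⟩, fun h => h12 (congrArg Subtype.val h)⟩
    obtain ⟨i, a, ha⟩ := hodd F S (fun p : S => p.1.rep) h2 hv hi hspan B hsym hself hne hhit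
      x.rep x.rep_nonzero hx
    have h5 : x = i.1 := by
      rw [← x.mk_rep, ← i.1.mk_rep, Projectivization.mk_eq_mk_iff']
      exact ⟨a, ha.symm⟩
    rw [h5]
    exact i.2

end Pool.BPA
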