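import Mathlib
import Pool.Agent.H61.BPA.Stmt
import Pool.Agent.H61.BPA.CN

/-!
Row SEC of board `bpa`: planes through the nucleus of an oval section (helper4).
-/

set_option autoImplicit false

namespace Pool.BPA

open Finset

theorem t_sec (htpl : TplStmt) : SecStmt := by
  classical
  intro F _ _ ι _ v hv c N hc hN hcN hcard hsec hpt c' hc' hcN'
  by_cases hpar : ∃ a : F, c' = a • c
  · obtain ⟨a, ha⟩ := hpar
    have ha0 : a ≠ 0 := by
      rintro rfl
      apply hc'
      rw [ha, zero_smul]
    have hA : A v c' = A v c := by
      ext i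
      simp only [A, mem_filter, mem_univ, true_and]
      rw [ha, smul_dotProduct, smul_eq_mul, mul_eq_zero, or_iff_right ha0]
    rw [hA, hcard]
  · have hpar' : ∀ a : F, c' ≠ a • c := fun a h => hpar ⟨a, h⟩
    have hind : ∀ a b : F, a • c + b • c' = 0 → a = 0 ∧ b = 0 := by
      intro a b h
      have hb : b = 0 := by
        by_contra hb
        apply hpar' (-(b⁻¹ * a))
        have h1 : b • c' = -(a • c) := by
          rw [eq_neg_iff_add_eq_zero, add_comm]
          exact h
        rw [neg_smul, mul_smul, ← smul_neg, ← h1, smul_smul, inv_mul_cancel₀ hb, one_smul]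
      subst hb
      rw [zero_smul, add_zero] at h
      rcases smul_eq_zero.1 h with h1 | h1
      · exact ⟨h1, rfl⟩
      · exact absurd h1 hc
    have hcn := t_cn2 F c c' hind
    set q := Fintype.card F with hq
    have hq1 : 1 < q := Fintype.one_lt_card
    set M : Finset (Fin 4 → F) := ((univ : Finset F).erase 0).image fun a => a • N with hM
    have hMc : M.card ≤ q - 1 := by
      rw [hM]
      refine card_image_le.trans ?_
      rw [card_erase_of_mem (mem_univ _), card_univ]
    have hlt : M.card < (P2 c c').card := by
      rw [hcn]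
      have h1 : q < q ^ 2 := by
        rw [sq]
        exact lt_mul_of_one_lt_left (by omega) hq1
      omega
    obtain ⟨w, hw, hwM⟩ := exists_mem_notMem_of_card_lt_card hlt
    rw [P2, mem_filter] at hw
    obtain ⟨_, hw0, hwc, hwc'⟩ := hw
    have hwN : ∀ a : F, w ≠ a • N := by
      intro a h
      apply hwM
      rw [hM, mem_image]
      refine ⟨a, ?_, h.symm⟩
      rw [mem_erase]
      refine ⟨?_, mem_univ _⟩
      rintro rfl
      apply hw0
      rw [h, zero_smul]
    obtain ⟨i, hi, a, b, hiab⟩ := hpt w (by rw [dotProduct_comm]; exact hwc) hwN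
    have hci' : c' ⬝ᵥ v i = 0 := by
      rw [hiab, dotProduct_add, dotProduct_smul, dotProduct_smul, hcN', dotProduct_comm c' w, hwc',
        smul_zero, smul_zero, add_zero]
    refine htpl F ι v hv i N ?_ ?_ c' hc' hci' hcN'
    · intro s hs
      apply hsec i hi i s 0
      rw [hs, zero_smul, add_zero]
    · intro j hj s t hst
      have ht : t ≠ 0 := by
        rintro rfl
        rw [zero_smul, add_zero] at hst
        have h1 : (1 : F) • v j + (-s) • v i = 0 := by
          rw [one_smul, neg_smul, hst, add_neg_cancel]
        exact one_ne_zero (hv.two j i hj _ _ h1).1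
      apply hsec i hi j (-(t⁻¹ * s)) t⁻¹
      have h1 : t • N = v j - s • v i := by
        rw [hst]; abel
      have h2 : N = t⁻¹ • (v j - s • v i) := by
        rw [← h1, smul_smul, inv_mul_cancel₀ ht, one_smul]
      rw [neg_smul, mul_smul]
      rw [smul_sub] at h2
      exact h2.trans (by abel)

end Pool.BPA
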