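import Mathlib
import Pool.Agent.H61.BPA.Stmt

/-!
# TANG: a hyperplane with one point of the cap has the property `hit`, by counting.
-/

set_option autoImplicit false

namespace Pool.BPA

open Finset

/-- The points outside a hyperplane, up to the line through a fixed vector. -/
theorem card_fib {F W : Type} [Field F] [Fintype F] [AddCommGroup W] [Module F W] [Fintype W]
    (τ : W →ₗ[F] F) {w : W} (hw : τ w ≠ 0) :
    Fintype.card F * Nat.card {u : W // τ u = 1} = Fintype.card W := by
  classical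
  have h1 : τ ((τ w)⁻¹ • w) = 1 := by
    rw [map_smul, smul_eq_mul, inv_mul_cancel₀ hw]
  let e : W ≃ F × {u : W // τ u = 1} :=
    { toFun := fun x => (τ x, ⟨x - (τ x - 1) • ((τ w)⁻¹ • w), by
        rw [map_sub, map_smul, h1, smul_eq_mul]; ring⟩)
      invFun := fun p => p.2.1 + (p.1 - 1) • ((τ w)⁻¹ • w)
      left_inv := fun x => by simp
      right_inv := fun p => by
        obtain ⟨a, u, hu⟩ := p
        have h2 : τ (u + (a - 1) • ((τ w)⁻¹ • w)) = a := by
          rw [map_add, map_smul, h1, hu, smul_eq_mul]; ring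
        refine Prod.ext h2 (Subtype.ext ?_)
        show u + (a - 1) • ((τ w)⁻¹ • w) - (τ (u + (a - 1) • ((τ w)⁻¹ • w)) - 1) •
          ((τ w)⁻¹ • w) = u
        rw [h2]
        abel }
  have h3 := Nat.card_congr e
  rw [Nat.card_prod, Nat.card_eq_fintype_card, Nat.card_eq_fintype_card] at h3
  exact h3.symm

theorem t_tang : TangStmt := by
  classical
  intro F _ _ ι _ W _ _ _ v hv hc i τ hτ hoff w hw
  have hq : 0 < Fintype.card F := Fintype.card_pos
  let φ : {j : ι // j ≠ i} × F → {u : W // τ u = 1} := fun p =>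
    ⟨(τ (v p.1.1))⁻¹ • v p.1.1 + p.2 • v i, by
      rw [map_add, map_smul, map_smul, hτ, smul_eq_mul, smul_eq_mul,
        inv_mul_cancel₀ (hoff p.1.1 p.1.2), mul_zero, add_zero]⟩
  have hφ : Function.Injective φ := by
    rintro ⟨⟨j, hj⟩, c⟩ ⟨⟨l, hl⟩, c'⟩ h
    have h1 : (τ (v j))⁻¹ • v j + c • v i = (τ (v l))⁻¹ • v l + c' • v i := congrArg Subtype.val h
    by_cases hjl : j = l
    · subst hjl
      have h2 : (c - c') • v i = 0 := by
        rw [sub_smul, sub_eq_zero]
        exact add_left_cancel h1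
      have h3 : c = c' := by
        rcases smul_eq_zero.1 h2 with h3 | h3
        · exact sub_eq_zero.1 h3
        · exact absurd h3 (hv.one i)
      rw [h3]
    · exfalso
      have h2 : (c - c') • v i + (τ (v j))⁻¹ • v j + (-(τ (v l))⁻¹) • v l = 0 := by
        rw [sub_smul, neg_smul]
        have h3 : c • v i - c' • v i + (τ (v j))⁻¹ • v j + -((τ (v l))⁻¹ • v l) =
          ((τ (v j))⁻¹ • v j + c • v i) - ((τ (v l))⁻¹ • v l + c' • v i) := by abel
        rw [h3, h1, sub_self]
      have h3 := (hv.three i j l (Ne.symm hj) (Ne.symm hl) hjl _ _ _ h2).2.1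
      exact inv_ne_zero (hoff j hj) h3
  have hcard : Fintype.card ({j : ι // j ≠ i} × F) = Fintype.card {u : W // τ u = 1} := by
    have h1 := card_fib τ hw
    rw [Nat.card_eq_fintype_card] at h1
    rw [Fintype.card_prod, Fintype.card_subtype_compl, Fintype.card_subtype_eq]
    refine Nat.eq_of_mul_eq_mul_left hq ?_
    rw [h1, ← hc]
    ring
  obtain ⟨⟨⟨j, hj⟩, c⟩, h⟩ := ((Fintype.bijective_iff_injective_and_card φ).2 ⟨hφ, hcard⟩).2
    ⟨(τ w)⁻¹ • w, by rw [map_smul, smul_eq_mul, inv_mul_cancel₀ hw]⟩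
  have h1 : (τ (v j))⁻¹ • v j + c • v i = (τ w)⁻¹ • w := congrArg Subtype.val h
  refine ⟨j, hj, -(τ (v j) * c), τ (v j) * (τ w)⁻¹, ?_⟩
  have h2 := congrArg (fun x => τ (v j) • x) h1
  simp only [smul_add, smul_smul, mul_inv_cancel₀ (hoff j hj), one_smul] at h2
  rw [neg_smul, ← h2]
  abel

end Pool.BPA
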