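import Pool.Agent.H61.BPA.Capb

/-! TPE: a plane with exactly one point through every point, `q` even, `q ≥ 4`. -/

set_option autoImplicit false
set_option linter.unusedSectionVars false

namespace Pool.BPA

open Finset

section
variable {F : Type} [Field F] [Fintype F] {ι : Type} [Fintype ι]

/-- three vectors have a common nonzero annihilator. -/
theorem exists_perp3 (x y z : Fin 4 → F) : ∃ c : Fin 4 → F, c ≠ 0 ∧ c ⬝ᵥ x = 0 ∧ c ⬝ᵥ y = 0 ∧
    c ⬝ᵥ z = 0 := by
  classical
  have hq := qpos (F := F)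
  have h1 : Fintype.card (F × F × F) < Fintype.card (Fin 4 → F) := by
    rw [card4, Fintype.card_prod, Fintype.card_prod]
    have : Fintype.card F * (Fintype.card F * Fintype.card F) = Fintype.card F ^ 3 := by ring
    rw [this]
    exact Nat.pow_lt_pow_right (by omega) (by norm_num)
  obtain ⟨c, c', hne, h⟩ := Fintype.exists_ne_map_eq_of_card_lt
    (fun c : Fin 4 → F => (c ⬝ᵥ x, c ⬝ᵥ y, c ⬝ᵥ z)) h1
  simp only [Prod.mk.injEq] at h
  refine ⟨c - c', sub_ne_zero.2 hne, ?_, ?_, ?_⟩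
  · rw [sub_dotProduct, h.1, sub_self]
  · rw [sub_dotProduct, h.2.1, sub_self]
  · rw [sub_dotProduct, h.2.2, sub_self]

open Classical in
/-- the vectors on a line given by two planes. -/
noncomputable def perp2 (c c' : Fin 4 → F) : Finset (Fin 4 → F) :=
  univ.filter fun w => c ⬝ᵥ w = 0 ∧ c' ⬝ᵥ w = 0

open Classical in
theorem card_perp2 (h : CN2Stmt) {c c' : Fin 4 → F}
    (hc : ∀ a b : F, a • c + b • c' = 0 → a = 0 ∧ b = 0) :
    (perp2 c c').card = Fintype.card F ^ 2 := by
  have h1 := h F c c' hc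
  have h2 : perp2 c c' = insert 0 (P2 c c') := by
    ext w
    simp only [perp2, P2, mem_filter, mem_univ, true_and, mem_insert]
    rw [dotProduct_comm w c, dotProduct_comm w c']
    constructor
    · intro hw
      by_cases h0 : w = 0
      · exact Or.inl h0
      · exact Or.inr ⟨h0, hw⟩
    · rintro (rfl | ⟨-, hw⟩)
      · simp
      · exact hw
  have h3 : (0 : Fin 4 → F) ∉ P2 c c' := by simp [P2]
  rw [h2, card_insert_of_notMem h3, h1]
  have : 0 < Fintype.card F ^ 2 := pow_pos Fintype.card_pos 2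
  omega

open Classical in
/-- the line of two planes is spanned by two independent vectors on it. -/
theorem mem_span_of_perp2 (h : CN2Stmt) {c c' x y w : Fin 4 → F}
    (hc : ∀ a b : F, a • c + b • c' = 0 → a = 0 ∧ b = 0)
    (hxy : ∀ a b : F, a • x + b • y = 0 → a = 0 ∧ b = 0)
    (h1 : c ⬝ᵥ x = 0) (h2 : c' ⬝ᵥ x = 0) (h3 : c ⬝ᵥ y = 0) (h4 : c' ⬝ᵥ y = 0)
    (h5 : c ⬝ᵥ w = 0) (h6 : c' ⬝ᵥ w = 0) : ∃ a b : F, w = a • x + b • y := by
  have hsub : mul2 x y ⊆ perp2 c c' := by
    intro z hz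
    simp only [mul2, mem_filter, mem_univ, true_and] at hz
    obtain ⟨a, b, rfl⟩ := hz
    simp only [perp2, mem_filter, mem_univ, true_and, dotProduct_add, dotProduct_smul, h1, h2,
      h3, h4, smul_zero, add_zero, and_self]
  have heq := Finset.eq_of_subset_of_card_le hsub (by rw [card_perp2 h hc, card_mul2 hxy])
  have hw : w ∈ perp2 c c' := by simp [perp2, h5, h6]
  rw [← heq] at hw
  simpa [mul2] using hw

open Classical in
/-- a tangent line exists through every point. -/
theorem exists_tan {v : ι → Fin 4 → F} (hv : Cap F v)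
    (hn : Fintype.card ι = Fintype.card F ^ 2 + 1) (i : ι) :
    ∃ w : Fin 4 → F, (∀ a : F, w ≠ a • v i) ∧ ∀ j, j ≠ i → ∀ a b : F, v j ≠ a • v i + b • w := by
  by_contra hno
  push Not at hno
  have hq := qpos (F := F)
  have h1 : (univ \ mul1 (v i)).card ≤
      (univ.erase i).card * ((Fintype.card F - 1) * Fintype.card F) := by
    apply cnt_ge (v := v) i
    intro w hw
    simp only [mul1, mem_sdiff, mem_univ, mem_filter, true_and, not_exists] at hw
    obtain ⟨j, hj, a, b, h⟩ := hno w hw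
    have hb : b ≠ 0 := by
      rintro rfl
      rw [zero_smul, add_zero] at h
      have h2 : (1 : F) • v j + (-a) • v i = 0 := by rw [h, one_smul, neg_smul]; simp
      exact one_ne_zero (hv.two j i hj _ _ h2).1
    refine ⟨j, mem_erase.2 ⟨hj, mem_univ _⟩, b⁻¹, inv_ne_zero hb, -(b⁻¹ * a), ?_⟩
    rw [h, smul_add, smul_smul, smul_smul, inv_mul_cancel₀ hb, one_smul, neg_smul]
    abel
  rw [card_sdiff_of_subset (subset_univ _), card_univ, card4, card_mul1 (hv.one i),
    card_erase_of_mem (mem_univ _), card_univ, hn] at h1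
  obtain ⟨p, hp⟩ : ∃ p, Fintype.card F = p + 1 := ⟨Fintype.card F - 1, by omega⟩
  rw [hp] at h1
  simp only [add_tsub_cancel_right] at h1
  have h2 : (p + 1) ^ 4 = (p + 1) ^ 2 * (p * (p + 1)) + (p + 1) ^ 3 := by ring
  have h3 : (p + 1) < (p + 1) ^ 3 := by
    calc (p + 1) = (p + 1) ^ 1 := (pow_one _).symm
      _ < (p + 1) ^ 3 := Nat.pow_lt_pow_right (by omega) (by norm_num)
  omega

end

open Classical in
theorem t_tpe (hcapb : CapbStmt) (hpen2 : Pen2Stmt) (htpl : TplStmt) (hnuc4 : Nuc4Stmt)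
    (hsec : SecStmt) (hcn1 : CN1Stmt) (hcn2 : CN2Stmt) : TpeStmt := by
  intro F _ _ _ ι _ v hq hv hn i
  -- completeness
  have hcomp : ∀ N : Fin 4 → F, N ≠ 0 → ∃ k l, ∃ a b : F, N = a • v k + b • v l := by
    intro N hN0
    by_contra hno
    push Not at hno
    have h := hcapb F (Option ι) _ hq (cap_option hv hN0 hno)
    rw [Fintype.card_option, hn] at h
    omega
  -- an oval plane through `i`
  obtain ⟨w, hw1, hw2⟩ := exists_tan hv hn i
  obtain ⟨c, hc, hci, hcw, hcard⟩ := oval_of_tan hcn2 hpen2 htpl hv (by omega) hw1 hw2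
  obtain ⟨N, hN0, hcN, hN1, hN2⟩ := hnuc4 F ι v hv c hc hcard
  clear hcw hw1 hw2 w
  have hiA : i ∈ A v c := by simp [A, hci]
  have hle : ∀ c' : Fin 4 → F, c' ≠ 0 → c' ⬝ᵥ N = 0 → (A v c').card ≤ Fintype.card F + 1 :=
    hsec F ι v hv c N hc hN0 hcN hcard hN1 hN2
  -- the line `v m, N` is a tangent for `m` in `A v c`
  have htan : ∀ m ∈ A v c, (∀ a : F, N ≠ a • v m) ∧ ∀ j, j ≠ m → ∀ a b : F,
      v j ≠ a • v m + b • N := by
    intro m hm
    refine ⟨fun a ha => hN1 m hm m a 0 (by rw [ha, zero_smul, add_zero]), ?_⟩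
    intro j hj a b h
    by_cases hb : b = 0
    · subst hb
      rw [zero_smul, add_zero] at h
      have h2 : (1 : F) • v j + (-a) • v m = 0 := by rw [h, one_smul, neg_smul]; simp
      exact one_ne_zero (hv.two j m hj _ _ h2).1
    · apply hN1 m hm j (-(b⁻¹ * a)) b⁻¹
      rw [h, smul_add, smul_smul, smul_smul, inv_mul_cancel₀ hb, one_smul, neg_smul]
      abel
  -- planes through a secant through `N`
  have hfull : ∀ k l, k ≠ l → (∃ a b : F, N = a • v k + b • v l) → ∀ c' : Fin 4 → F, c' ≠ 0 →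
      c' ⬝ᵥ v k = 0 → c' ⬝ᵥ v l = 0 → (A v c').card = Fintype.card F + 1 := by
    rintro k l hkl ⟨a, b, hN⟩ c' hc' hk hl
    exact (sec_sum hcn2 hpen2 hv hkl (fun c'' hc'' hk'' hl'' => hle c'' hc'' (by
      rw [hN, dotProduct_add, dotProduct_smul, dotProduct_smul, hk'', hl'']; simp))).2 hn c' hc'
        hk hl
  -- a plane through `v i, N` with at most `q` points
  obtain ⟨c', hc', hc'i, hc'N, hc'card⟩ : ∃ c' : Fin 4 → F, c' ≠ 0 ∧ c' ⬝ᵥ v i = 0 ∧
      c' ⬝ᵥ N = 0 ∧ (A v c').card ≤ Fintype.card F := by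
    by_contra hno
    push Not at hno
    have hq0 := qpos (F := F)
    have h3 := hpen2 F ι v (v i) N (univ.erase i) (fun k hk a b c h =>
      tan_ind3 hv (htan i hiA).1 (htan i hiA).2 k (mem_erase.1 hk).1 a b c h)
    have h4 : ∀ d ∈ P2 (v i) N, (A v d ∩ univ.erase i).card = Fintype.card F := by
      intro d hd
      simp only [P2, mem_filter, mem_univ, true_and] at hd
      have h5 := hno d hd.1 hd.2.1 hd.2.2
      have h6 := hle d hd.1 hd.2.2
      have h7 := card_inter_erase (v := v) hd.2.1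
      omega
    rw [sum_congr rfl h4, sum_const, smul_eq_mul, hcn2 F (v i) N (ind_of (hv.one i)
      (htan i hiA).1), card_erase_of_mem (mem_univ _), card_univ, hn] at h3
    obtain ⟨p, hp⟩ : ∃ p, Fintype.card F = p + 1 := ⟨Fintype.card F - 1, by omega⟩
    rw [hp] at h3
    simp only [add_tsub_cancel_right] at h3
    have h5 : (p + 1) ^ 2 - 1 = p * (p + 2) := by
      have : (p + 1) ^ 2 = p * (p + 2) + 1 := by ring
      omega
    rw [h5] at h3
    have h6 : p * (p + 2) * (p + 1) = (p + 1) ^ 2 * p + (p + 1) * p := by ring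
    rw [h6] at h3
    have h7 : 0 < (p + 1) * p := Nat.mul_pos (by omega) (by omega)
    omega
  refine ⟨c', hc'i, ?_⟩
  intro j hji hc'j
  -- `N v_j` is not a secant
  have hjt : ∀ l, l ≠ j → ∀ a b : F, v l ≠ a • v j + b • N := by
    intro l hl a b h
    have hb : b ≠ 0 := by
      rintro rfl
      rw [zero_smul, add_zero] at h
      have h2 : (1 : F) • v l + (-a) • v j = 0 := by rw [h, one_smul, neg_smul]; simp
      exact one_ne_zero (hv.two l j hl _ _ h2).1
    have hN : N = (-(b⁻¹ * a)) • v j + b⁻¹ • v l := by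
      rw [h, smul_add, smul_smul, smul_smul, inv_mul_cancel₀ hb, one_smul, neg_smul]
      abel
    have h3 : c' ⬝ᵥ v l = 0 := by
      rw [h, dotProduct_add, dotProduct_smul, dotProduct_smul, hc'j, hc'N]; simp
    have := hfull j l (Ne.symm hl) ⟨_, _, hN⟩ c' hc' hc'j h3
    omega
  have hjN : ∀ a : F, N ≠ a • v j := by
    intro a ha
    apply hN1 i hiA j 0 a
    rw [ha, zero_smul, zero_add]
  -- a secant through `N` and the plane `d` through it and `v j`
  obtain ⟨k, l, a, b, hNkl⟩ := hcomp N hN0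
  have hkl : k ≠ l := by
    rintro rfl
    apply hN1 i hiA k 0 (a + b)
    rw [hNkl, zero_smul, zero_add, add_smul]
  obtain ⟨d, hd, hdk, hdl, hdj⟩ := exists_perp3 (v k) (v l) (v j)
  have hdN : d ⬝ᵥ N = 0 := by
    rw [hNkl, dotProduct_add, dotProduct_smul, dotProduct_smul, hdk, hdl]; simp
  have hdcard := hfull k l hkl ⟨a, b, hNkl⟩ d hd hdk hdl
  obtain ⟨M, hM0, hdM, hM1, hM2⟩ := hnuc4 F ι v hv d hd hdcard
  have hkA : k ∈ A v d := by simp [A, hdk]
  have hNM : ∀ a : F, N ≠ a • M := by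
    intro a' ha'
    by_cases h0 : a' = 0
    · subst h0
      rw [zero_smul] at ha'
      exact hN0 ha'
    · apply hM1 k hkA l (a'⁻¹ * a) (a'⁻¹ * b)
      have e : M = a'⁻¹ • N := by rw [ha', smul_smul, inv_mul_cancel₀ h0, one_smul]
      rw [e, hNkl, smul_add, smul_smul, smul_smul]
  obtain ⟨p, hpA, a1, b1, hp⟩ := hM2 N hdN hNM
  -- a point of `A v d` whose line with `N` is not a secant is `p`
  have huniq : ∀ m ∈ A v d, (∀ l, l ≠ m → ∀ a b : F, v l ≠ a • v m + b • N) → m = p := by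
    intro m hm hmt
    by_contra hmp
    have hb1 : b1 ≠ 0 := by
      rintro rfl
      rw [zero_smul, add_zero] at hp
      have ha1 : a1 ≠ 0 := by
        rintro rfl
        rw [zero_smul] at hp
        exact hv.one p hp
      apply hM1 p hpA p a1⁻¹ 0
      rw [hp, smul_smul, inv_mul_cancel₀ ha1, one_smul, zero_smul, add_zero]
    have hcond : ∀ x y : F, N ≠ x • v m + y • M := by
      intro x y hxy
      -- `v p = a1 M + b1 (x v_m + y M)`
      have e : v p = (a1 + b1 * y) • M + (b1 * x) • v m := by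
        rw [hp, hxy]; module
      by_cases hz : a1 + b1 * y = 0
      · rw [hz, zero_smul, zero_add] at e
        have h2 : (1 : F) • v p + (-(b1 * x)) • v m = 0 := by
          rw [e, one_smul, neg_smul]; simp
        exact one_ne_zero (hv.two p m (Ne.symm hmp) _ _ h2).1
      · apply hM1 p hpA m (a1 + b1 * y)⁻¹ (-((a1 + b1 * y)⁻¹ * (b1 * x)))
        rw [e, smul_add, smul_smul, smul_smul, inv_mul_cancel₀ hz, one_smul, neg_smul]
        abel
    obtain ⟨l', hl'A, hl'm, x, hx, y, hxy⟩ := oval_line hcn1 hv hd hdM hdcard hM1 hm hdN hcond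
    apply hmt l' hl'm (-(x⁻¹ * y)) x⁻¹
    rw [hxy, smul_add, smul_smul, smul_smul, inv_mul_cancel₀ hx, one_smul, neg_smul]
    abel
  have hjA : j ∈ A v d := by simp [A, hdj]
  have hjp : j = p := huniq j hjA hjt
  -- the planes `c` and `d`
  have hcd : ∀ a b : F, a • c + b • d = 0 → a = 0 ∧ b = 0 := by
    apply ind_of hc
    intro a' ha'
    have ha0 : a' ≠ 0 := by
      rintro rfl
      rw [zero_smul] at ha'
      exact hd ha'
    have hck : c ⬝ᵥ v k = 0 := by
      rw [ha', smul_dotProduct, smul_eq_mul] at hdk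
      exact (mul_eq_zero.1 hdk).resolve_left ha0
    exact hN1 k (by simp [A, hck]) l a b hNkl
  obtain ⟨u, huc, hud, huN⟩ : ∃ u, c ⬝ᵥ u = 0 ∧ d ⬝ᵥ u = 0 ∧ ∀ a : F, u ≠ a • N := by
    by_contra hno
    push Not at hno
    have hsub : perp2 c d ⊆ mul1 N := by
      intro u hu
      simp only [perp2, mem_filter, mem_univ, true_and] at hu
      obtain ⟨a', ha'⟩ := hno u hu.1 hu.2
      simp only [mul1, mem_filter, mem_univ, true_and]
      exact ⟨a', ha'⟩
    have h2 := card_le_card hsub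
    rw [card_perp2 hcn2 hcd, card_mul1 hN0] at h2
    nlinarith [qpos (F := F)]
  obtain ⟨m, hmA, a2, b2, hm⟩ := hN2 u huc huN
  have hdm : d ⬝ᵥ v m = 0 := by
    rw [hm, dotProduct_add, dotProduct_smul, dotProduct_smul, hdN, hud]; simp
  have hmp : m = p := huniq m (by simp [A, hdm]) (htan m hmA).2
  have hcj : c ⬝ᵥ v j = 0 := by
    rw [hjp, ← hmp]; simpa [A] using hmA
  -- the planes `c` and `c'`
  have hcc' : ∀ a b : F, a • c + b • c' = 0 → a = 0 ∧ b = 0 := by
    apply ind_of hc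
    intro a' ha'
    have ha0 : a' ≠ 0 := by
      rintro rfl
      rw [zero_smul] at ha'
      exact hc' ha'
    have : A v c' = A v c := by
      ext x
      simp only [A, mem_filter, mem_univ, true_and, ha', smul_dotProduct, smul_eq_mul, mul_eq_zero,
        ha0, false_or]
    rw [this] at hc'card
    omega
  obtain ⟨a3, b3, h3⟩ := mem_span_of_perp2 hcn2 hcc' (ind_of (hv.one i) (htan i hiA).1) hci hc'i
    hcN hc'N hcj hc'j
  exact (htan i hiA).2 j hji a3 b3 h3

end Pool.BPA
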