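import Mathlib
import Pool.Agent.H61.BPA.Stmt

/-!
Row TPO of board `bpa`: for `q` odd every point of an ovoid lies on a plane with no other point
(helper4).
-/

set_option autoImplicit false

namespace Pool.BPA

open Finset

theorem t_tpo (harc : ArcStmt) (hpen1 : Pen1Stmt) (hpen2 : Pen2Stmt) (hcn1 : CN1Stmt)
    (hcn2 : CN2Stmt) : TpoStmt := by
  classical
  intro F _ _ ι _ v h2 hv hcard i
  set q := Fintype.card F with hq
  have hq1 : 1 < q := Fintype.one_lt_card
  -- planes through two points have exactly `q + 1` points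
  have htwo : ∀ j, j ≠ i → ∀ c : Fin 4 → F, c ≠ 0 → c ⬝ᵥ v i = 0 → c ⬝ᵥ v j = 0 →
      (A v c).card = q + 1 := by
    intro j hj
    set K : Finset ι := (univ.erase i).erase j with hK
    have hjm : j ∈ (univ : Finset ι).erase i := mem_erase.2 ⟨hj, mem_univ _⟩
    have hKc : K.card = q ^ 2 - 1 := by
      rw [hK, card_erase_of_mem hjm, card_erase_of_mem (mem_univ _), card_univ, hcard]
      omega
    have hsum := hpen2 F ι v (v i) (v j) K (by
      intro k hk a b c h
      rw [hK, mem_erase, mem_erase] at hk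
      exact hv.three i j k hj.symm hk.2.1.symm hk.1.symm a b c h)
    have hind : ∀ a b : F, a • v i + b • v j = 0 → a = 0 ∧ b = 0 :=
      hv.two i j hj.symm
    have hP2 := hcn2 F (v i) (v j) hind
    have hAK : ∀ c ∈ P2 (v i) (v j), (A v c ∩ K).card + 2 = (A v c).card := by
      intro c hc
      rw [P2, mem_filter] at hc
      obtain ⟨_, hc0, hci, hcj⟩ := hc
      have hi : i ∈ A v c := mem_filter.2 ⟨mem_univ _, hci⟩
      have hjA : j ∈ (A v c).erase i := mem_erase.2 ⟨hj, mem_filter.2 ⟨mem_univ _, hcj⟩⟩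
      have h3 : A v c ∩ K = ((A v c).erase i).erase j := by
        ext k
        simp only [hK, mem_inter, mem_erase, mem_univ, and_true]
        tauto
      rw [h3, card_erase_of_mem hjA, card_erase_of_mem hi]
      have h4 : 2 ≤ (A v c).card := by
        have h5 : 0 < ((A v c).erase i).card := card_pos.2 ⟨j, hjA⟩
        rw [card_erase_of_mem hi] at h5
        omega
      omega
    have hle : ∀ c ∈ P2 (v i) (v j), (A v c ∩ K).card ≤ q - 1 := by
      intro c hc
      have h3 := hAK c hc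
      have h4 := harc F ι v h2 hv c (mem_filter.1 hc).2.1
      rw [← hq] at h4
      omega
    have hsum2 : ∑ c ∈ P2 (v i) (v j), (A v c ∩ K).card = ∑ _c ∈ P2 (v i) (v j), (q - 1) := by
      rw [hsum, sum_const, smul_eq_mul, hP2, hKc]
    have hall := (sum_eq_sum_iff_of_le hle).1 hsum2
    intro c hc0 hci hcj
    have hc : c ∈ P2 (v i) (v j) := mem_filter.2 ⟨mem_univ _, hc0, hci, hcj⟩
    have h3 := hAK c hc
    have h4 := hall c hc
    omega
  by_contra hno
  have hno' : ∀ c : Fin 4 → F, c ⬝ᵥ v i = 0 → ∃ j, j ≠ i ∧ c ⬝ᵥ v j = 0 := by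
    intro c hc
    by_contra h
    apply hno
    refine ⟨c, hc, fun j hj hcj => h ⟨j, hj, hcj⟩⟩
  have hx : v i ≠ 0 := hv.one i
  have hsum := hpen1 F ι v (v i) (univ.erase i) (by
    intro k hk a b h
    exact hv.two i k (mem_erase.1 hk).1.symm a b h)
  have hKc : ((univ : Finset ι).erase i).card = q ^ 2 := by
    rw [card_erase_of_mem (mem_univ _), card_univ, hcard]
    omega
  have hterm : ∀ c ∈ P1 (v i), (A v c ∩ (univ.erase i)).card = q := by
    intro c hc
    rw [P1, mem_filter] at hc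
    obtain ⟨_, hc0, hci⟩ := hc
    obtain ⟨j, hj, hcj⟩ := hno' c hci
    have h3 := htwo j hj c hc0 hci hcj
    have hi : i ∈ A v c := mem_filter.2 ⟨mem_univ _, hci⟩
    have h4 : A v c ∩ (univ.erase i) = (A v c).erase i := by
      ext k
      simp only [mem_inter, mem_erase, mem_univ, and_true]
      tauto
    rw [h4, card_erase_of_mem hi, h3]
    omega
  rw [sum_congr rfl hterm, sum_const, smul_eq_mul, hcn1 F (v i) hx, hKc, ← hq] at hsum
  -- `(q ^ 3 - 1) * q = q ^ 2 * (q ^ 2 - 1)`
  obtain ⟨r, hr⟩ : ∃ r, q = r + 2 := ⟨q - 2, by omega⟩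
  rw [hr] at hsum
  have e1 : (r + 2) ^ 3 - 1 = (r + 2) ^ 2 * (r + 1) + (r + 1) * (r + 3) := by
    have : (r + 2) ^ 3 = (r + 2) ^ 2 * (r + 1) + (r + 1) * (r + 3) + 1 := by ring
    rw [this, Nat.add_sub_cancel]
  have e2 : (r + 2) ^ 2 - 1 = (r + 1) * (r + 3) := by
    have : (r + 2) ^ 2 = (r + 1) * (r + 3) + 1 := by ring
    rw [this, Nat.add_sub_cancel]
  rw [e1, e2] at hsum
  nlinarith [hsum, Nat.zero_le r, sq_nonneg r]

end Pool.BPA
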