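import Mathlib
import Pool.Agent.H61.BPA.Stmt

/-!
Row TWO of board `bpa`: five points of `PG(3,2)`, no four coplanar, are an elliptic quadric.
-/

set_option autoImplicit false

namespace Pool.BPA

theorem two_zo {F : Type} [Field F] [Fintype F] (hF : Fintype.card F = 2) (a : F) :
    a = 0 ∨ a = 1 := by
  classical
  have h : ({0, 1} : Finset F) = Finset.univ := by
    apply Finset.eq_univ_of_card
    rw [hF, Finset.card_pair zero_ne_one]
  have := Finset.mem_univ a
  rw [← h] at this
  simpa using this

theorem two_oo {F : Type} [Field F] [Fintype F] (hF : Fintype.card F = 2) : (1 : F) + 1 = 0 := by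
  rcases two_zo hF ((1 : F) + 1) with h | h
  · exact h
  · exact absurd (add_eq_right.mp h) one_ne_zero

/-- points over `GF(2)` are determined by their representative. -/
theorem two_rep {F : Type} [Field F]
    (p p' : Projectivization F (Fin 4 → F)) : p = p' ↔ p.rep = p'.rep := by
  constructor
  · rintro rfl; rfl
  · intro h
    rw [← p.mk_rep, ← p'.mk_rep]
    congr 1

theorem t_two : TwoStmt := by
  classical
  intro F _ _ S hF hS hI
  have h01 := two_zo hF
  have h2 := two_oo hF
  have hfin : S.Finite := Set.finite_of_ncard_ne_zero (by omega)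
  have : Finite S := hfin
  have hcard : Nat.card S = 5 := by rw [Nat.card_coe_set_eq]; exact hS
  let e := Finite.equivFinOfCardEq hcard
  let g : Fin 5 → Projectivization F (Fin 4 → F) := fun k => (e.symm k).1
  have ginj : Function.Injective g := fun a b h => e.symm.injective (Subtype.ext h)
  have gmem : ∀ k, g k ∈ S := fun k => (e.symm k).2
  have gsurj : ∀ p, p ∈ S → ∃ k, p = g k := fun p hp => ⟨e ⟨p, hp⟩, by simp [g]⟩
  have hli : LinearIndependent F (fun i : Fin 4 => (g i.castSucc).rep) :=
    hI (fun i => g i.castSucc) (fun a b h => Fin.castSucc_injective _ (ginj h)) (fun i => gmem _)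
  let b := basisOfLinearIndependentOfCardEqFinrank hli (by simp)
  have hb : ∀ i, b i = (g i.castSucc).rep := fun i => by simp [b]
  -- the coordinates of the fifth point
  have hne : ∀ i : Fin 4, b.coord i (g (Fin.last 4)).rep ≠ 0 := by
    intro i hi
    have hf : LinearIndependent F
        (fun j : Fin 4 => (if j = i then g (Fin.last 4) else g j.castSucc).rep) := by
      apply hI (fun j : Fin 4 => if j = i then g (Fin.last 4) else g j.castSucc)
      · intro a c hac
        by_cases ha : a = i <;> by_cases hc : c = i
        · rw [ha, hc]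
        · simp only [ha, hc, if_true, if_false] at hac
          exact absurd (ginj hac) (Fin.castSucc_lt_last c).ne'
        · simp only [ha, hc, if_true, if_false] at hac
          exact absurd (ginj hac) (Fin.castSucc_lt_last a).ne
        · simp only [ha, hc, if_false] at hac
          exact Fin.castSucc_injective _ (ginj hac)
      · intro j
        by_cases hj : j = i
        · simp only [hj, if_true]; exact gmem _
        · simp only [hj, if_false]; exact gmem _
    have htop := hf.span_eq_top_of_card_eq_finrank' (by simp)
    have hle : Submodule.span F (Set.range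
        (fun j : Fin 4 => (if j = i then g (Fin.last 4) else g j.castSucc).rep)) ≤
        LinearMap.ker (b.coord i) := by
      rw [Submodule.span_le]
      rintro _ ⟨j, rfl⟩
      by_cases hj : j = i
      · simp only [hj, if_true, SetLike.mem_coe, LinearMap.mem_ker]; exact hi
      · simp only [hj, if_false, SetLike.mem_coe, LinearMap.mem_ker]
        rw [← hb j, Module.Basis.coord_apply, Module.Basis.repr_self, Finsupp.single_eq_of_ne' hj]
    rw [htop] at hle
    have h1 : b.coord i (b i) = 0 := hle (Submodule.mem_top)
    rw [Module.Basis.coord_apply, Module.Basis.repr_self, Finsupp.single_eq_same] at h1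
    exact one_ne_zero h1
  have hone : ∀ i : Fin 4, b.coord i (g (Fin.last 4)).rep = 1 := fun i =>
    (h01 _).resolve_left (hne i)
  let L := QuadraticMap.linMulLin (R := F) (M := Fin 4 → F) (A := F)
  refine ⟨L (b.coord 0) (b.coord 1) + L (b.coord 0) (b.coord 2) + L (b.coord 0) (b.coord 3)
    + L (b.coord 1) (b.coord 2) + L (b.coord 1) (b.coord 3) + L (b.coord 2) (b.coord 3), ?_⟩
  intro p
  have hQ : ∀ w, (L (b.coord 0) (b.coord 1) + L (b.coord 0) (b.coord 2) + L (b.coord 0) (b.coord 3)
    + L (b.coord 1) (b.coord 2) + L (b.coord 1) (b.coord 3) + L (b.coord 2) (b.coord 3)) w =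
      b.coord 0 w * b.coord 1 w + b.coord 0 w * b.coord 2 w + b.coord 0 w * b.coord 3 w
      + b.coord 1 w * b.coord 2 w + b.coord 1 w * b.coord 3 w + b.coord 2 w * b.coord 3 w := by
    intro w
    simp [L, QuadraticMap.linMulLin_apply]
  rw [hQ]
  have hc : ∀ i j : Fin 4, b.coord i (g j.castSucc).rep = if j = i then 1 else 0 := by
    intro i j
    rw [← hb j, Module.Basis.coord_apply, Module.Basis.repr_self, Finsupp.single_apply]
  constructor
  · intro hp
    obtain ⟨k, rfl⟩ := gsurj p hp
    refine Fin.lastCases ?_ (fun j => ?_) k
    · simp only [hone]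
      linear_combination (3 : F) * h2
    · simp only [hc]
      fin_cases j <;> simp
  · intro hp
    have hall : ∀ k : Fin 5, (∀ i, b.coord i p.rep = b.coord i (g k).rep) → p ∈ S := by
      intro k hk
      have h : p.rep = (g k).rep := b.ext_elem (fun i => hk i)
      rw [(two_rep p (g k)).mpr h]
      exact gmem k
    have hnz : ¬ ∀ i, b.coord i p.rep = 0 := by
      intro h
      exact p.rep_nonzero (b.ext_elem (fun i => by
        have := h i
        rw [Module.Basis.coord_apply] at this
        rw [this]; simp))
    have hlast : (∀ i, b.coord i p.rep = 1) → p ∈ S := fun h =>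
      hall (Fin.last 4) (fun i => by rw [h i, hone i])
    have hone' : ∀ j : Fin 4, (∀ i, b.coord i p.rep = if j = i then 1 else 0) → p ∈ S :=
      fun j h => hall j.castSucc (fun i => by rw [h i, hc i j])
    have h11 : (1 : F) + 1 + 1 ≠ 0 := by
      rw [h2, zero_add]; exact one_ne_zero
    rcases h01 (b.coord 0 p.rep) with h0 | h0 <;> rcases h01 (b.coord 1 p.rep) with h1 | h1 <;>
      rcases h01 (b.coord 2 p.rep) with h2' | h2' <;> rcases h01 (b.coord 3 p.rep) with h3 | h3 <;>
      simp only [h0, h1, h2', h3, mul_zero, mul_one, add_zero, zero_add] at hp <;>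
      first
      | exact absurd hp one_ne_zero
      | exact absurd hp h11
      | (refine absurd (fun i => ?_) hnz; fin_cases i <;> assumption)
      | (refine hlast (fun i => ?_); fin_cases i <;> assumption)
      | solve | (refine hone' 0 (fun i => ?_); fin_cases i <;> simp [h0, h1, h2', h3])
      | solve | (refine hone' 1 (fun i => ?_); fin_cases i <;> simp [h0, h1, h2', h3])
      | solve | (refine hone' 2 (fun i => ?_); fin_cases i <;> simp [h0, h1, h2', h3])
      | solve | (refine hone' 3 (fun i => ?_); fin_cases i <;> simp [h0, h1, h2', h3])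

end Pool.BPA
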