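import Pool.Agent.H61.BPA.Asm
import Pool.Agent.H61.BPA.Two
import Pool.Agent.H61.BPA.Four
import Pool.Agent.H61.BPA.FourF
import Pool.Agent.H61.BPA.Aff
import Pool.Agent.H61.BPA.Qodd
import Pool.Agent.H61.BPA.Odd
import Pool.Agent.H61.BPA.Evn
import Pool.Agent.H61.BPA.Tpo
import Pool.Agent.H61.BPA.Arc
import Pool.Agent.H61.BPA.Tpe
import Pool.Agent.H61.BPA.Notg
import Pool.Agent.H61.BPA.Sec
import Pool.Agent.H61.BPA.Tpl
import Pool.Agent.H61.BPA.Pen
import Pool.Agent.H61.BPA.CN
import Pool.Agent.H61.BPA.Nuc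
import Pool.Agent.H61.BPA.Ovt
import Pool.Agent.H61.BPA.Tang
import Pool.Agent.H61.BPA.Glue
import Pool.Agent.H61.BPA.LemT
import Pool.Agent.H61.BPA.Prod
import Pool.Agent.H78.BPA.Pol
import Pool.Agent.H78.BPA.Nuc4
import Pool.Agent.H78.BPA.Span

/-! Board `bpa`: assembly.  `pole`, `aff`: every cap of `q² + 1` points, `q` even, `q ≥ 4`;
`frozen_of_even`: the frozen statement from its case `q = 2^h`, `h ≥ 3`. -/

set_option autoImplicit false

namespace Pool.BPA

theorem lemt : LemTStmt := t_lemt t_prod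

theorem nuc : NucStmt := t_nuc lemt t_span t_glue

theorem pen1 : Pen1Stmt := t_pen1 t_cn2

theorem pen2 : Pen2Stmt := t_pen2 t_cn3

theorem nuc4 : Nuc4Stmt := t_nuc4 nuc

theorem sec : SecStmt := t_sec t_tpl

theorem notg : NotgStmt := t_notg t_cn1 pen1

theorem capb : CapbStmt := t_capb notg pen2 t_tpl nuc4 sec t_cn2

theorem tpe : TpeStmt := t_tpe capb pen2 t_tpl nuc4 sec t_cn1 t_cn2

theorem tpo : TpoStmt := t_tpo t_arc pen1 pen2 t_cn1 t_cn2

theorem pol : PolStmt := t_pol tpe tpo t_tang lemt t_glue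

theorem qodd : QoddStmt := t_qodd t_fam pol t_odd

theorem pole : PoleStmt := t_pole pol t_evn

theorem aff : AffStmt := t_aff pole

theorem four : FourStmt := t_four aff

/-- The frozen statement `S11343` from the case `q = 2^h`, `h ≥ 3`. -/
theorem frozen_of_even (h : EvenStmt) : FrozenStmt := t_asm h qodd four t_two

end Pool.BPA
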