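import Mathlib
import Pool.Agent.H61.BPA.Stmt

/-!
Row ASM of board `bpa`: assembly of the cases `q` odd, `q = 2`, `q = 4`, `q = 2 ^ h ≥ 8`.
-/

set_option autoImplicit false

namespace Pool.BPA

theorem t_asm : AsmStmt := by
  classical
  intro hE hQ h4 h2 F _ _ S hS hcap htwo
  by_cases hc : (2 : F) = 0
  · -- characteristic 2
    obtain ⟨p, hp⟩ := CharP.exists F
    obtain ⟨n, hpp, hn⟩ := FiniteField.card F p
    have hp2 : p = 2 := by
      have h := (CharP.cast_eq_zero_iff F p 2).mp (by exact_mod_cast hc)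
      exact (Nat.prime_dvd_prime_iff_eq hpp Nat.prime_two).mp h
    subst hp2
    rcases Nat.lt_or_ge (n : ℕ) 3 with h3 | h3
    · have hn0 := n.pos
      have h12 : (n : ℕ) = 1 ∨ (n : ℕ) = 2 := by omega
      rcases h12 with h | h
      · have hF : Fintype.card F = 2 := by rw [hn, h]; norm_num
        exact Or.inl (h2 F S hF (by rw [hS, hF]; norm_num) (htwo hF))
      · have hF : Fintype.card F = 4 := by rw [hn, h]; norm_num
        exact Or.inl (h4 F S hF (by rw [hS, hF]; norm_num) (hcap (by rw [hF]; norm_num)))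
    · have hF : Fintype.card F ≠ 2 := by
        rw [hn]
        have : 2 ^ 3 ≤ 2 ^ (n : ℕ) := Nat.pow_le_pow_right (by norm_num) h3
        omega
      exact hE F S n h3 hn hS (hcap hF)
  · have hF : Fintype.card F ≠ 2 := by
      intro h
      apply hc
      have h1 : ((Fintype.card F : ℕ) : F) = 0 := FiniteField.cast_card_eq_zero F
      rw [h] at h1
      exact_mod_cast h1
    exact Or.inl (hQ F S hc hS (hcap hF))

end Pool.BPA
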