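import Pool.Agent.H61.BPA.Ovl

/-! CAPB: Bose's bound for `q` even, `q ≥ 4`. -/

set_option autoImplicit false
set_option linter.unusedSectionVars false

namespace Pool.BPA

open Finset

open Classical in
/-- a cap with more than `q² + 1` points extends. -/
theorem ext_of_big (hnotg : NotgStmt) (hpen2 : Pen2Stmt) (htpl : TplStmt) (hnuc4 : Nuc4Stmt)
    (hsec : SecStmt) (hcn2 : CN2Stmt) {F : Type} [Field F] [Fintype F] [CharP F 2]
    {ι : Type} [Fintype ι] {v : ι → Fin 4 → F} (hq : 4 ≤ Fintype.card F) (hv : Cap F v)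
    (hn : Fintype.card F ^ 2 + 2 ≤ Fintype.card ι) :
    ∃ N : Fin 4 → F, N ≠ 0 ∧ ∀ i j, ∀ a b : F, N ≠ a • v i + b • v j := by
  by_contra hno
  push Not at hno
  have hne : Nonempty ι := Fintype.card_pos_iff.1 (by omega)
  obtain ⟨i, w, h1, h2⟩ := hnotg F ι v hq hv hne
  obtain ⟨c, hc, hci, hcw, hcard⟩ := oval_of_tan hcn2 hpen2 htpl hv (by omega) h1 h2
  obtain ⟨N, hN0, hcN, hN1, hN2⟩ := hnuc4 F ι v hv c hc hcard
  obtain ⟨k, l, a, b, hN⟩ := hno N hN0
  have hiA : i ∈ A v c := by simp [A, hci]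
  have hkl : k ≠ l := by
    rintro rfl
    apply hN1 i hiA k 0 (a + b)
    rw [hN, zero_smul, zero_add, add_smul]
  have := (sec_sum hcn2 hpen2 hv hkl (fun c' hc' hk hl =>
    hsec F ι v hv c N hc hN0 hcN hcard hN1 hN2 c' hc' (by
      rw [hN, dotProduct_add, dotProduct_smul, dotProduct_smul, hk, hl]; simp))).1
  omega

open Classical in
theorem t_capb (hnotg : NotgStmt) (hpen2 : Pen2Stmt) (htpl : TplStmt) (hnuc4 : Nuc4Stmt)
    (hsec : SecStmt) (hcn2 : CN2Stmt) : CapbStmt := by
  intro F _ _ _ ι _ v hq hv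
  by_contra hbig
  push Not at hbig
  let P : ℕ → Prop := fun n => ∃ v : Fin n → Fin 4 → F, Cap F v
  have hP0 : P (Fintype.card ι) := by
    refine ⟨v ∘ (Fintype.equivFin ι).symm, ?_, ?_, ?_⟩
    · intro i; exact hv.one _
    · intro i j hij; exact hv.two _ _ (fun h => hij ((Fintype.equivFin ι).symm.injective h))
    · intro i j k hij hik hjk
      exact hv.three _ _ _ (fun h => hij ((Fintype.equivFin ι).symm.injective h))
        (fun h => hik ((Fintype.equivFin ι).symm.injective h))
        (fun h => hjk ((Fintype.equivFin ι).symm.injective h))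
  have hbd : ∀ n, P n → n ≤ Fintype.card (Fin 4 → F) := by
    rintro n ⟨u, hu⟩
    have hinj : Function.Injective u := by
      intro i j hij
      by_contra hne
      have := hu.two i j hne 1 (-1) (by rw [hij, one_smul, neg_smul, one_smul]; simp)
      exact one_ne_zero this.1
    simpa using Fintype.card_le_of_injective u hinj
  set n0 := Nat.findGreatest P (Fintype.card (Fin 4 → F)) with hn0
  have h1 : P n0 := Nat.findGreatest_spec (hbd _ hP0) hP0
  have h2 : Fintype.card ι ≤ n0 := Nat.le_findGreatest (hbd _ hP0) hP0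
  obtain ⟨u, hu⟩ := h1
  obtain ⟨N, hN0, hN⟩ := ext_of_big hnotg hpen2 htpl hnuc4 hsec hcn2 hq hu (by
    rw [Fintype.card_fin]; omega)
  have h3 := cap_option hu hN0 hN
  have h4 : P (n0 + 1) := by
    have e : Fintype.card (Option (Fin n0)) = n0 + 1 := by simp
    refine ⟨(fun o : Option (Fin n0) => o.elim N u) ∘ (Fintype.equivFinOfCardEq e).symm, ?_, ?_, ?_⟩
    · intro i; exact h3.one _
    · intro i j hij
      exact h3.two _ _ (fun h => hij ((Fintype.equivFinOfCardEq e).symm.injective h))
    · intro i j k hij hik hjk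
      exact h3.three _ _ _ (fun h => hij ((Fintype.equivFinOfCardEq e).symm.injective h))
        (fun h => hik ((Fintype.equivFinOfCardEq e).symm.injective h))
        (fun h => hjk ((Fintype.equivFinOfCardEq e).symm.injective h))
  have h5 := Nat.le_findGreatest (hbd _ h4) h4
  omega

end Pool.BPA
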