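import Pool.Agent.H61.BPA.Stmt

/-! Counting lemmas for caps: lines through a point of the cap. -/

set_option autoImplicit false
set_option linter.unusedSectionVars false

namespace Pool.BPA

open Finset

section
variable {F : Type} [Field F] [Fintype F] {ι : Type} {W : Type} [AddCommGroup W] [Module F W]

open Classical in
/-- the injection `(j, l, a) ↦ l v j + a v i`. -/
theorem cnt_le {v : ι → W} (hv : Cap F v) (i : ι) (J : Finset ι) (hJ : ∀ j ∈ J, j ≠ i)
    (G : Finset W) (hG : ∀ j ∈ J, ∀ l : F, l ≠ 0 → ∀ a : F, l • v j + a • v i ∈ G) :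
    J.card * ((Fintype.card F - 1) * Fintype.card F) ≤ G.card := by
  have h1 : ((J ×ˢ ((univ.erase (0 : F)) ×ˢ (univ : Finset F))) :
      Finset (ι × F × F)).card = J.card * ((Fintype.card F - 1) * Fintype.card F) := by
    rw [card_product, card_product, card_erase_of_mem (mem_univ _), card_univ]
  rw [← h1]
  apply Finset.card_le_card_of_injOn (fun x => x.2.1 • v x.1 + x.2.2 • v i)
  · intro x hx
    have hx' := mem_product.1 (mem_coe.1 hx)
    have hx2 := mem_product.1 hx'.2
    exact hG _ hx'.1 _ (mem_erase.1 hx2.1).1 _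
  · intro x hx y hy hxy
    have hx' := mem_product.1 (mem_coe.1 hx)
    have hx2 := mem_product.1 hx'.2
    have hy' := mem_product.1 (mem_coe.1 hy)
    have hy2 := mem_product.1 hy'.2
    obtain ⟨j, l, a⟩ := x
    obtain ⟨j', l', a'⟩ := y
    simp only at hxy hx' hx2 hy' hy2
    have hl : l ≠ 0 := (mem_erase.1 hx2.1).1
    by_cases hjj : j = j'
    · subst hjj
      have h2 : (l - l') • v j + (a - a') • v i = 0 := by
        rw [sub_smul, sub_smul]
        have : l • v j + a • v i - (l' • v j + a' • v i) = 0 := sub_eq_zero.2 hxy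
        rw [← this]; abel
      obtain ⟨h3, h4⟩ := hv.two j i (hJ j hx'.1) _ _ h2
      rw [sub_eq_zero.1 h3, sub_eq_zero.1 h4]
    · exfalso
      have h2 : l • v j + (-l') • v j' + (a - a') • v i = 0 := by
        rw [sub_smul, neg_smul]
        have : l • v j + a • v i - (l' • v j' + a' • v i) = 0 := sub_eq_zero.2 hxy
        rw [← this]; abel
      exact hl (hv.three j j' i hjj (hJ j hx'.1) (hJ j' hy'.1) _ _ _ h2).1

open Classical in
/-- surjectivity gives the other inequality. -/
theorem cnt_ge {v : ι → W} (i : ι) (J : Finset ι)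
    (G : Finset W) (hG : ∀ w ∈ G, ∃ j ∈ J, ∃ l : F, l ≠ 0 ∧ ∃ a : F, w = l • v j + a • v i) :
    G.card ≤ J.card * ((Fintype.card F - 1) * Fintype.card F) := by
  have h1 : ((J ×ˢ ((univ.erase (0 : F)) ×ˢ (univ : Finset F))) :
      Finset (ι × F × F)).card = J.card * ((Fintype.card F - 1) * Fintype.card F) := by
    rw [card_product, card_product, card_erase_of_mem (mem_univ _), card_univ]
  rw [← h1]
  refine le_trans (card_le_card ?_) (card_image_le (f := fun x : ι × F × F =>
    x.2.1 • v x.1 + x.2.2 • v i))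
  intro w hw
  obtain ⟨j, hj, l, hl, a, hw⟩ := hG w hw
  exact mem_image.2 ⟨(j, l, a), mem_product.2 ⟨hj, mem_product.2
    ⟨mem_erase.2 ⟨hl, mem_univ _⟩, mem_univ _⟩⟩, hw.symm⟩

end

section
variable {F : Type} [Field F] [Fintype F]

theorem card4 : Fintype.card (Fin 4 → F) = Fintype.card F ^ 4 := by
  simp

theorem qpos : 2 ≤ Fintype.card F := Fintype.one_lt_card

open Classical in
/-- multiples of a vector. -/
noncomputable def mul1 (x : Fin 4 → F) : Finset (Fin 4 → F) :=
  univ.filter fun w => ∃ a : F, w = a • x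

open Classical in
theorem card_mul1 {x : Fin 4 → F} (hx : x ≠ 0) : (mul1 x).card = Fintype.card F := by
  have : mul1 x = (univ : Finset F).image fun a => a • x := by
    ext w
    simp only [mul1, mem_filter, mem_univ, true_and, mem_image]
    constructor
    · rintro ⟨a, rfl⟩; exact ⟨a, rfl⟩
    · rintro ⟨a, rfl⟩; exact ⟨a, rfl⟩
  rw [this, card_image_of_injective, card_univ]
  intro a b hab
  exact smul_left_injective F hx hab

open Classical in
/-- combinations of two vectors. -/
noncomputable def mul2 (x y : Fin 4 → F) : Finset (Fin 4 → F) :=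
  univ.filter fun w => ∃ a b : F, w = a • x + b • y

open Classical in
theorem card_mul2 {x y : Fin 4 → F} (h : ∀ a b : F, a • x + b • y = 0 → a = 0 ∧ b = 0) :
    (mul2 x y).card = Fintype.card F ^ 2 := by
  have : mul2 x y = (univ : Finset (F × F)).image fun a => a.1 • x + a.2 • y := by
    ext w
    simp only [mul2, mem_filter, mem_univ, true_and, mem_image, Prod.exists]
    constructor
    · rintro ⟨a, b, rfl⟩; exact ⟨a, b, rfl⟩
    · rintro ⟨a, b, rfl⟩; exact ⟨a, b, rfl⟩
  rw [this, card_image_of_injective, card_univ, Fintype.card_prod, sq]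
  rintro ⟨a, b⟩ ⟨a', b'⟩ hab
  simp only at hab
  have h2 : (a - a') • x + (b - b') • y = 0 := by
    rw [sub_smul, sub_smul]
    have : a • x + b • y - (a' • x + b' • y) = 0 := sub_eq_zero.2 hab
    rw [← this]; abel
  obtain ⟨h3, h4⟩ := h _ _ h2
  rw [sub_eq_zero.1 h3, sub_eq_zero.1 h4]

open Classical in
/-- the vectors of a plane. -/
noncomputable def perp (c : Fin 4 → F) : Finset (Fin 4 → F) :=
  univ.filter fun w => c ⬝ᵥ w = 0

open Classical in
theorem card_perp (h : CN1Stmt) {c : Fin 4 → F} (hc : c ≠ 0) :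
    (perp c).card = Fintype.card F ^ 3 := by
  have h1 := h F c hc
  have h2 : perp c = insert 0 (P1 c) := by
    ext w
    simp only [perp, P1, mem_filter, mem_univ, true_and, mem_insert]
    rw [dotProduct_comm w c]
    constructor
    · intro hw
      by_cases h0 : w = 0
      · exact Or.inl h0
      · exact Or.inr ⟨h0, hw⟩
    · rintro (rfl | ⟨-, hw⟩)
      · simp
      · exact hw
  have h3 : (0 : Fin 4 → F) ∉ P1 c := by simp [P1]
  rw [h2, card_insert_of_notMem h3, h1]
  have : 0 < Fintype.card F ^ 3 := pow_pos Fintype.card_pos 3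
  omega

open Classical in
/-- sets of nonzero vectors stable under scalars. -/
theorem dvd_card_of_stable (X : Finset (Fin 4 → F)) (h0 : (0 : Fin 4 → F) ∉ X)
    (hX : ∀ c ∈ X, ∀ a : F, a ≠ 0 → a • c ∈ X) :
    (Fintype.card F - 1) ∣ X.card := by
  rw [card_eq_sum_card_image (fun c => Submodule.span F {c}) X]
  apply Finset.dvd_sum
  intro s hs
  obtain ⟨c, hc, rfl⟩ := mem_image.1 hs
  have hc0 : c ≠ 0 := fun h => h0 (h ▸ hc)
  have : (X.filter fun c' => Submodule.span F {c'} = Submodule.span F {c}) =
      (univ.erase (0 : F)).image fun a => a • c := by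
    ext c'
    simp only [mem_filter, mem_image, mem_erase, mem_univ, and_true]
    constructor
    · rintro ⟨-, h2⟩
      obtain ⟨z, hz⟩ := Submodule.span_singleton_eq_span_singleton.1 h2.symm
      exact ⟨z, z.ne_zero, hz⟩
    · rintro ⟨a, ha, rfl⟩
      refine ⟨hX c hc a ha, ?_⟩
      rw [eq_comm, Submodule.span_singleton_eq_span_singleton]
      exact ⟨Units.mk0 a ha, rfl⟩
  rw [this, card_image_of_injective _ (smul_left_injective F hc0),
    card_erase_of_mem (mem_univ _), card_univ]

end

end Pool.BPA
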