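import Mathlib
import Pool.Agent.H61.BPA.Stmt
import Pool.Agent.H61.BPA.Tang
import Pool.Agent.H61.BPA.Ovt

/-!
# NUC: the nucleus of an oval, `q` even.
-/

set_option autoImplicit false

namespace Pool.BPA

open Finset

/-- An alternating form on a space with `q ^ 3` elements is degenerate. -/
theorem alt_deg {F : Type} [Field F] [Fintype F] {W : Type} [AddCommGroup W] [Module F W]
    [Fintype W] (hW : Fintype.card W = Fintype.card F ^ 3) (B : W →ₗ[F] W →ₗ[F] F)
    (hs : ∀ x y, B x y = B y x) (ha : ∀ w, B w w = 0) : ∃ N : W, N ≠ 0 ∧ ∀ y, B N y = 0 := by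
  classical
  have hq : 2 ≤ Fintype.card F := Fintype.one_lt_card
  have : Nontrivial W := by
    rw [← Fintype.one_lt_card_iff_nontrivial, hW]
    nlinarith [Nat.mul_le_mul hq (Nat.mul_le_mul hq hq)]
  obtain ⟨x, hx⟩ := exists_ne (0 : W)
  by_cases hxy : ∀ y, B x y = 0
  · exact ⟨x, hx, hxy⟩
  push Not at hxy
  obtain ⟨y, hy⟩ := hxy
  have hnot : ¬ Function.Injective (fun w : W => ((B x w, B y w) : F × F)) := by
    intro hinj
    have h1 := Fintype.card_le_of_injective _ hinj
    rw [Fintype.card_prod, hW] at h1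
    nlinarith [Nat.mul_le_mul hq (Nat.mul_le_mul hq hq)]
  rw [Function.Injective] at hnot
  push Not at hnot
  obtain ⟨w, w', h1, h2⟩ := hnot
  have h3 : B x w = B x w' := congrArg Prod.fst h1
  have h4 : B y w = B y w' := congrArg Prod.snd h1
  have hu : w - w' ≠ 0 := sub_ne_zero.2 h2
  have hxu : B x (w - w') = 0 := by rw [map_sub, h3, sub_self]
  have hyu : B y (w - w') = 0 := by rw [map_sub, h4, sub_self]
  refine ⟨w - w', hu, ?_⟩
  have hinj : Function.Injective
      (fun p : F × F × F => p.1 • x + p.2.1 • y + p.2.2 • (w - w')) := by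
    rintro ⟨a, b, c⟩ ⟨a', b', c'⟩ h
    have h5 : a • x + b • y + c • (w - w') = a' • x + b' • y + c' • (w - w') := h
    have h6 : (a - a') • x + (b - b') • y + (c - c') • (w - w') = 0 := by
      have h7 : (a - a') • x + (b - b') • y + (c - c') • (w - w') =
        (a • x + b • y + c • (w - w')) - (a' • x + b' • y + c' • (w - w')) := by
        rw [sub_smul, sub_smul, sub_smul]; abel
      rw [h7, h5, sub_self]
    have hb : b - b' = 0 := by
      have h7 := congrArg (B x) h6
      rw [map_add, map_add, map_smul, map_smul, map_smul, ha, hxu, map_zero] at h7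
      simp only [smul_eq_mul, mul_zero, zero_add, add_zero] at h7
      exact (mul_eq_zero.1 h7).resolve_right hy
    have hc' : a - a' = 0 := by
      have h7 := congrArg (B y) h6
      rw [map_add, map_add, map_smul, map_smul, map_smul, ha, hyu, map_zero, hs y x] at h7
      simp only [smul_eq_mul, mul_zero, add_zero] at h7
      exact (mul_eq_zero.1 h7).resolve_right hy
    rw [hb, hc', zero_smul, zero_smul, zero_add, zero_add] at h6
    have hc := (smul_eq_zero.1 h6).resolve_right hu
    rw [sub_eq_zero.1 hb, sub_eq_zero.1 hc', sub_eq_zero.1 hc]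
  have hsur := ((Fintype.bijective_iff_injective_and_card _).2 ⟨hinj, by
    rw [Fintype.card_prod, Fintype.card_prod, hW]; ring⟩).2
  intro z
  obtain ⟨⟨a, b, c⟩, h⟩ := hsur z
  have h5 : a • x + b • y + c • (w - w') = z := h
  rw [← h5, map_add, map_add, map_smul, map_smul, map_smul, ha, hs (w - w') x, hs (w - w') y,
    hxu, hyu]
  simp

/-- In characteristic two a symmetric form vanishing on the diagonal of a spanning set is
alternating. -/
theorem alt_of_span_nuc {F : Type} [Field F] [CharP F 2] {ι W : Type} [AddCommGroup W] [Module F W]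
    {v : ι → W} (hsp : Submodule.span F (Set.range v) = ⊤) (B : W →ₗ[F] W →ₗ[F] F)
    (hs : ∀ x y, B x y = B y x) (hv : ∀ i, B (v i) (v i) = 0) (w : W) : B w w = 0 := by
  have hw : w ∈ Submodule.span F (Set.range v) := by rw [hsp]; trivial
  induction hw using Submodule.span_induction with
  | mem x hx =>
    obtain ⟨i, rfl⟩ := hx
    exact hv i
  | zero => simp
  | add x y _ _ hx hy =>
    rw [map_add, map_add, LinearMap.add_apply, LinearMap.add_apply, hx, hy, hs y x, zero_add,
      add_zero]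
    exact CharTwo.add_self_eq_zero _
  | smul a x _ hx => rw [map_smul, map_smul, LinearMap.smul_apply, hx, smul_zero, smul_zero]

theorem t_nuc (hL : LemTStmt) (hS : SpanStmt) (hG : GlueStmt) : NucStmt := by
  classical
  intro F _ _ _ ι _ W _ _ _ v hv h1 h2
  have hq : 2 ≤ Fintype.card F := Fintype.one_lt_card
  have hT := t_ovt F ι W v hv h1 h2
  choose T hT1 hT2 using hT
  have hc : (Fintype.card ι - 1) * Fintype.card F ^ 2 = Fintype.card W := by
    rw [h1, h2, Nat.add_sub_cancel]; ring
  have hTan : Tan v T := ⟨hT1, fun i j hij => hT2 i j (Ne.symm hij),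
    fun i w hw => t_tang F ι W v hv hc i (T i) (hT1 i) (hT2 i) w hw⟩
  obtain ⟨i0, j0, hij0⟩ : ∃ i j : ι, i ≠ j := Fintype.one_lt_card_iff.1 (by omega)
  have hsp := hS F ι W v T hv hTan ⟨i0, j0, hij0⟩
  obtain ⟨B, hs, hB⟩ := hG F ι W v T hv hTan hsp (hL F ι W v T hv hTan)
  have hBv : ∀ i, B (v i) (v i) = 0 := fun i => by
    obtain ⟨c, -, h⟩ := hB i
    rw [h, LinearMap.smul_apply, hT1, smul_zero]
  obtain ⟨N, hN0, hN⟩ := alt_deg h2 B hs (alt_of_span_nuc hsp B hs hBv)
  have hTN : ∀ i, T i N = 0 := fun i => by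
    obtain ⟨c, hc0, h⟩ := hB i
    have h3 : B (v i) N = 0 := by rw [hs]; exact hN _
    rw [h, LinearMap.smul_apply, smul_eq_mul] at h3
    exact (mul_eq_zero.1 h3).resolve_left hc0
  have hNij : ∀ i j, ∀ a b : F, N ≠ a • v i + b • v j := by
    intro i j a b h
    by_cases hij : i = j
    · subst hij
      obtain ⟨l, hl⟩ : ∃ l, l ≠ i := by
        by_cases h3 : i0 = i
        · exact ⟨j0, fun h4 => hij0 (h3.trans h4.symm)⟩
        · exact ⟨i0, h3⟩
      have h3 := hTN l
      rw [h, ← add_smul, map_smul, smul_eq_mul] at h3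
      have h4 := (mul_eq_zero.1 h3).resolve_right (hT2 l i (Ne.symm hl))
      exact hN0 (by rw [h, ← add_smul, h4, zero_smul])
    · have h3 := hTN i
      have h4 := hTN j
      rw [h, map_add, map_smul, map_smul, hT1, smul_eq_mul, smul_eq_mul] at h3 h4
      rw [mul_zero, zero_add] at h3
      rw [mul_zero, add_zero] at h4
      have h5 := (mul_eq_zero.1 h3).resolve_right (hT2 i j (Ne.symm hij))
      have h6 := (mul_eq_zero.1 h4).resolve_right (hT2 j i hij)
      exact hN0 (by rw [h, h5, h6, zero_smul, zero_smul, add_zero])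
  refine ⟨N, hN0, hNij, fun w hw => ?_⟩
  -- the count
  let φ : ι × {b : F // b ≠ 0} × F → {u : W // ¬ ∃ a : F, u = a • N} := fun p =>
    ⟨p.2.1.1 • v p.1 + p.2.2 • N, by
      rintro ⟨a, ha⟩
      have hb := p.2.1.2
      have h3 : p.2.1.1 • v p.1 = (a - p.2.2) • N := by rw [sub_smul, ← ha]; abel
      by_cases h4 : a - p.2.2 = 0
      · rw [h4, zero_smul] at h3
        exact (smul_ne_zero hb (hv.one p.1)) h3
      · refine hNij p.1 p.1 ((a - p.2.2)⁻¹ * p.2.1.1) 0 ?_
        rw [zero_smul, add_zero, mul_smul, h3, smul_smul, inv_mul_cancel₀ h4, one_smul]⟩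
  have hφ : Function.Injective φ := by
    rintro ⟨i, ⟨b, hb⟩, c⟩ ⟨j, ⟨b', hb'⟩, c'⟩ h
    have h3 : b • v i + c • N = b' • v j + c' • N := congrArg Subtype.val h
    have h4 : b • v i + (-b') • v j = (c' - c) • N := by
      rw [neg_smul, sub_smul]
      have h5 : b • v i + -(b' • v j) = (b • v i + c • N) - (b' • v j + c' • N) +
        (c' • N - c • N) := by abel
      rw [h5, h3, sub_self, zero_add]
    have h5 : c' - c = 0 := by
      by_contra h6
      refine hNij i j ((c' - c)⁻¹ * b) ((c' - c)⁻¹ * (-b')) ?_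
      rw [mul_smul, mul_smul, ← smul_add, h4, smul_smul, inv_mul_cancel₀ h6, one_smul]
    rw [h5, zero_smul] at h4
    by_cases hij : i = j
    · subst hij
      rw [← add_smul] at h4
      have h6 := (smul_eq_zero.1 h4).resolve_right (hv.one i)
      have h7 : b = b' := by
        rw [← sub_eq_add_neg] at h6
        exact sub_eq_zero.1 h6
      subst h7
      rw [sub_eq_zero.1 h5]
    · exact absurd (hv.two i j hij _ _ h4).1 hb
  have hcomp : Fintype.card {u : W // ∃ a : F, u = a • N} = Fintype.card F := by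
    refine (Fintype.card_of_bijective
      (f := fun a : F => (⟨a • N, a, rfl⟩ : {u : W // ∃ a : F, u = a • N})) ⟨?_, ?_⟩).symm
    · intro a b h
      have h3 : a • N = b • N := congrArg Subtype.val h
      have h4 : (a - b) • N = 0 := by rw [sub_smul, h3, sub_self]
      exact sub_eq_zero.1 ((smul_eq_zero.1 h4).resolve_right hN0)
    · rintro ⟨u, a, rfl⟩
      exact ⟨a, rfl⟩
  have hcard : Fintype.card (ι × {b : F // b ≠ 0} × F) =
      Fintype.card {u : W // ¬ ∃ a : F, u = a • N} := by
    rw [Fintype.card_subtype_compl, hcomp, Fintype.card_prod, Fintype.card_prod,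
      Fintype.card_subtype_compl, Fintype.card_subtype_eq, h1, h2]
    obtain ⟨m, hm⟩ : ∃ m, Fintype.card F = m + 1 := ⟨Fintype.card F - 1, by omega⟩
    rw [hm, Nat.add_sub_cancel]
    have h3 : (m + 1) ^ 3 = (m + 1 + 1) * (m * (m + 1)) + (m + 1) := by ring
    rw [h3, Nat.add_sub_cancel]
  obtain ⟨⟨i, ⟨b, hb⟩, c⟩, h⟩ := ((Fintype.bijective_iff_injective_and_card φ).2 ⟨hφ, hcard⟩).2
    ⟨w, fun ⟨a, ha⟩ => hw a ha⟩
  have h3 : b • v i + c • N = w := congrArg Subtype.val h
  refine ⟨i, -(b⁻¹ * c), b⁻¹, ?_⟩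
  rw [← h3, smul_add, smul_smul, smul_smul, inv_mul_cancel₀ hb, one_smul, neg_smul]
  abel

end Pool.BPA
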