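import Pool.Agent.H61.BPA.Cnt

/-! Oval sections: shared lemmas of CAPB and TPE. -/

set_option autoImplicit false
set_option linter.unusedSectionVars false

namespace Pool.BPA

open Finset

section
variable {F : Type} [Field F] [Fintype F] {ι : Type} [Fintype ι]

theorem ind_of {c c' : Fin 4 → F} (hc : c ≠ 0) (h : ∀ a : F, c' ≠ a • c) :
    ∀ a b : F, a • c + b • c' = 0 → a = 0 ∧ b = 0 := by
  intro a b hab
  have hb : b = 0 := by
    by_contra hb
    apply h (-(b⁻¹ * a))
    have : c' = b⁻¹ • (b • c') := by rw [smul_smul, inv_mul_cancel₀ hb, one_smul]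
    rw [this, eq_neg_of_add_eq_zero_right hab, smul_neg, smul_smul, neg_smul]
  subst hb
  rw [zero_smul, add_zero] at hab
  rcases smul_eq_zero.1 hab with h1 | h1
  · exact ⟨h1, rfl⟩
  · exact absurd h1 hc

theorem tan_ind3 {v : ι → Fin 4 → F} (hv : Cap F v) {i : ι} {w : Fin 4 → F}
    (h1 : ∀ a : F, w ≠ a • v i) (h2 : ∀ j, j ≠ i → ∀ a b : F, v j ≠ a • v i + b • w) :
    ∀ k, k ≠ i → ∀ a b c : F, a • v i + b • w + c • v k = 0 → a = 0 ∧ b = 0 ∧ c = 0 := by
  intro k hk a b c h
  have hc : c = 0 := by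
    by_contra hc
    apply h2 k hk (-(c⁻¹ * a)) (-(c⁻¹ * b))
    have e : v k = c⁻¹ • (c • v k) := by rw [smul_smul, inv_mul_cancel₀ hc, one_smul]
    rw [e, eq_neg_of_add_eq_zero_right h]
    module
  subst hc
  rw [zero_smul, add_zero] at h
  obtain ⟨h3, h4⟩ := ind_of (hv.one i) h1 a b h
  exact ⟨h3, h4, rfl⟩

theorem cap_option {v : ι → Fin 4 → F} (hv : Cap F v) {N : Fin 4 → F} (hN0 : N ≠ 0)
    (hN : ∀ i j, ∀ a b : F, N ≠ a • v i + b • v j) :
    Cap F (fun o : Option ι => o.elim N v) := by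
  have key : ∀ i j, i ≠ j → ∀ a b c : F, a • N + b • v i + c • v j = 0 →
      a = 0 ∧ b = 0 ∧ c = 0 := by
    intro i j hij a b c h
    have ha : a = 0 := by
      by_contra ha
      apply hN i j (-(a⁻¹ * b)) (-(a⁻¹ * c))
      have e : N = a⁻¹ • (a • N) := by rw [smul_smul, inv_mul_cancel₀ ha, one_smul]
      have e2 : a • N = -(b • v i + c • v j) := by
        rw [eq_neg_iff_add_eq_zero, ← h]; abel
      rw [e, e2]
      module
    subst ha
    rw [zero_smul, zero_add] at h
    exact ⟨rfl, hv.two i j hij b c h⟩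
  have key2 : ∀ i, ∀ a b : F, a • N + b • v i = 0 → a = 0 ∧ b = 0 := by
    intro i a b h
    apply ind_of hN0 _ a b h
    intro c hc
    by_cases hc0 : c = 0
    · subst hc0
      rw [zero_smul] at hc
      exact hv.one i hc
    · apply hN i i c⁻¹ 0
      rw [hc, smul_smul, inv_mul_cancel₀ hc0, one_smul, zero_smul, add_zero]
  refine ⟨?_, ?_, ?_⟩
  · rintro (_ | i)
    · exact hN0
    · exact hv.one i
  · rintro (_ | i) (_ | j) hij a b h
    · exact absurd rfl hij
    · exact key2 j a b h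
    · have := key2 i b a (by rw [← h]; exact add_comm _ _)
      exact ⟨this.2, this.1⟩
    · exact hv.two i j (fun hh => hij (by rw [hh])) a b h
  · rintro (_ | i) (_ | j) (_ | k) hij hik hjk a b c h
    · exact absurd rfl hij
    · exact absurd rfl hij
    · exact absurd rfl hik
    · exact key j k (fun hh => hjk (by rw [hh])) a b c h
    · exact absurd rfl hjk
    · have := key i k (fun hh => hik (by rw [hh])) b a c (by
        rw [← h]; simp only [Option.elim]; abel)
      exact ⟨this.2.1, this.1, this.2.2⟩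
    · have := key i j (fun hh => hij (by rw [hh])) c a b (by
        rw [← h]; simp only [Option.elim]; abel)
      exact ⟨this.2.1, this.2.2, this.1⟩
    · exact hv.three i j k (fun hh => hij (by rw [hh])) (fun hh => hik (by rw [hh]))
        (fun hh => hjk (by rw [hh])) a b c h

open Classical in
theorem card_inter_erase {v : ι → Fin 4 → F} {c : Fin 4 → F} {i : ι} (hi : c ⬝ᵥ v i = 0) :
    (A v c ∩ univ.erase i).card + 1 = (A v c).card := by
  have h1 : A v c ∩ univ.erase i = (A v c).erase i := by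
    ext x; simp [and_comm]
  have h2 : i ∈ A v c := by simp [A, hi]
  rw [h1, card_erase_add_one h2]

open Classical in
theorem card_inter_sdiff {v : ι → Fin 4 → F} {c : Fin 4 → F} {i j : ι} (hij : i ≠ j)
    (hi : c ⬝ᵥ v i = 0) (hj : c ⬝ᵥ v j = 0) :
    (A v c ∩ ((univ.erase i).erase j)).card + 2 = (A v c).card := by
  have h1 : A v c ∩ ((univ.erase i).erase j) = ((A v c).erase i).erase j := by
    ext x; simp only [mem_inter, mem_erase, mem_univ, and_true]; tauto
  have h2 : i ∈ A v c := by simp [A, hi]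
  have h3 : j ∈ (A v c).erase i := by simp [A, hj, Ne.symm hij]
  have h4 := card_erase_add_one h2
  have h5 := card_erase_add_one h3
  rw [h1]; omega

open Classical in
/-- OVAL: a plane with `q + 1` points through a tangent line. -/
theorem oval_of_tan (hcn2 : CN2Stmt) (hpen2 : Pen2Stmt) (htpl : TplStmt)
    {v : ι → Fin 4 → F} (hv : Cap F v) (hn : Fintype.card F ^ 2 + 1 ≤ Fintype.card ι)
    {i : ι} {w : Fin 4 → F} (h1 : ∀ a : F, w ≠ a • v i)
    (h2 : ∀ j, j ≠ i → ∀ a b : F, v j ≠ a • v i + b • w) :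
    ∃ c : Fin 4 → F, c ≠ 0 ∧ c ⬝ᵥ v i = 0 ∧ c ⬝ᵥ w = 0 ∧
      (A v c).card = Fintype.card F + 1 := by
  by_contra hno
  have hq := qpos (F := F)
  have hle : ∀ c ∈ P2 (v i) w, (A v c ∩ univ.erase i).card ≤ Fintype.card F - 1 := by
    intro c hc
    simp only [P2, mem_filter, mem_univ, true_and] at hc
    have h3 := htpl F ι v hv i w h1 h2 c hc.1 hc.2.1 hc.2.2
    have h4 := card_inter_erase (v := v) hc.2.1
    have h5 : (A v c).card ≠ Fintype.card F + 1 := fun h => hno ⟨c, hc.1, hc.2.1, hc.2.2, h⟩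
    omega
  have h3 := hpen2 F ι v (v i) w (univ.erase i) (fun k hk a b c h =>
    tan_ind3 hv h1 h2 k (mem_erase.1 hk).1 a b c h)
  have h4 := Finset.sum_le_card_nsmul _ _ _ hle
  rw [h3, hcn2 F (v i) w (ind_of (hv.one i) h1), card_erase_of_mem (mem_univ _), card_univ,
    smul_eq_mul] at h4
  have h5 := Nat.le_of_mul_le_mul_right h4 (by omega)
  have h6 : 0 < Fintype.card F ^ 2 := by positivity
  omega

open Classical in
/-- all the planes through a secant through the nucleus. -/
theorem sec_sum (hcn2 : CN2Stmt) (hpen2 : Pen2Stmt)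
    {v : ι → Fin 4 → F} (hv : Cap F v) {k l : ι} (hkl : k ≠ l)
    (hle : ∀ c : Fin 4 → F, c ≠ 0 → c ⬝ᵥ v k = 0 → c ⬝ᵥ v l = 0 →
      (A v c).card ≤ Fintype.card F + 1) :
    Fintype.card ι ≤ Fintype.card F ^ 2 + 1 ∧
    (Fintype.card ι = Fintype.card F ^ 2 + 1 → ∀ c : Fin 4 → F, c ≠ 0 → c ⬝ᵥ v k = 0 →
      c ⬝ᵥ v l = 0 → (A v c).card = Fintype.card F + 1) := by
  have hq := qpos (F := F)
  have h3 := hpen2 F ι v (v k) (v l) ((univ.erase k).erase l) (fun m hm a b c h =>
    hv.three k l m hkl (Ne.symm (mem_erase.1 (mem_erase.1 hm).2).1)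
      (Ne.symm (mem_erase.1 hm).1) a b c h)
  have hle' : ∀ c ∈ P2 (v k) (v l), (A v c ∩ ((univ.erase k).erase l)).card ≤
      Fintype.card F - 1 := by
    intro c hc
    simp only [P2, mem_filter, mem_univ, true_and] at hc
    have h4 := hle c hc.1 hc.2.1 hc.2.2
    have h5 := card_inter_sdiff (v := v) hkl hc.2.1 hc.2.2
    omega
  have hK : ((univ.erase k).erase l).card + 2 = Fintype.card ι := by
    have h4 := card_erase_add_one (mem_univ k)
    have h5 := card_erase_add_one (show l ∈ univ.erase k by simp [Ne.symm hkl])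
    rw [card_univ] at h4; omega
  have hP : (P2 (v k) (v l)).card = Fintype.card F ^ 2 - 1 :=
    hcn2 F (v k) (v l) (hv.two k l hkl)
  have h6 : 0 < Fintype.card F ^ 2 := by positivity
  constructor
  · have h4 := Finset.sum_le_card_nsmul _ _ _ hle'
    rw [h3, hP, smul_eq_mul] at h4
    have h5 := Nat.le_of_mul_le_mul_right h4 (by omega)
    omega
  · intro hn c hc hck hcl
    by_contra hne
    have hcP : c ∈ P2 (v k) (v l) := by simp [P2, hc, hck, hcl]
    have h4 := hle c hc hck hcl
    have h5 := card_inter_sdiff (v := v) hkl hck hcl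
    have h7 : ∑ c ∈ P2 (v k) (v l), (A v c ∩ ((univ.erase k).erase l)).card <
        ∑ c ∈ P2 (v k) (v l), (Fintype.card F - 1) :=
      Finset.sum_lt_sum hle' ⟨c, hcP, by omega⟩
    rw [h3, sum_const, hP, smul_eq_mul] at h7
    have h8 := Nat.lt_of_mul_lt_mul_right h7
    omega

open Classical in
/-- surjectivity by counting. -/
theorem cnt_surj {v : ι → Fin 4 → F} (hv : Cap F v) (i : ι) (J : Finset ι)
    (hJ : ∀ j ∈ J, j ≠ i) (G : Finset (Fin 4 → F))
    (hG : ∀ j ∈ J, ∀ l : F, l ≠ 0 → ∀ a : F, l • v j + a • v i ∈ G)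
    (hcard : G.card ≤ J.card * ((Fintype.card F - 1) * Fintype.card F)) :
    ∀ w ∈ G, ∃ j ∈ J, ∃ l : F, l ≠ 0 ∧ ∃ a : F, w = l • v j + a • v i := by
  have h1 : ((J ×ˢ ((univ.erase (0 : F)) ×ˢ (univ : Finset F))) :
      Finset (ι × F × F)).card = J.card * ((Fintype.card F - 1) * Fintype.card F) := by
    rw [card_product, card_product, card_erase_of_mem (mem_univ _), card_univ]
  rw [← h1] at hcard
  intro w hw
  obtain ⟨x, hx, hxw⟩ := Finset.surj_on_of_inj_on_of_card_le
    (s := J ×ˢ ((univ.erase (0 : F)) ×ˢ (univ : Finset F))) (t := G)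
    (fun x _ => x.2.1 • v x.1 + x.2.2 • v i)
    (by
      intro x hx
      have hx' := mem_product.1 hx
      have hx2 := mem_product.1 hx'.2
      exact hG _ hx'.1 _ (mem_erase.1 hx2.1).1 _)
    (by
      intro x y hx hy hxy
      have hx' := mem_product.1 hx
      have hx2 := mem_product.1 hx'.2
      have hy' := mem_product.1 hy
      obtain ⟨j, l, a⟩ := x
      obtain ⟨j', l', a'⟩ := y
      simp only at hxy hx' hx2 hy'
      have hl : l ≠ 0 := (mem_erase.1 hx2.1).1
      by_cases hjj : j = j'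
      · subst hjj
        have h2 : (l - l') • v j + (a - a') • v i = 0 := by
          rw [sub_smul, sub_smul]
          have : l • v j + a • v i - (l' • v j + a' • v i) = 0 := sub_eq_zero.2 hxy
          rw [← this]; abel
        obtain ⟨h3, h4⟩ := hv.two j i (hJ j hx'.1) _ _ h2
        rw [sub_eq_zero.1 h3, sub_eq_zero.1 h4]
      · exfalso
        have h2 : l • v j + (-l') • v j' + (a - a') • v i = 0 := by
          rw [sub_smul, neg_smul]
          have : l • v j + a • v i - (l' • v j' + a' • v i) = 0 := sub_eq_zero.2 hxy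
          rw [← this]; abel
        exact hl (hv.three j j' i hjj (hJ j hx'.1) (hJ j' hy'.1) _ _ _ h2).1)
    hcard w hw
  have hx' := mem_product.1 hx
  have hx2 := mem_product.1 hx'.2
  exact ⟨x.1, hx'.1, x.2.1, (mem_erase.1 hx2.1).1, x.2.2, hxw⟩

open Classical in
/-- in an oval plane with nucleus `N` a line through the point `m` which does not contain `N` is a
secant. -/
theorem oval_line (hcn1 : CN1Stmt) {v : ι → Fin 4 → F} (hv : Cap F v) {c N : Fin 4 → F}
    (hc : c ≠ 0) (hcN : c ⬝ᵥ N = 0) (hcard : (A v c).card = Fintype.card F + 1)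
    (hN : ∀ i ∈ A v c, ∀ j, ∀ a b : F, N ≠ a • v i + b • v j) {m : ι} (hm : m ∈ A v c)
    {w : Fin 4 → F} (hw : c ⬝ᵥ w = 0) (hwm : ∀ a b : F, w ≠ a • v m + b • N) :
    ∃ j ∈ A v c, j ≠ m ∧ ∃ l : F, l ≠ 0 ∧ ∃ a : F, w = l • v j + a • v m := by
  have hq := qpos (F := F)
  have hcm : c ⬝ᵥ v m = 0 := by simpa [A] using hm
  have hind : ∀ a b : F, a • v m + b • N = 0 → a = 0 ∧ b = 0 := by
    apply ind_of (hv.one m)
    intro a ha
    apply hN m hm m a 0
    rw [ha, zero_smul, add_zero]
  have hsub : mul2 (v m) N ⊆ perp c := by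
    intro x hx
    simp only [mul2, mem_filter, mem_univ, true_and] at hx
    obtain ⟨a, b, rfl⟩ := hx
    simp [perp, dotProduct_add, hcm, hcN]
  have hG : (perp c \ mul2 (v m) N).card = Fintype.card F ^ 3 - Fintype.card F ^ 2 := by
    rw [card_sdiff_of_subset hsub, card_perp hcn1 hc, card_mul2 hind]
  have := cnt_surj hv m ((A v c).erase m) (fun j hj => (mem_erase.1 hj).1)
    (perp c \ mul2 (v m) N) (by
      intro j hj l hl a
      have hj1 := (mem_erase.1 hj).1
      have hj2 : c ⬝ᵥ v j = 0 := by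
        have := (mem_erase.1 hj).2
        simpa [A] using this
      simp only [mul2, perp, mem_sdiff, mem_univ, mem_filter, true_and]
      refine ⟨by rw [dotProduct_add, dotProduct_smul, dotProduct_smul, hj2, hcm]; simp, ?_⟩
      rintro ⟨a', b', h⟩
      have hb' : b' ≠ 0 := by
        rintro rfl
        rw [zero_smul, add_zero] at h
        have h2 : l • v j + (a - a') • v m = 0 := by
          rw [sub_smul]
          have : l • v j + a • v m - a' • v m = 0 := sub_eq_zero.2 h
          rw [← this]; abel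
        exact hl (hv.two j m hj1 _ _ h2).1
      apply hN m hm j (b'⁻¹ * (a - a')) (b'⁻¹ * l)
      have e : N = b'⁻¹ • (b' • N) := by rw [smul_smul, inv_mul_cancel₀ hb', one_smul]
      have e2 : b' • N = l • v j + a • v m - a' • v m := by rw [h]; abel
      rw [e, e2]
      module) (by
      rw [hG, card_erase_of_mem hm, hcard]
      obtain ⟨p, hp⟩ : ∃ p, Fintype.card F = p + 1 := ⟨Fintype.card F - 1, by omega⟩
      rw [hp]
      simp only [add_tsub_cancel_right]
      have : (p + 1) ^ 3 = (p + 1) * (p * (p + 1)) + (p + 1) ^ 2 := by ring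
      omega) w (by
      simp only [mul2, perp, mem_sdiff, mem_univ, mem_filter, true_and]
      refine ⟨hw, ?_⟩
      rintro ⟨a, b, h⟩
      exact hwm a b h)
  obtain ⟨j, hj, l, hl, a, h⟩ := this
  exact ⟨j, (mem_erase.1 hj).2, (mem_erase.1 hj).1, l, hl, a, h⟩

end

end Pool.BPA
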